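import Pool.Agent.Run7.h31.Raise.Euler

set_option autoImplicit false
set_option linter.unusedSectionVars false

open scoped Matrix

/-! The restriction of a complex to a subgroup: algebraic part. -/

namespace Run7.h31.Raise

open Pool.Agent.Results.MP_984acc_gt.OrderRaising

universe u v w z

section alg
variable {G : Type u} [Group G] (H : Subgroup G)

/-- a block of an element of the group algebra -/
noncomputable def rr (u v : G) (α : MonoidAlgebra ℂ G) : MonoidAlgebra ℂ H :=
  MonoidAlgebra.ofCoeff (Finsupp.comapDomain (fun h : H => u * (h : G) * v⁻¹) α.coeff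
    (fun a _ b _ hab => Subtype.ext (by simpa using hab)))

theorem rr_coeff (u v : G) (α : MonoidAlgebra ℂ G) (h : H) :
    (rr H u v α).coeff h = α.coeff (u * h * v⁻¹) := rfl

theorem rr_ext {x y : MonoidAlgebra ℂ H} (h : ∀ k, x.coeff k = y.coeff k) : x = y := by
  apply MonoidAlgebra.coeff_injective
  ext k
  exact h k

theorem rr_add (u v : G) (α β : MonoidAlgebra ℂ G) :
    rr H u v (α + β) = rr H u v α + rr H u v β := by
  apply rr_ext
  intro k
  rw [rr_coeff, MonoidAlgebra.coeff_add, MonoidAlgebra.coeff_add, Finsupp.add_apply,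
    Finsupp.add_apply, rr_coeff, rr_coeff]

theorem rr_smul (u v : G) (c : ℂ) (α : MonoidAlgebra ℂ G) :
    rr H u v (c • α) = c • rr H u v α := by
  apply rr_ext
  intro k
  rw [rr_coeff, MonoidAlgebra.coeff_smul_apply, MonoidAlgebra.coeff_smul_apply, rr_coeff]

theorem rr_zero (u v : G) : rr H u v 0 = 0 := by
  apply rr_ext
  intro k
  rfl

/-- the block as a linear map -/
noncomputable def rrL (u v : G) : MonoidAlgebra ℂ G →ₗ[ℂ] MonoidAlgebra ℂ H where
  toFun := rr H u v
  map_add' := rr_add H u v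
  map_smul' := rr_smul H u v

theorem rr_sum {ι : Type*} (t : Finset ι) (u v : G) (f : ι → MonoidAlgebra ℂ G) :
    rr H u v (∑ i ∈ t, f i) = ∑ i ∈ t, rr H u v (f i) := map_sum (rrL H u v) f t

theorem rr_single_mem {u v x : G} (hx : u⁻¹ * x * v ∈ H) (p : ℂ) :
    rr H u v (MonoidAlgebra.single x p) = MonoidAlgebra.single ⟨_, hx⟩ p := by
  classical
  apply rr_ext
  intro k
  rw [rr_coeff, MonoidAlgebra.coeff_single, MonoidAlgebra.coeff_single, Finsupp.single_apply,
    Finsupp.single_apply]
  apply if_congr _ rfl rfl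
  constructor
  · intro h
    apply Subtype.ext
    change u⁻¹ * x * v = k
    rw [h]
    group
  · intro h
    have h' : u⁻¹ * x * v = k := congrArg Subtype.val h
    rw [← h']
    group

theorem rr_single_not {u v x : G} (hx : u⁻¹ * x * v ∉ H) (p : ℂ) :
    rr H u v (MonoidAlgebra.single x p) = 0 := by
  apply rr_ext
  intro k
  rw [rr_coeff, MonoidAlgebra.coeff_single]
  have h : x ≠ u * k * v⁻¹ := by
    rintro rfl
    apply hx
    have e : u⁻¹ * (u * (k : G) * v⁻¹) * v = k := by group
    rw [e]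
    exact k.2
  rw [Finsupp.single_eq_of_ne' h]
  rfl

/-- one representative of each left coset -/
def IsTrans {A : Type w} (s : A → G) : Prop := ∀ g, ∃! a, (s a)⁻¹ * g ∈ H

variable {H}

theorem rr_mul {A : Type w} [Fintype A] {s : A → G} (hs : IsTrans H s) (u v : G)
    (α β : MonoidAlgebra ℂ G) :
    ∑ b, rr H u (s b) α * rr H (s b) v β = rr H u v (α * β) := by
  classical
  induction α using MonoidAlgebra.induction_linear with
  | zero => simp [rr_zero]
  | add x y hx hy =>
    rw [add_mul, rr_add, ← hx, ← hy, ← Finset.sum_add_distrib]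
    exact Finset.sum_congr rfl fun b _ => by rw [rr_add, add_mul]
  | single x p =>
    induction β using MonoidAlgebra.induction_linear with
    | zero => simp [rr_zero]
    | add x y hx hy =>
      rw [mul_add, rr_add, ← hx, ← hy, ← Finset.sum_add_distrib]
      exact Finset.sum_congr rfl fun b _ => by rw [rr_add, mul_add]
    | single y q =>
      obtain ⟨b, hb, hu⟩ := hs (x⁻¹ * u)
      have hiff : ∀ c : A, u⁻¹ * x * s c ∈ H ↔ (s c)⁻¹ * (x⁻¹ * u) ∈ H := by
        intro c
        rw [← H.inv_mem_iff]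
        have e : (u⁻¹ * x * s c)⁻¹ = (s c)⁻¹ * (x⁻¹ * u) := by group
        rw [e]
      rw [Finset.sum_eq_single b]
      · have hb' := (hiff b).2 hb
        rw [rr_single_mem H hb', MonoidAlgebra.single_mul_single]
        by_cases h : (s b)⁻¹ * y * v ∈ H
        · have h' : u⁻¹ * (x * y) * v ∈ H := by
            have e : u⁻¹ * (x * y) * v = (u⁻¹ * x * s b) * ((s b)⁻¹ * y * v) := by group
            rw [e]
            exact H.mul_mem hb' h
          rw [rr_single_mem H h, rr_single_mem H h', MonoidAlgebra.single_mul_single]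
          congr 1
          apply Subtype.ext
          change u⁻¹ * x * s b * ((s b)⁻¹ * y * v) = u⁻¹ * (x * y) * v
          group
        · have h' : u⁻¹ * (x * y) * v ∉ H := by
            intro h'
            apply h
            have e : (s b)⁻¹ * y * v = (u⁻¹ * x * s b)⁻¹ * (u⁻¹ * (x * y) * v) := by group
            rw [e]
            exact H.mul_mem (H.inv_mem hb') h'
          rw [rr_single_not H h, rr_single_not H h', mul_zero]
      · intro c _ hc
        rw [rr_single_not H (fun h => hc (hu c ((hiff c).1 h))), zero_mul]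
      · intro h
        exact absurd (Finset.mem_univ b) h

/-- the matrix over the subgroup -/
noncomputable def resM {A : Type w} (s : A → G) {I J a b : Type*} (e : I ≃ A × a) (f : J ≃ A × b)
    (M : Matrix a b (MonoidAlgebra ℂ G)) : Matrix I J (MonoidAlgebra ℂ H) :=
  fun i j => rr H (s (e i).1) (s (f j).1) (M (e i).2 (f j).2)

/-- the row vector over the subgroup -/
noncomputable def rowM {A : Type w} (s : A → G) {J b : Type*} (f : J ≃ A × b)
    (x : b → MonoidAlgebra ℂ G) : J → MonoidAlgebra ℂ H :=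
  fun j => rr H 1 (s (f j).1) (x (f j).2)

/-- the column vector over the subgroup -/
noncomputable def colM {A : Type w} (s : A → G) {J b : Type*} (f : J ≃ A × b)
    (x : b → MonoidAlgebra ℂ G) : J → MonoidAlgebra ℂ H :=
  fun j => rr H (s (f j).1) 1 (x (f j).2)

section
variable {A : Type w} [Fintype A] {s : A → G} (hs : IsTrans H s)
variable {I J K a b c : Type*} [Fintype I] [Fintype J] [Fintype K] [Fintype a] [Fintype b]
  [Fintype c] (e : I ≃ A × a) (f : J ≃ A × b) (k : K ≃ A × c)

include hs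

theorem rr_prod (u v : G) (x : a → MonoidAlgebra ℂ G) (y : a → MonoidAlgebra ℂ G) :
    rr H u v (∑ i, x i * y i)
      = ∑ i, rr H u (s (e i).1) (x (e i).2) * rr H (s (e i).1) v (y (e i).2) := by
  rw [rr_sum, Equiv.sum_comp e (fun p : A × a => rr H u (s p.1) (x p.2) * rr H (s p.1) v (y p.2)),
    Fintype.sum_prod_type, Finset.sum_comm]
  exact Finset.sum_congr rfl fun i _ => (rr_mul hs u v _ _).symm

theorem resM_mul (M : Matrix a b (MonoidAlgebra ℂ G)) (N : Matrix b c (MonoidAlgebra ℂ G)) :
    (resM s e f M * resM s f k N : Matrix I K (MonoidAlgebra ℂ H)) = resM s e k (M * N) := by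
  funext i j
  exact (rr_prod hs f _ _ (fun l => M (e i).2 l) (fun l => N l (k j).2)).symm

theorem rowM_vecMul (x : a → MonoidAlgebra ℂ G) (M : Matrix a b (MonoidAlgebra ℂ G)) :
    (rowM s f (x ᵥ* M) : J → MonoidAlgebra ℂ H) = rowM s e x ᵥ* resM s e f M := by
  funext j
  exact rr_prod hs e _ _ x (fun l => M l (f j).2)

theorem colM_mulVec (x : b → MonoidAlgebra ℂ G) (M : Matrix a b (MonoidAlgebra ℂ G)) :
    (colM s e (M *ᵥ x) : I → MonoidAlgebra ℂ H) = resM s e f M *ᵥ colM s f x := by
  funext j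
  exact rr_prod hs f _ _ (fun l => M (e j).2 l) x

omit [Fintype A] [Fintype b] [Fintype J] in
theorem rowM_injective : Function.Injective (rowM (H := H) s f) := by
  intro x y h
  funext j
  apply MonoidAlgebra.coeff_injective
  ext g
  obtain ⟨q, hq, _⟩ := hs g⁻¹
  have h1 := congrArg (fun z => z.coeff ⟨((s q)⁻¹ * g⁻¹)⁻¹, H.inv_mem hq⟩)
    (congrFun h (f.symm (q, j)))
  change (x (f (f.symm (q, j))).2).coeff _ = (y (f (f.symm (q, j))).2).coeff _ at h1
  rw [f.apply_symm_apply] at h1
  have e1 : 1 * ((s q)⁻¹ * g⁻¹)⁻¹ * (s q)⁻¹ = g := by group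
  have h2 : (x j).coeff (1 * ((s q)⁻¹ * g⁻¹)⁻¹ * (s q)⁻¹)
      = (y j).coeff (1 * ((s q)⁻¹ * g⁻¹)⁻¹ * (s q)⁻¹) := h1
  rwa [e1] at h2

omit [Fintype A] [Fintype b] [Fintype J] in
theorem colM_injective : Function.Injective (colM (H := H) s f) := by
  intro x y h
  funext j
  apply MonoidAlgebra.coeff_injective
  ext g
  obtain ⟨q, hq, _⟩ := hs g
  have h1 := congrArg (fun z => z.coeff ⟨(s q)⁻¹ * g, hq⟩)
    (congrFun h (f.symm (q, j)))
  change (x (f (f.symm (q, j))).2).coeff _ = (y (f (f.symm (q, j))).2).coeff _ at h1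
  rw [f.apply_symm_apply] at h1
  have e1 : s q * ((s q)⁻¹ * g) * 1⁻¹ = g := by group
  have h2 : (x j).coeff (s q * ((s q)⁻¹ * g) * 1⁻¹)
      = (y j).coeff (s q * ((s q)⁻¹ * g) * 1⁻¹) := h1
  rwa [e1] at h2

omit hs in
/-- the element with one block -/
noncomputable def bl (u v : G) (β : MonoidAlgebra ℂ H) : MonoidAlgebra ℂ G :=
  MonoidAlgebra.ofCoeff (Finsupp.mapDomain (fun h : H => u * (h : G) * v⁻¹) β.coeff)

omit hs in
theorem bl_single (u v : G) (x : H) (p : ℂ) :
    bl u v (MonoidAlgebra.single x p) = MonoidAlgebra.single (u * (x : G) * v⁻¹) p := by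
  unfold bl
  rw [MonoidAlgebra.coeff_single, Finsupp.mapDomain_single]
  rfl

omit hs in
theorem bl_add (u v : G) (x y : MonoidAlgebra ℂ H) : bl u v (x + y) = bl u v x + bl u v y := by
  unfold bl
  rw [MonoidAlgebra.coeff_add, Finsupp.mapDomain_add]
  rfl

omit hs in
theorem bl_zero (u v : G) : bl u v (0 : MonoidAlgebra ℂ H) = 0 := by
  unfold bl
  rw [MonoidAlgebra.coeff_zero, Finsupp.mapDomain_zero]
  rfl

omit hs in
theorem rr_bl (u v : G) (β : MonoidAlgebra ℂ H) : rr H u v (bl u v β) = β := by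
  induction β using MonoidAlgebra.induction_linear with
  | zero => rw [bl_zero, rr_zero]
  | add x y hx hy => rw [bl_add, rr_add, hx, hy]
  | single x p =>
    have e1 : u⁻¹ * (u * (x : G) * v⁻¹) * v = x := by group
    have h : u⁻¹ * (u * (x : G) * v⁻¹) * v ∈ H := by
      rw [e1]
      exact x.2
    rw [bl_single, rr_single_mem H h]
    congr 1
    exact Subtype.ext e1

omit hs in
theorem rr_bl_row (v v' : G) (hv : v⁻¹ * v' ∉ H) (β : MonoidAlgebra ℂ H) :
    rr H 1 v' (bl 1 v β) = 0 := by
  induction β using MonoidAlgebra.induction_linear with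
  | zero => rw [bl_zero, rr_zero]
  | add x y hx hy => rw [bl_add, rr_add, hx, hy, add_zero]
  | single x p =>
    rw [bl_single]
    apply rr_single_not
    intro h
    apply hv
    have e1 : v⁻¹ * v' = (x : G)⁻¹ * (1⁻¹ * (1 * (x : G) * v⁻¹) * v') := by group
    rw [e1]
    exact H.mul_mem (H.inv_mem x.2) h

omit hs in
theorem rr_bl_col (v v' : G) (hv : v'⁻¹ * v ∉ H) (β : MonoidAlgebra ℂ H) :
    rr H v' 1 (bl v 1 β) = 0 := by
  induction β using MonoidAlgebra.induction_linear with
  | zero => rw [bl_zero, rr_zero]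
  | add x y hx hy => rw [bl_add, rr_add, hx, hy, add_zero]
  | single x p =>
    rw [bl_single]
    apply rr_single_not
    intro h
    apply hv
    have e1 : v'⁻¹ * v = (v'⁻¹ * (v * (x : G) * 1⁻¹) * 1) * (x : G)⁻¹ := by group
    rw [e1]
    exact H.mul_mem h (H.inv_mem x.2)

omit [Fintype A] in
theorem trans_ne {q q' : A} (h : q ≠ q') : (s q)⁻¹ * s q' ∉ H := by
  intro h1
  obtain ⟨_, _, hu⟩ := hs (s q')
  have h2 : (s q')⁻¹ * s q' ∈ H := by
    rw [inv_mul_cancel]
    exact H.one_mem
  exact h ((hu q h1).trans (hu q' h2).symm)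

omit [Fintype b] [Fintype J] in
theorem rowM_surjective : Function.Surjective (rowM (H := H) s f) := by
  intro z
  refine ⟨fun j => ∑ q, bl 1 (s q) (z (f.symm (q, j))), ?_⟩
  funext j
  change rr H 1 (s (f j).1) (∑ q, bl 1 (s q) (z (f.symm (q, (f j).2)))) = z j
  rw [rr_sum, Finset.sum_eq_single (f j).1]
  · rw [rr_bl, Prod.mk.eta, f.symm_apply_apply]
  · intro q _ hq
    exact rr_bl_row _ _ (trans_ne hs hq) _
  · intro h
    exact absurd (Finset.mem_univ _) h

omit [Fintype b] [Fintype J] in
theorem colM_surjective : Function.Surjective (colM (H := H) s f) := by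
  intro z
  refine ⟨fun j => ∑ q, bl (s q) 1 (z (f.symm (q, j))), ?_⟩
  funext j
  change rr H (s (f j).1) 1 (∑ q, bl (s q) 1 (z (f.symm (q, (f j).2)))) = z j
  rw [rr_sum, Finset.sum_eq_single (f j).1]
  · rw [rr_bl, Prod.mk.eta, f.symm_apply_apply]
  · intro q _ hq
    exact rr_bl_col _ _ (trans_ne hs (Ne.symm hq)) _
  · intro h
    exact absurd (Finset.mem_univ _) h

omit hs [Fintype A] [Fintype b] [Fintype J] in
theorem colM_add (x y : b → MonoidAlgebra ℂ G) :
    colM (H := H) s f (x + y) = colM s f x + colM s f y := by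
  funext j
  exact rr_add H (s (f j).1) 1 (x (f j).2) (y (f j).2)

omit hs [Fintype A] [Fintype b] [Fintype J] in
theorem colM_smul (t : ℂ) (x : b → MonoidAlgebra ℂ G) :
    colM (H := H) s f (t • x) = t • colM s f x := by
  funext j
  exact rr_smul H (s (f j).1) 1 t (x (f j).2)

omit hs [Fintype A] [Fintype b] [Fintype J] in
/-- `colM` as a linear map -/
noncomputable def colM0 (s : A → G) (f : J ≃ A × b) :
    (b → MonoidAlgebra ℂ G) →ₗ[ℂ] (J → MonoidAlgebra ℂ H) where
  toFun := colM s f
  map_add' := colM_add f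
  map_smul' := colM_smul f

omit [Fintype b] [Fintype J] in
/-- `colM` as a linear equivalence -/
noncomputable def colL : (b → MonoidAlgebra ℂ G) ≃ₗ[ℂ] (J → MonoidAlgebra ℂ H) :=
  LinearEquiv.ofBijective (colM0 s f) ⟨colM_injective hs f, colM_surjective hs f⟩

theorem aug_row (x : MonoidAlgebra ℂ G) : ∑ q, aug (rr H 1 (s q) x) = aug x := by
  have haug : ∀ {K : Type u} [Group K] (y z : MonoidAlgebra ℂ K), aug (y + z) = aug y + aug z := by
    intro K _ y z
    unfold aug
    rw [MonoidAlgebra.coeff_add]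
    exact Finsupp.sum_add_index' (fun _ => rfl) (fun _ _ _ => rfl)
  have haug1 : ∀ {K : Type u} [Group K] (y : K) (p : ℂ), aug (MonoidAlgebra.single y p) = p := by
    intro K _ y p
    unfold aug
    rw [MonoidAlgebra.coeff_single]
    exact Finsupp.sum_single_index rfl
  have haug0 : ∀ {K : Type u} [Group K], aug (0 : MonoidAlgebra ℂ K) = 0 := by
    intro K _
    unfold aug
    rw [MonoidAlgebra.coeff_zero, Finsupp.sum_zero_index]
  induction x using MonoidAlgebra.induction_linear with
  | zero => simp [rr_zero, haug0]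
  | add x y hx hy =>
    rw [haug, ← hx, ← hy, ← Finset.sum_add_distrib]
    exact Finset.sum_congr rfl fun b _ => by rw [rr_add, haug]
  | single x p =>
    obtain ⟨b, hb, hu⟩ := hs x⁻¹
    have hiff : ∀ c : A, (1 : G)⁻¹ * x * s c ∈ H ↔ (s c)⁻¹ * x⁻¹ ∈ H := by
      intro c
      rw [← H.inv_mem_iff]
      have e : ((1 : G)⁻¹ * x * s c)⁻¹ = (s c)⁻¹ * x⁻¹ := by group
      rw [e]
    rw [Finset.sum_eq_single b]
    · rw [rr_single_mem H ((hiff b).2 hb), haug1, haug1]
    · intro c _ hc
      rw [rr_single_not H (fun h => hc (hu c ((hiff c).1 h))), haug0]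
    · intro h
      exact absurd (Finset.mem_univ b) h

end

end alg

section complex
variable {G : Type u} [Group G] {H : Subgroup G} {A : Type w} [Fintype A] {s : A → G}
  (hs : IsTrans H s) {N : ℕ} {r : ℕ → ℕ} (e : ∀ i, Fin (N * r i) ≃ A × Fin (r i))

/-- the restriction of the complex to the subgroup -/
noncomputable def resD (s : A → G) (D : Matrices G r) : Matrices H (fun i => N * r i) :=
  fun i => resM s (e (i + 1)) (e i) (D i)

include hs

theorem res_duality [Nonempty A] (n : ℕ) (D : Matrices G r) (hD : IsDualityComplex n D) :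
    IsDualityComplex n (resD (H := H) e s D) := by
  refine ⟨?_, ?_, ?_, ?_, ?_, ?_⟩
  · intro i
    refine (resM_mul hs (e (i + 1 + 1)) (e (i + 1)) (e i) (D (i + 1)) (D i)).trans ?_
    rw [hD.comp]
    funext j k
    exact rr_zero H _ _
  · intro i hi
    change N * r i = 0
    rw [hD.length i hi, mul_zero]
  · intro i x hx
    obtain ⟨z, rfl⟩ := rowM_surjective (H := H) hs (e (i + 1)) x
    change rowM s (e (i + 1)) z ᵥ* resM s (e (i + 1)) (e i) (D i) = 0 at hx
    rw [← rowM_vecMul hs] at hx
    have h1 : z ᵥ* D i = 0 := by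
      apply rowM_injective (H := H) hs (e i)
      rw [hx]
      funext j
      exact (rr_zero H _ _).symm
    obtain ⟨y, rfl⟩ := hD.exact i z h1
    exact ⟨rowM s (e (i + 1 + 1)) y, (rowM_vecMul hs _ _ y (D (i + 1))).symm⟩
  · obtain ⟨a, ha0, ha⟩ := hD.augmentation
    refine ⟨fun j => a (e 0 j).2, ?_, ?_⟩
    · intro h
      apply ha0
      funext j
      have h1 := congrFun h ((e 0).symm (Classical.arbitrary A, j))
      change a ((e 0) ((e 0).symm (Classical.arbitrary A, j))).2 = 0 at h1
      rwa [(e 0).apply_symm_apply] at h1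
    · intro x
      obtain ⟨z, rfl⟩ := rowM_surjective (H := H) hs (e 0) x
      have h1 : ∑ i, aug (rowM (H := H) s (e 0) z i) * a (e 0 i).2 = ∑ i, aug (z i) * a i := by
        change ∑ i, aug (rr H 1 (s (e 0 i).1) (z (e 0 i).2)) * a (e 0 i).2 = _
        rw [Equiv.sum_comp (e 0) (fun p : A × Fin (r 0) => aug (rr H 1 (s p.1) (z p.2)) * a p.2),
          Fintype.sum_prod_type, Finset.sum_comm]
        refine Finset.sum_congr rfl fun i _ => ?_
        change ∑ x, aug (rr H 1 (s x) (z i)) * a i = _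
        rw [← Finset.sum_mul, aug_row hs]
      rw [h1, ← ha]
      constructor
      · rintro ⟨y, hy⟩
        obtain ⟨y, rfl⟩ := rowM_surjective (H := H) hs (e (0 + 1)) y
        refine ⟨y, ?_⟩
        apply rowM_injective (H := H) hs (e 0)
        rw [← hy]
        exact rowM_vecMul hs _ _ y (D 0)
      · rintro ⟨y, rfl⟩
        exact ⟨rowM s (e (0 + 1)) y, (rowM_vecMul hs _ _ y (D 0)).symm⟩
  · intro i hi x hx
    obtain ⟨z, rfl⟩ := colM_surjective (H := H) hs (e (i + 1)) x
    change resM s (e (i + 1 + 1)) (e (i + 1)) (D (i + 1)) *ᵥ colM s (e (i + 1)) z = 0 at hx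
    rw [← colM_mulVec hs] at hx
    have h1 : D (i + 1) *ᵥ z = 0 := by
      apply colM_injective (H := H) hs (e (i + 1 + 1))
      rw [hx]
      funext j
      exact (rr_zero H _ _).symm
    obtain ⟨y, rfl⟩ := hD.coexact i hi z h1
    exact ⟨colM s (e i) y, (colM_mulVec hs _ _ y (D i)).symm⟩
  · intro i hi
    obtain ⟨φ, hφ0, hφ⟩ := hD.coaugmentation i hi
    refine ⟨φ ∘ₗ (colL (H := H) hs (e (i + 1))).symm.toLinearMap, ?_, ?_⟩
    · intro h
      apply hφ0
      apply LinearMap.ext
      intro x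
      have h1 := congrArg (fun ψ => ψ (colL (H := H) hs (e (i + 1)) x)) h
      change φ ((colL (H := H) hs (e (i + 1))).symm (colL (H := H) hs (e (i + 1)) x)) = 0 at h1
      rw [LinearEquiv.symm_apply_apply] at h1
      exact h1
    · intro x
      obtain ⟨z, rfl⟩ := (colL (H := H) hs (e (i + 1))).surjective x
      change _ ↔ φ ((colL (H := H) hs (e (i + 1))).symm (colL (H := H) hs (e (i + 1)) z)) = 0
      rw [LinearEquiv.symm_apply_apply, ← hφ]
      constructor
      · rintro ⟨y, hy⟩
        obtain ⟨y, rfl⟩ := colM_surjective (H := H) hs (e i) y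
        refine ⟨y, ?_⟩
        apply colM_injective (H := H) hs (e (i + 1))
        exact (colM_mulVec hs _ _ y (D i)).trans hy
      · rintro ⟨y, rfl⟩
        exact ⟨colM s (e i) y, (colM_mulVec hs _ _ y (D i)).symm⟩

end complex

end Run7.h31.Raise
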