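import Pool.Agent.Run7.h31.Raise.Twist

set_option autoImplicit false
set_option linter.unusedSectionVars false

open scoped InnerProductSpace InnerProduct ENNReal
open scoped Matrix Pointwise

/-! Raising chain endomorphisms from the exactness of the upper subcomplexes. -/

namespace Run7.h31.Raise

open Pool.Agent.W649.ZL Pool.Agent.N309.LO Pool.Agent.N309.PD

universe u v w z

section
variable {G : Type u} [Group G] {X : Type v} [MulAction G X] [LinearOrder X]

/-- all heights of the vector are at least `x` -/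
def Abv {n : ℕ} (w : Fin n → X) (x : X) (v : Fin n → MonoidAlgebra ℂ G) : Prop :=
  ∀ j, ∀ g ∈ (v j).coeff.support, x ≤ g • w j

/-- all heights of the vector are more than `x` -/
def SAbv {n : ℕ} (w : Fin n → X) (x : X) (v : Fin n → MonoidAlgebra ℂ G) : Prop :=
  ∀ j, ∀ g ∈ (v j).coeff.support, x < g • w j

theorem SAbv.exists_abv [NoMaxOrder X] {n : ℕ} {w : Fin n → X} {x : X}
    {v : Fin n → MonoidAlgebra ℂ G} (h : SAbv w x v) : ∃ y, x < y ∧ Abv w y v := by
  classical
  let S : Finset X := Finset.univ.biUnion (fun j : Fin n => (v j).coeff.support.image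
    (fun g => g • w j))
  by_cases hS : S.Nonempty
  · refine ⟨S.min' hS, ?_, ?_⟩
    · obtain ⟨j, _, hj⟩ := Finset.mem_biUnion.1 (S.min'_mem hS)
      obtain ⟨g, hg, he⟩ := Finset.mem_image.1 hj
      rw [← he]
      exact h j g hg
    · intro j g hg
      apply Finset.min'_le
      exact Finset.mem_biUnion.2 ⟨j, Finset.mem_univ _, Finset.mem_image_of_mem _ hg⟩
  · obtain ⟨y, hy⟩ := exists_gt x
    refine ⟨y, hy, ?_⟩
    intro j g hg
    exact (hS ⟨g • w j, Finset.mem_biUnion.2 ⟨j, Finset.mem_univ _,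
      Finset.mem_image_of_mem _ hg⟩⟩).elim

theorem Abv.sabv {n : ℕ} {w : Fin n → X} {x y : X}
    {v : Fin n → MonoidAlgebra ℂ G} (h : Abv w y v) (hxy : x < y) : SAbv w x v :=
  fun j g hg => lt_of_lt_of_le hxy (h j g hg)

theorem support_vecMul {n k : ℕ} (v : Fin n → MonoidAlgebra ℂ G)
    (M : Matrix (Fin n) (Fin k) (MonoidAlgebra ℂ G)) (l : Fin k) (g : G)
    (hg : g ∈ ((v ᵥ* M) l).coeff.support) :
    ∃ j, ∃ a ∈ (v j).coeff.support, ∃ b ∈ (M j l).coeff.support, a * b = g := by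
  classical
  have e : (v ᵥ* M) l = ∑ j, v j * M j l := rfl
  have h1 : ∃ j, (v j * M j l).coeff g ≠ 0 := by
    by_contra hcon
    push Not at hcon
    rw [Finsupp.mem_support_iff, e, MonoidAlgebra.coeff_sum, Finsupp.finset_sum_apply] at hg
    exact hg (Finset.sum_eq_zero fun j _ => hcon j)
  obtain ⟨j, hj⟩ := h1
  have h2 := MonoidAlgebra.support_coeff_mul_subset (v j) (M j l)
    (Finsupp.mem_support_iff.2 hj)
  obtain ⟨a, ha, b, hb, hab⟩ := Finset.mem_mul.1 h2
  exact ⟨j, a, ha, b, hb, hab⟩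

theorem abv_vecMul (hX : OrdInv G X) {n k : ℕ} {w : Fin n → X} {u : Fin k → X} {x : X}
    {v : Fin n → MonoidAlgebra ℂ G} {M : Matrix (Fin n) (Fin k) (MonoidAlgebra ℂ G)}
    (hv : Abv w x v) (hM : ∀ j, Abv u (w j) (M j)) : Abv u x (v ᵥ* M) := by
  intro l g hg
  obtain ⟨j, a, ha, b, hb, rfl⟩ := support_vecMul v M l g hg
  rw [mul_smul]
  exact (hv j a ha).trans (hX a _ _ (hM j l b hb))

theorem sabv_vecMul (hX : OrdInv G X) {n k : ℕ} {w : Fin n → X} {u : Fin k → X} {x : X}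
    {v : Fin n → MonoidAlgebra ℂ G} {M : Matrix (Fin n) (Fin k) (MonoidAlgebra ℂ G)}
    (hv : Abv w x v) (hM : ∀ j, SAbv u (w j) (M j)) : SAbv u x (v ᵥ* M) := by
  intro l g hg
  obtain ⟨j, a, ha, b, hb, rfl⟩ := support_vecMul v M l g hg
  rw [mul_smul]
  exact (hv j a ha).trans_lt (hX.lt a (hM j l b hb))

/-- the subcomplexes of the elements of heights at least `x` are exact in the degrees below `m` -/
structure Upper {q : ℕ → ℕ} (m : ℕ) (E : Mats G q)
    (ψ : (Fin (q 0) → MonoidAlgebra ℂ G) →ₗ[ℂ] ℂ) (w : ∀ i, Fin (q i) → X) : Prop where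
  mono : ∀ i, i + 1 ≤ m → ∀ k, Abv (w i) (w (i + 1) k) (E i k)
  surj : ∀ x : X, ∃ v, Abv (w 0) x v ∧ ψ v ≠ 0
  zero : 1 ≤ m → ∀ (x : X) v, Abv (w 0) x v → ψ v = 0 → ∃ y, Abv (w (0 + 1)) x y ∧ y ᵥ* E 0 = v
  succ : ∀ i, i + 2 ≤ m → ∀ (x : X) v, Abv (w (i + 1)) x v → v ᵥ* E i = 0 →
    ∃ y, Abv (w (i + 1 + 1)) x y ∧ y ᵥ* E (i + 1) = v

theorem Upper.exact {q : ℕ → ℕ} {m : ℕ} {E : Mats G q}
    {ψ : (Fin (q 0) → MonoidAlgebra ℂ G) →ₗ[ℂ] ℂ} {w : ∀ i, Fin (q i) → X} [Nonempty X]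
    (h : Upper m E ψ w) : ExactUpTo m E ψ := by
  classical
  have key : ∀ (i : ℕ) (v : Fin (q i) → MonoidAlgebra ℂ G), ∃ x, Abv (w i) x v := by
    intro i v
    let S : Finset X := Finset.univ.biUnion (fun j : Fin (q i) => (v j).coeff.support.image
      (fun g => g • w i j))
    by_cases hS : S.Nonempty
    · refine ⟨S.min' hS, ?_⟩
      intro j g hg
      apply Finset.min'_le
      exact Finset.mem_biUnion.2 ⟨j, Finset.mem_univ _, Finset.mem_image_of_mem _ hg⟩
    · refine ⟨Classical.arbitrary X, ?_⟩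
      intro j g hg
      exact (hS ⟨g • w i j, Finset.mem_biUnion.2 ⟨j, Finset.mem_univ _,
        Finset.mem_image_of_mem _ hg⟩⟩).elim
  constructor
  · intro hm v hv
    obtain ⟨x, hx⟩ := key 0 v
    obtain ⟨y, _, hy⟩ := h.zero hm x v hx hv
    exact ⟨y, hy⟩
  · intro i hi v hv
    obtain ⟨x, hx⟩ := key (i + 1) v
    obtain ⟨y, _, hy⟩ := h.succ i hi x v hx hv
    exact ⟨y, hy⟩

theorem exists_raising [NoMaxOrder X] (hX : OrdInv G X) {q : ℕ → ℕ} (E : Mats G q)
    (ψ : (Fin (q 0) → MonoidAlgebra ℂ G) →ₗ[ℂ] ℂ) (hψ : HasChar 1 ψ) (w : ∀ i, Fin (q i) → X)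
    (m : ℕ) (hEc : CompUpTo m E ψ) (h : Upper m E ψ w) :
    ∃ Z : ∀ i, Matrix (Fin (q i)) (Fin (q i)) (MonoidAlgebra ℂ G),
      LiftId m E ψ Z ∧ ∀ i, i ≤ m → ∀ j, SAbv (w i) (w i j) (Z i j) := by
  induction m with
  | zero =>
    have h1 : ∀ j : Fin (q 0), ∃ v : Fin (q 0) → MonoidAlgebra ℂ G,
        SAbv (w 0) (w 0 j) v ∧ ψ v = ψ (Pi.single j 1) := by
      intro j
      obtain ⟨y, hy⟩ := exists_gt (w 0 j)
      obtain ⟨v, hv, hv0⟩ := h.surj y
      refine ⟨(ψ (Pi.single j 1) * (ψ v)⁻¹) • v, ?_, ?_⟩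
      · intro l g hg
        apply (hv.sabv hy) l g
        rw [Finsupp.mem_support_iff] at hg ⊢
        intro h0
        apply hg
        rw [Pi.smul_apply, MonoidAlgebra.coeff_smul_apply, h0, smul_zero]
      · rw [map_smul, smul_eq_mul, mul_assoc, inv_mul_cancel₀ hv0, mul_one]
    choose V hV1 hV2 using h1
    refine ⟨fun i => if h : i = 0 then by
      subst h
      exact V else 0, ⟨?_, ?_⟩, ?_⟩
    · apply hψ.vecMul hψ
      intro j
      exact hV2 j
    · intro i hi
      omega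
    · intro i hi
      obtain rfl : i = 0 := by omega
      exact hV1
  | succ m ih =>
    obtain ⟨Z, hZ, hr⟩ := ih ⟨fun h => hEc.zero (by omega), fun i h => hEc.succ i (by omega)⟩
      ⟨fun i hi => h.mono i (by omega), h.surj, fun h' => h.zero (by omega),
        fun i h' => h.succ i (by omega)⟩
    have h1 : ∀ k : Fin (q (m + 1)), ∃ v : Fin (q (m + 1)) → MonoidAlgebra ℂ G,
        SAbv (w (m + 1)) (w (m + 1) k) v ∧ v ᵥ* E m = (E m * Z m) k := by
      intro k
      have h2 : SAbv (w m) (w (m + 1) k) ((E m * Z m) k) :=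
        sabv_vecMul hX (h.mono m (by omega) k) (hr m le_rfl)
      obtain ⟨y, hy1, hy2⟩ := h2.exists_abv
      rcases m with _ | l
      · have h3 : ψ ((E 0 * Z 0) k) = 0 := by
          have e : (E 0 * Z 0 : Matrix (Fin (q (0 + 1))) (Fin (q 0)) (MonoidAlgebra ℂ G)) k
              = ((Pi.single k 1 : Fin (q (0 + 1)) → MonoidAlgebra ℂ G) ᵥ* E 0) ᵥ* Z 0 := by
            rw [Matrix.vecMul_vecMul, single_vecMul]
          rw [e, hZ.zero]
          exact hEc.zero (by omega) _
        obtain ⟨v, hv1, hv2⟩ := h.zero (by omega) y _ hy2 h3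
        exact ⟨v, hv1.sabv hy1, hv2⟩
      · have h3 : ((E (l + 1) * Z (l + 1)) k) ᵥ* E l = 0 := by
          have h4 : (E (l + 1) * Z (l + 1)) * E l = 0 := by
            rw [Matrix.mul_assoc, ← hZ.comm l (by omega), ← Matrix.mul_assoc,
              hEc.succ l (by omega), Matrix.zero_mul]
          exact congrFun h4 k
        obtain ⟨v, hv1, hv2⟩ := h.succ l (by omega) y _ hy2 h3
        exact ⟨v, hv1.sabv hy1, hv2⟩
    choose V hV1 hV2 using h1
    refine ⟨Function.update Z (m + 1) V, ⟨?_, ?_⟩, ?_⟩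
    · intro x
      rw [Function.update_of_ne (by omega)]
      exact hZ.zero x
    · intro i hi
      rcases Nat.lt_or_ge i m with h2 | h2
      · rw [Function.update_of_ne (by omega), Function.update_of_ne (by omega)]
        exact hZ.comm i (by omega)
      · obtain rfl : i = m := by omega
        rw [Function.update_of_ne (by omega), Function.update_self]
        funext k
        exact (hV2 k).symm
    · intro i hi
      rcases Nat.lt_or_ge m i with h2 | h2
      · obtain rfl : i = m + 1 := by omega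
        rw [Function.update_self]
        exact hV1
      · rw [Function.update_of_ne (by omega)]
        exact hr i h2

end

end Run7.h31.Raise
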