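import Pool.Agent.N309.PD.Dual

set_option autoImplicit false
set_option linter.unusedSectionVars false

open scoped InnerProductSpace InnerProduct ENNReal
open scoped Matrix

/-! Betti numbers and chain endomorphisms of another complex. -/

namespace Run7.h31.Raise

open Pool.Agent.W649.ZL Pool.Agent.N309.LO Pool.Agent.N309.PD

universe u v w z

section
variable {G : Type u} [Group G]
variable {I : Type*} {J : Type*} {K : Type*} [Fintype I] [Fintype J] [Fintype K]
  [DecidableEq I] [DecidableEq J] [DecidableEq K]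

theorem opM_mul_apply (A : Matrix I J (MonoidAlgebra ℂ G)) (B : Matrix J K (MonoidAlgebra ℂ G))
    (F : EE G K) : opM (A * B) F = opM A (opM B F) := by
  apply ext_cmp
  intro i
  rw [cmp_opM, cmp_opM, pr_opM]
  rfl

theorem opM_add_apply (A B : Matrix I J (MonoidAlgebra ℂ G)) (F : EE G J) :
    opM (A + B) F = opM A F + opM B F := by
  apply ext_cmp
  intro i
  rw [map_add, cmp_opM, cmp_opM, cmp_opM, ← pr_add_left]
  rfl

theorem opM_zero_apply (F : EE G J) : opM (0 : Matrix I J (MonoidAlgebra ℂ G)) F = 0 := by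
  rw [opM_eq_zero]
  intro i
  exact pr_zero_left F

theorem opM_one_apply (F : EE G J) : opM (1 : Matrix J J (MonoidAlgebra ℂ G)) F = F := by
  apply ext_cmp
  intro j
  rw [cmp_opM]
  have h : (1 : Matrix J J (MonoidAlgebra ℂ G)) j = Pi.single j 1 := by
    funext k
    rw [Matrix.one_apply, Pi.single_apply]
    by_cases h : j = k
    · rw [if_pos h, if_pos h.symm]
    · rw [if_neg h, if_neg (fun h' => h h'.symm)]
  rw [h, pr_single, map_one]
  rfl

theorem comp_eqv {I J K : Type*} {T : EE G J →L[ℂ] EE G K} {S : EE G I →L[ℂ] EE G J} (hT : Eqv T)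
    (hS : Eqv S) : Eqv (T.comp S) := by
  intro k f
  rw [ContinuousLinearMap.comp_apply, ContinuousLinearMap.comp_apply, hS, hT]

theorem orth_inv {P : Submodule ℂ (EE G J)} (hP : Pool.Agent.W649.ZL.Inv P) :
    Pool.Agent.W649.ZL.Inv Pᗮ := by
  intro k f hf
  rw [Submodule.mem_orthogonal] at hf ⊢
  intro v hv
  have h : ⟪v, tr k f⟫_ℂ = ⟪tr k⁻¹ v, f⟫_ℂ := by rw [inner_tr_left, inv_inv]
  rw [h]
  exact hf _ (hP k⁻¹ v hv)

end

section
variable {G : Type u} [Group G]
variable {d1 d0 dm e0 em k : Type*} [Fintype d1] [Fintype d0] [Fintype dm] [Fintype e0]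
  [Fintype em] [Fintype k] [DecidableEq d1] [DecidableEq d0] [DecidableEq dm] [DecidableEq e0]
  [DecidableEq em] [DecidableEq k]

/-- The Betti number of the first complex is at most that of the second one. -/
theorem transfer (D' : Matrix d1 d0 (MonoidAlgebra ℂ G)) (D'' : Matrix d0 dm (MonoidAlgebra ℂ G))
    (E'' : Matrix e0 em (MonoidAlgebra ℂ G)) (Km : Matrix k e0 (MonoidAlgebra ℂ G))
    (f : Matrix d0 e0 (MonoidAlgebra ℂ G)) (fm : Matrix dm em (MonoidAlgebra ℂ G))
    (f' : Matrix e0 d0 (MonoidAlgebra ℂ G)) (h : Matrix d0 d1 (MonoidAlgebra ℂ G))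
    (hm : Matrix dm d0 (MonoidAlgebra ℂ G)) (U : Matrix k d1 (MonoidAlgebra ℂ G))
    (h0 : Km * E'' = 0)
    (h1 : 1 = f * f' + D'' * hm + h * D') (h2 : D'' * fm = f * E'') (h3 : Km * f' = U * D') :
    vd (harm (opM D') (opM D'')) ≤ vd (harm (opM Km) (opM E'')) := by
  set P := (LinearMap.range (opM E'' : EE G em →ₗ[ℂ] EE G e0)) with hP
  have hPinv : Pool.Agent.W649.ZL.Inv P := inv_range (opM E'') (opM_eqv E'')
  have hPo : Pool.Agent.W649.ZL.Inv Pᗮ := orth_inv hPinv
  set T : EE G d0 →L[ℂ] EE G e0 := (Pᗮ.starProjection).comp (opM f') with hT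
  have hTe : Eqv T := comp_eqv (proj_tr hPo) (opM_eqv f')
  have hrn := rank_nullity T hTe (harm_inv (opM D') (opM D'') (opM_eqv D') (opM_eqv D''))
    (harm_closed (opM D') (opM D''))
  have hker : harm (opM D') (opM D'') ⊓ LinearMap.ker (T : EE G d0 →ₗ[ℂ] EE G e0) = ⊥ := by
    rw [eq_bot_iff]
    rintro c ⟨hc, hc2⟩
    rw [Submodule.mem_bot]
    have hcD : opM D' c = 0 := hc.1
    have hco : c ∈ (LinearMap.range (opM D'' : EE G dm →ₗ[ℂ] EE G d0))ᗮ := hc.2
    have h4 : Pᗮ.starProjection (opM f' c) = 0 := hc2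
    have h5 : opM f' c ∈ P.topologicalClosure := by
      rw [Submodule.starProjection_apply_eq_zero_iff] at h4
      rwa [Submodule.orthogonal_orthogonal_eq_closure] at h4
    have h6 : opM f (opM f' c)
        ∈ (LinearMap.range (opM D'' : EE G dm →ₗ[ℂ] EE G d0)).topologicalClosure := by
      have hle : P.topologicalClosure ≤
          (LinearMap.range (opM D'' : EE G dm →ₗ[ℂ] EE G d0)).topologicalClosure.comap
            (opM f : EE G e0 →ₗ[ℂ] EE G d0) := by
        apply Submodule.topologicalClosure_minimal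
        · rintro _ ⟨x, rfl⟩
          apply Submodule.le_topologicalClosure
          refine ⟨opM fm x, ?_⟩
          change opM D'' (opM fm x) = opM f (opM E'' x)
          rw [← opM_mul_apply, ← opM_mul_apply, h2]
        · exact (Submodule.isClosed_topologicalClosure _).preimage (opM f).continuous
      exact hle h5
    have h7 : c = opM f (opM f' c) + opM D'' (opM hm c) := by
      have h8 : opM (1 : Matrix d0 d0 (MonoidAlgebra ℂ G)) c
          = opM (f * f' + D'' * hm + h * D') c := by rw [← h1]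
      rw [opM_one_apply, opM_add_apply, opM_add_apply, opM_mul_apply, opM_mul_apply,
        opM_mul_apply, hcD, map_zero, add_zero] at h8
      exact h8
    have h9 : c ∈ (LinearMap.range (opM D'' : EE G dm →ₗ[ℂ] EE G d0)).topologicalClosure := by
      rw [h7]
      exact Submodule.add_mem _ h6 (Submodule.le_topologicalClosure _ ⟨_, rfl⟩)
    rw [← Submodule.orthogonal_closure] at hco
    exact inner_self_eq_zero.1 ((Submodule.mem_orthogonal _ _).1 hco c h9)
  have hmap : (harm (opM D') (opM D'')).map (T : EE G d0 →ₗ[ℂ] EE G e0)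
      ≤ harm (opM Km) (opM E'') := by
    rintro _ ⟨c, hc, rfl⟩
    have hcD : opM D' c = 0 := hc.1
    have h4 : opM Km (opM f' c) = 0 := by
      rw [← opM_mul_apply, h3, opM_mul_apply, hcD, map_zero]
    refine ⟨?_, Submodule.starProjection_apply_mem _ _⟩
    change opM Km (Pᗮ.starProjection (opM f' c)) = 0
    have hle : P.topologicalClosure ≤ LinearMap.ker (opM Km : EE G e0 →ₗ[ℂ] EE G k) := by
      apply Submodule.topologicalClosure_minimal _ _ (ContinuousLinearMap.isClosed_ker (opM Km))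
      rintro _ ⟨x, rfl⟩
      change opM Km (opM E'' x) = 0
      rw [← opM_mul_apply, h0, opM_zero_apply]
    have h5 : opM f' c - Pᗮ.starProjection (opM f' c) ∈ P.topologicalClosure := by
      rw [← Submodule.orthogonal_orthogonal_eq_closure]
      exact Submodule.sub_starProjection_mem_orthogonal _
    have h6 : opM Km (opM f' c - Pᗮ.starProjection (opM f' c)) = 0 := hle h5
    rw [map_sub, h4, zero_sub, neg_eq_zero] at h6
    exact h6
  rw [hker, vd_bot, zero_add] at hrn
  rw [hrn]
  exact vd_mono hmap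

/-- The Betti number is at most the dimension of the kernel of `1 - Z`. -/
theorem harm_le_ker (E'' : Matrix e0 em (MonoidAlgebra ℂ G)) (Km : Matrix k e0 (MonoidAlgebra ℂ G))
    (N : Matrix e0 e0 (MonoidAlgebra ℂ G)) (H : Matrix em e0 (MonoidAlgebra ℂ G))
    (L : Matrix e0 k (MonoidAlgebra ℂ G))
    (h0 : Km * E'' = 0) (h1 : N = E'' * H + L * Km) :
    vd (harm (opM Km) (opM E'')) ≤ vd (LinearMap.ker (opM N : EE G e0 →ₗ[ℂ] EE G e0)) := by
  have hE : ∀ F, opM Km (opM E'' F) = 0 := by
    intro F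
    rw [← opM_mul_apply, h0, opM_zero_apply]
  have h2 := vd_harm_eq (opM Km) (opM E'') (opM_eqv E'') hE
  have h3 := ker_add_range (opM E'') (opM_eqv E'')
  have h4 := rank_nullity (opM N) (opM_eqv N) (inv_ker (opM Km) (opM_eqv Km))
    (ContinuousLinearMap.isClosed_ker (opM Km))
  have h5 : (LinearMap.ker (opM Km : EE G e0 →ₗ[ℂ] EE G k)).map
      (opM N : EE G e0 →ₗ[ℂ] EE G e0) ≤ LinearMap.range (opM E'' : EE G em →ₗ[ℂ] EE G e0) := by
    rintro _ ⟨c, hc, rfl⟩
    have hc' : opM Km c = 0 := hc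
    refine ⟨opM H c, ?_⟩
    change opM E'' (opM H c) = opM N c
    rw [h1, opM_add_apply, opM_mul_apply, opM_mul_apply, hc', map_zero, add_zero]
  have h6 := vd_mono h5
  have h7 : vd (LinearMap.ker (opM Km : EE G e0 →ₗ[ℂ] EE G k)
      ⊓ LinearMap.ker (opM N : EE G e0 →ₗ[ℂ] EE G e0))
      ≤ vd (LinearMap.ker (opM N : EE G e0 →ₗ[ℂ] EE G e0)) := vd_mono inf_le_right
  linarith

end

end Run7.h31.Raise
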