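import Pool.Agent.Run7.h31.Raise.Relative

set_option autoImplicit false
set_option linter.unusedSectionVars false

open scoped Matrix Pointwise

/-! Cochains which are raised. -/

namespace Run7.h31.Raise

open Pool.Agent.W649.ZL Pool.Agent.N309.LO Pool.Agent.N309.PD
open Pool.Agent.Results.MP_984acc_gt.OrderRaising

universe u v w z

/-- The `j`-th basis cochain of the free right module of the column vectors with `k` entries has the
height `w j`, and its right translate by `g` the height `g⁻¹ • w j`. All translates of basis cochains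
which occur in `v` have heights at least `x`. -/
def CoHeightsAtLeast {G : Type u} [Group G] {X : Type v} [MulAction G X] [LinearOrder X] {k : ℕ}
    (w : Fin k → X) (x : X) (v : Fin k → MonoidAlgebra ℂ G) : Prop :=
  ∀ j, ∀ g ∈ (v j).coeff.support, x ≤ g⁻¹ • w j

/-- All translates of basis cochains which occur in `v` have heights more than `x`. -/
def CoHeightsMoreThan {G : Type u} [Group G] {X : Type v} [MulAction G X] [LinearOrder X] {k : ℕ}
    (w : Fin k → X) (x : X) (v : Fin k → MonoidAlgebra ℂ G) : Prop :=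
  ∀ j, ∀ g ∈ (v j).coeff.support, x < g⁻¹ • w j

/-- The endomorphism of the module of degree `i` with the matrix `Z` is homotopic to the identity:
`1 - Z` is the sum of two products with the boundary operators (of one product if `i = 0`). The
same condition means that the endomorphism of the cochains with the matrix `Z` is homotopic to the
identity. -/
def IsHomotopicToOne {G : Type u} [Group G] {r : ℕ → ℕ} (D : Matrices G r) :
    (i : ℕ) → Matrix (Fin (r i)) (Fin (r i)) (MonoidAlgebra ℂ G) → Prop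
  | 0, Z => ∃ K : Matrix (Fin (r 0)) (Fin (r 1)) (MonoidAlgebra ℂ G), 1 - Z = K * D 0
  | (i + 1), Z => ∃ (K : Matrix (Fin (r (i + 1))) (Fin (r (i + 2))) (MonoidAlgebra ℂ G))
      (L : Matrix (Fin (r i)) (Fin (r (i + 1))) (MonoidAlgebra ℂ G)),
      1 - Z = K * D (i + 1) + D i * L

/-- The basis cochains have heights in the ordered `G`-set `X`. In the degrees at least `k` the
coboundary operators do not lower the heights, and for every `x` each cochain whose coboundary has
heights at least `x` is the sum of a coboundary and of a cochain of heights at least `x`. -/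
structure IsUpwardExact {G : Type u} [Group G] {X : Type v} [MulAction G X] [LinearOrder X] (k : ℕ)
    {r : ℕ → ℕ} (D : Matrices G r) (w : ∀ i, Fin (r i) → X) : Prop where
  heights : ∀ i, k ≤ i → ∀ j, CoHeightsAtLeast (w (i + 1)) (w i j) (fun l => D i l j)
  exact : ∀ i, k ≤ i + 1 → ∀ (x : X) (v : Fin (r (i + 1)) → MonoidAlgebra ℂ G),
    CoHeightsAtLeast (w (i + 2)) x (D (i + 1) *ᵥ v) →
    ∃ y : Fin (r i) → MonoidAlgebra ℂ G, CoHeightsAtLeast (w (i + 1)) x (v - D i *ᵥ y)

section
variable {G : Type u} [Group G] {X : Type v} [MulAction G X] [LinearOrder X]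

theorem abv_sig {k : ℕ} (w : Fin k → X) (x : X) (v : Fin k → MonoidAlgebra ℂ G) :
    Abv w x (fun j => sig (v j)) ↔ CoHeightsAtLeast w x v := by
  constructor
  · intro h j g hg
    apply h j g⁻¹
    rw [Finsupp.mem_support_iff] at hg ⊢
    rw [sig_coeff, inv_inv]
    intro h0
    exact hg ((map_eq_zero _).1 h0)
  · intro h j g hg
    have h1 : g⁻¹ ∈ (v j).coeff.support := by
      rw [Finsupp.mem_support_iff] at hg ⊢
      rw [sig_coeff] at hg
      intro h0
      exact hg (by rw [h0, map_zero])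
    have h2 := h j g⁻¹ h1
    rwa [inv_inv] at h2

theorem sig_sub (α β : MonoidAlgebra ℂ G) : sig (α - β) = sig α - sig β :=
  map_sub (sigH : MonoidAlgebra ℂ G →+ MonoidAlgebra ℂ G) α β

theorem vecMul_sub_sig {a b : ℕ} (M : Matrix (Fin b) (Fin a) (MonoidAlgebra ℂ G))
    (v : Fin b → MonoidAlgebra ℂ G) (y : Fin a → MonoidAlgebra ℂ G) :
    (fun j => sig (v j)) - (fun j => sig (y j)) ᵥ* adjM M = fun j => sig ((v - M *ᵥ y) j) := by
  rw [vecMul_adjM]
  funext j
  change sig (v j) - sig ((M *ᵥ fun l => sig (sig (y l))) j) = sig (v j - (M *ᵥ y) j)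
  rw [sig_sub]
  simp only [sig_sig]

theorem sig_surj {k : ℕ} (v : Fin k → MonoidAlgebra ℂ G) :
    ∃ v' : Fin k → MonoidAlgebra ℂ G, v = fun j => sig (v' j) :=
  ⟨fun j => sig (v j), by funext j; exact (sig_sig (v j)).symm⟩

theorem Dc_mono {r : ℕ → ℕ} (D : Matrices G r) (w : ∀ i, Fin (r i) → X) (a b : ℕ)
    (e : a = b + 1) (h : ∀ j, CoHeightsAtLeast (w (b + 1)) (w b j) (fun l => D b l j))
    (k : Fin (r b)) : Abv (w a) (w b k) (adjM (Dc D a b e) k) := by
  subst e
  exact (abv_sig _ _ _).2 (h k)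

theorem Dc_rel_zero {r : ℕ → ℕ} (D : Matrices G r) (w : ∀ i, Fin (r i) → X) (a b : ℕ)
    (e : a = b + 1) (h0 : r (b + 2) = 0)
    (h : ∀ (x : X) (v : Fin (r (b + 1)) → MonoidAlgebra ℂ G),
      CoHeightsAtLeast (w (b + 2)) x (D (b + 1) *ᵥ v) →
      ∃ y : Fin (r b) → MonoidAlgebra ℂ G, CoHeightsAtLeast (w (b + 1)) x (v - D b *ᵥ y))
    (x : X) (v : Fin (r a) → MonoidAlgebra ℂ G) :
    ∃ y : Fin (r b) → MonoidAlgebra ℂ G, Abv (w a) x (v - y ᵥ* adjM (Dc D a b e)) := by
  subst e
  obtain ⟨v', rfl⟩ := sig_surj v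
  obtain ⟨y, hy⟩ := h x v' (by
    intro j
    have := j.2
    omega)
  refine ⟨fun j => sig (y j), ?_⟩
  rw [Dc_rfl, vecMul_sub_sig, abv_sig]
  exact hy

theorem Dc_rel_succ {r : ℕ → ℕ} (D : Matrices G r) (w : ∀ i, Fin (r i) → X) (a b c : ℕ)
    (e : a = b + 1) (e' : b = c + 1)
    (h : ∀ (x : X) (v : Fin (r (c + 1)) → MonoidAlgebra ℂ G),
      CoHeightsAtLeast (w (c + 2)) x (D (c + 1) *ᵥ v) →
      ∃ y : Fin (r c) → MonoidAlgebra ℂ G, CoHeightsAtLeast (w (c + 1)) x (v - D c *ᵥ y))
    (x : X) (v : Fin (r b) → MonoidAlgebra ℂ G) (hv : Abv (w a) x (v ᵥ* adjM (Dc D a b e))) :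
    ∃ y : Fin (r c) → MonoidAlgebra ℂ G, Abv (w b) x (v - y ᵥ* adjM (Dc D b c e')) := by
  subst e'
  subst e
  obtain ⟨v', rfl⟩ := sig_surj v
  obtain ⟨y, hy⟩ := h x v' (by
    rw [Dc_rfl, vecMul_adjM, abv_sig] at hv
    simp only [sig_sig] at hv
    exact hv)
  refine ⟨fun j => sig (y j), ?_⟩
  rw [Dc_rfl, vecMul_sub_sig, abv_sig]
  exact hy

theorem co_vanish [NoMaxOrder X] (hX : OrdInv G X) {r : ℕ → ℕ} (D : Matrices G r)
    (hc : ∀ i, D (i + 1) * D i = 0) (N : ℕ) (hN : ∀ i, N < i → r i = 0) (w : ∀ i, Fin (r i) → X)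
    (k : ℕ) (hk : 1 ≤ k) (h : IsUpwardExact k D w) (i : ℕ) (hi : k ≤ i) : betti D i = 0 := by
  apply le_antisymm _ (betti_nonneg D i)
  rcases Nat.lt_or_ge N i with h1 | h1
  · unfold betti
    apply le_of_eq
    apply Finset.sum_eq_zero
    intro j _
    have h3 := j.2
    have h4 := hN i h1
    omega
  · have e : ∀ j (hj : j < N), dualD D N j = adjM (Dc D (N - j) (N - (j + 1)) (by omega)) := by
      intro j hj
      unfold dualD
      rw [dif_pos hj]
    have hrel : RelUpper (N - k) (q := fun i => r (N - i)) (dualD D N)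
        (fun i => w (N - i)) := by
      constructor
      · intro j hj l
        rw [e j (by omega)]
        apply Dc_mono
        apply h.heights
        omega
      · intro x v
        rw [e 0 (by omega)]
        apply Dc_rel_zero
        · apply hN
          omega
        · apply h.exact
          omega
      · intro j hj x v hv
        rw [e j (by omega)] at hv
        rw [e (j + 1) (by omega)]
        refine Dc_rel_succ D w _ _ _ _ _ ?_ x v hv
        apply h.exact
        omega
    have h2 := rel_vanish hX (q := fun i => r (N - i)) (dualD D N) (fun i => w (N - i)) (N - k)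
      (by
        intro j hj
        rw [e j (by omega), e (j + 1) (by omega)]
        exact Dc_comp D (N - j) (N - (j + 1)) (N - (j + 1 + 1)) _ _ (hc _)) hrel (N - i) (by omega)
    rw [dual_bet D N (N - i) (hN _ (Nat.lt_succ_self N)) (by omega), Nat.sub_sub_self h1] at h2
    exact h2

theorem adjM_one_sub {n : ℕ} (Z : Matrix (Fin n) (Fin n) (MonoidAlgebra ℂ G)) :
    adjM (1 - Z) = 1 - adjM Z := by
  funext i j
  change sig ((1 : Matrix (Fin n) (Fin n) (MonoidAlgebra ℂ G)) j i - Z j i)
    = (1 : Matrix (Fin n) (Fin n) (MonoidAlgebra ℂ G)) i j - sig (Z j i)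
  rw [sig_sub]
  congr 1
  rw [Matrix.one_apply, Matrix.one_apply]
  by_cases h : i = j
  · rw [if_pos h, if_pos h.symm]
    apply MonoidAlgebra.coeff_injective
    ext g
    rw [sig_coeff, MonoidAlgebra.one_def, MonoidAlgebra.coeff_single]
    classical
    rw [Finsupp.single_apply, Finsupp.single_apply]
    by_cases hg : (1 : G) = g
    · rw [if_pos hg, if_pos (by rw [← hg, inv_one]), map_one]
    · rw [if_neg hg, if_neg (fun h' => hg (by rw [← inv_inv g, ← h', inv_one])), map_zero]
  · rw [if_neg h, if_neg (fun h' => h h'.symm), sig_zero]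

theorem betti_le_ker {r : ℕ → ℕ} (D : Matrices G r) (hc : ∀ i, D (i + 1) * D i = 0) (i : ℕ)
    (Z : Matrix (Fin (r i)) (Fin (r i)) (MonoidAlgebra ℂ G)) (h : IsHomotopicToOne D i Z) :
    betti D i ≤ vd (LinearMap.ker (opM (1 - Z) : EE G (Fin (r i)) →ₗ[ℂ] EE G (Fin (r i)))) := by
  rw [betti_bet]
  rcases i with _ | i
  · obtain ⟨K, hK⟩ := h
    exact bet_le_zero D _ K hK
  · obtain ⟨K, L, hKL⟩ := h
    exact bet_le_succ D i (hc i) _ K L hKL

theorem raised_bound (hX : OrdInv G X) {r : ℕ → ℕ} (D : Matrices G r)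
    (hc : ∀ i, D (i + 1) * D i = 0) (i : ℕ)
    (Z : Matrix (Fin (r i)) (Fin (r i)) (MonoidAlgebra ℂ G)) (h : IsHomotopicToOne D i Z)
    (w : Fin (r i) → X) (T : Finset (Fin (r i)))
    (hT : ∀ j, j ∉ T → HeightsMoreThan w (w j) (Z j)) : betti D i ≤ T.card :=
  (betti_le_ker D hc i Z h).trans (raise_bound hX w Z T hT)

theorem coraised_bound (hX : OrdInv G X) {r : ℕ → ℕ} (D : Matrices G r)
    (hc : ∀ i, D (i + 1) * D i = 0) (i : ℕ)
    (Z : Matrix (Fin (r i)) (Fin (r i)) (MonoidAlgebra ℂ G)) (h : IsHomotopicToOne D i Z)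
    (w : Fin (r i) → X) (T : Finset (Fin (r i)))
    (hT : ∀ j, j ∉ T → CoHeightsMoreThan w (w j) (fun l => Z l j)) : betti D i ≤ T.card := by
  refine (betti_le_ker D hc i Z h).trans ?_
  rw [← adj_ker, adjM_one_sub]
  apply raise_bound hX w (adjM Z) T
  intro j hj l g hg
  have h1 : g⁻¹ ∈ (Z l j).coeff.support := by
    rw [Finsupp.mem_support_iff] at hg ⊢
    intro h0
    apply hg
    change (sig (Z l j)).coeff g = 0
    rw [sig_coeff, h0, map_zero]
  have h2 := hT j hj l g⁻¹ h1
  rwa [inv_inv] at h2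

end

end Run7.h31.Raise
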