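import Pool.Agent.Run7.h31.Raise.Lift
import Pool.Agent.Run7.h31.Raise.Bound

set_option autoImplicit false
set_option linter.unusedSectionVars false

open scoped InnerProductSpace InnerProduct ENNReal
open scoped Matrix

/-! The Betti number of a resolution is at most the dimension of the kernel of `1 - Z`. -/

namespace Run7.h31.Raise

open Pool.Agent.W649.ZL Pool.Agent.N309.LO Pool.Agent.N309.PD

universe u v w z

section
variable {G : Type u} [Group G] {χ : G →* ℂ}

/-- the Betti numbers of a complex of matrices -/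
noncomputable def bet {r : ℕ → ℕ} (D : Mats G r) : ℕ → ℝ
  | 0 => vd (LinearMap.ker (opM (D 0) : EE G (Fin (r 0)) →ₗ[ℂ] EE G (Fin (r (0 + 1)))))
  | (i + 1) => vd (harm (opM (D (i + 1))) (opM (D i)))

/-- chain endomorphisms which lift the identity -/
structure LiftId {q : ℕ → ℕ} (m : ℕ) (E : Mats G q)
    (ψ : (Fin (q 0) → MonoidAlgebra ℂ G) →ₗ[ℂ] ℂ)
    (Z : ∀ i, Matrix (Fin (q i)) (Fin (q i)) (MonoidAlgebra ℂ G)) : Prop where
  zero : ∀ x, ψ (x ᵥ* Z 0) = ψ x
  comm : ∀ i, i + 1 ≤ m → E i * Z i = Z (i + 1) * E i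

theorem range_zero_orth {J : Type*} [Fintype J] [DecidableEq J] :
    (LinearMap.range (opM (0 : Matrix J (Fin 0) (MonoidAlgebra ℂ G)) :
      EE G (Fin 0) →ₗ[ℂ] EE G J))ᗮ = ⊤ := by
  rw [eq_top_iff]
  intro x _
  rw [Submodule.mem_orthogonal]
  rintro _ ⟨y, rfl⟩
  have h : (opM (0 : Matrix J (Fin 0) (MonoidAlgebra ℂ G)) :
      EE G (Fin 0) →ₗ[ℂ] EE G J) y = 0 := opM_zero_apply y
  rw [h, inner_zero_left]

theorem harm_zero {I J : Type*} [Fintype J] [DecidableEq J] [Fintype I] [DecidableEq I]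
    (A : EE G J →L[ℂ] EE G I) :
    harm A (opM (0 : Matrix J (Fin 0) (MonoidAlgebra ℂ G))) = LinearMap.ker (A : EE G J →ₗ[ℂ] EE G I) := by
  unfold harm
  rw [range_zero_orth, inf_top_eq]

theorem core {r q : ℕ → ℕ} (D : Mats G r) (E : Mats G q)
    (φ : (Fin (r 0) → MonoidAlgebra ℂ G) →ₗ[ℂ] ℂ) (ψ : (Fin (q 0) → MonoidAlgebra ℂ G) →ₗ[ℂ] ℂ)
    (hφ : HasChar χ φ) (hψ : HasChar χ ψ) (hφ0 : φ ≠ 0) (hψ0 : ψ ≠ 0) (m : ℕ)
    (hDc : CompUpTo (m + 1) D φ) (hDe : ExactUpTo (m + 1) D φ)
    (hEc : CompUpTo m E ψ) (hEe : ExactUpTo m E ψ)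
    (Z : ∀ i, Matrix (Fin (q i)) (Fin (q i)) (MonoidAlgebra ℂ G)) (hZ : LiftId m E ψ Z) :
    bet D m ≤ vd (LinearMap.ker (opM (1 - Z m) : EE G (Fin (q m)) →ₗ[ℂ] EE G (Fin (q m)))) := by
  have hDc' : CompUpTo m D φ := ⟨fun h => hDc.zero (by omega), fun i h => hDc.succ i (by omega)⟩
  have hDe' : ExactUpTo m D φ := ⟨fun h => hDe.zero (by omega), fun i h => hDe.succ i (by omega)⟩
  obtain ⟨f, hf0, hf⟩ := exists_lift D E φ ψ hφ hψ hψ0 m hDc' hEe
  obtain ⟨f', hf0', hf'⟩ := exists_lift E D ψ φ hψ hφ hφ0 m hEc hDe'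
  obtain ⟨h, h0, h1⟩ := exists_homotopy D D φ φ m (m + 1) le_rfl hDc' hDe
    (fun i => 1 - f i * f' i) (by
      intro x
      rw [Matrix.vecMul_sub, Matrix.vecMul_one, map_sub, ← Matrix.vecMul_vecMul, hf0', hf0,
        sub_self]) (by
      intro i hi
      rw [Matrix.mul_sub, Matrix.sub_mul, Matrix.mul_one, Matrix.one_mul, ← Matrix.mul_assoc,
        hf i hi, Matrix.mul_assoc, hf' i hi, Matrix.mul_assoc])
  obtain ⟨H, H0, H1⟩ := exists_homotopy E E ψ ψ m m (by omega) hEc hEe
    (fun i => 1 - Z i) (by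
      intro x
      rw [Matrix.vecMul_sub, Matrix.vecMul_one, map_sub, hZ.zero, sub_self]) (by
      intro i hi
      rw [Matrix.mul_sub, Matrix.sub_mul, Matrix.mul_one, Matrix.one_mul, hZ.comm i hi])
  rcases m with _ | k
  · have e1 : bet D 0 = vd (harm (opM (D 0))
        (opM (0 : Matrix (Fin (r 0)) (Fin 0) (MonoidAlgebra ℂ G)))) := by
      rw [harm_zero]
      rfl
    rw [e1]
    obtain ⟨U, hU⟩ : ∃ U : Matrix (Fin (q 0)) (Fin (r (0 + 1))) (MonoidAlgebra ℂ G),
        U * D 0 = (1 - Z 0) * f' 0 := by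
      apply exists_row
      intro j
      apply hDe.zero (by omega)
      have e2 : ((1 - Z 0) * f' 0 : Matrix (Fin (q 0)) (Fin (r 0)) (MonoidAlgebra ℂ G)) j
          = ((Pi.single j 1 : Fin (q 0) → MonoidAlgebra ℂ G) ᵥ* (1 - Z 0)) ᵥ* f' 0 := by
        rw [Matrix.vecMul_vecMul, single_vecMul]
      rw [e2, hf0', Matrix.vecMul_sub, Matrix.vecMul_one, map_sub, hZ.zero, sub_self]
    refine (transfer (D 0) 0 (0 : Matrix (Fin (q 0)) (Fin 0) (MonoidAlgebra ℂ G)) (1 - Z 0) (f 0) 0
      (f' 0) (h 0) 0 U ?_ ?_ ?_ hU.symm).trans ?_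
    · rw [Matrix.mul_zero]
    · have e3 := h0 (by omega)
      rw [Matrix.zero_mul, add_zero, ← e3]
      abel
    · rw [Matrix.zero_mul, Matrix.mul_zero]
    · apply harm_le_ker 0 (1 - Z 0) (1 - Z 0) 0 1
      · rw [Matrix.mul_zero]
      · rw [Matrix.zero_mul, zero_add, Matrix.one_mul]
  · change vd (harm (opM (D (k + 1))) (opM (D k))) ≤ _
    have hK : ((1 - Z (k + 1)) - E k * H k) * E k = 0 := by
      rw [Matrix.sub_mul, Matrix.sub_mul, Matrix.one_mul, ← hZ.comm k (by omega)]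
      have e4 : E k - E k * Z k - E k * H k * E k = E k * ((1 - Z k) - H k * E k) := by
        rw [Matrix.mul_sub, Matrix.mul_sub, Matrix.mul_one, Matrix.mul_assoc]
      rw [e4]
      rcases k with _ | l
      · rw [H0 (by omega), sub_self, Matrix.mul_zero]
      · rw [H1 l (by omega), add_sub_cancel_right, ← Matrix.mul_assoc, hEc.succ l (by omega),
          Matrix.zero_mul]
    obtain ⟨U, hU⟩ : ∃ U : Matrix (Fin (q (k + 1))) (Fin (r (k + 1 + 1))) (MonoidAlgebra ℂ G),
        U * D (k + 1) = ((1 - Z (k + 1)) - E k * H k) * f' (k + 1) := by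
      apply exists_row
      intro j
      apply hDe.succ k (by omega)
      have e5 : (((1 - Z (k + 1)) - E k * H k) * f' (k + 1)) * D k = 0 := by
        rw [Matrix.mul_assoc, ← hf' k (by omega), ← Matrix.mul_assoc, hK, Matrix.zero_mul]
      exact congrFun e5 j
    refine (transfer (D (k + 1)) (D k) (E k) ((1 - Z (k + 1)) - E k * H k) (f (k + 1)) (f k)
      (f' (k + 1)) (h (k + 1)) (h k) U hK ?_ (hf k (by omega)) hU.symm).trans ?_
    · have e6 := h1 k (by omega)
      rw [add_assoc, ← e6]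
      abel
    · apply harm_le_ker (E k) ((1 - Z (k + 1)) - E k * H k) (1 - Z (k + 1)) (H k) 1 hK
      rw [Matrix.one_mul]
      abel

end

section
variable {G : Type u} [Group G] {X : Type v} [MulAction G X] [LinearOrder X]
variable {J : Type*} [Fintype J] [DecidableEq J]

theorem raise_bound (hX : OrdInv G X) (w : J → X) (Z : Matrix J J (MonoidAlgebra ℂ G))
    (T : Finset J)
    (hT : ∀ j, j ∉ T → ∀ j', ∀ g ∈ (Z j j').coeff.support, w j < g • w j') :
    vd (LinearMap.ker (opM (1 - Z) : EE G J →ₗ[ℂ] EE G J)) ≤ T.card := by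
  classical
  let A : Matrix {j : J // j ∉ T} J (MonoidAlgebra ℂ G) := fun i j => (1 - Z) i.1 j
  let B : Matrix {j : J // j ∉ T} J (MonoidAlgebra ℂ G) :=
    fun i j => (1 : Matrix J J (MonoidAlgebra ℂ G)) i.1 j
  have h1 : LinearMap.ker (opM (1 - Z) : EE G J →ₗ[ℂ] EE G J)
      ≤ LinearMap.ker (opM A : EE G J →ₗ[ℂ] EE G {j : J // j ∉ T}) := by
    intro F hF
    have hF' : opM (1 - Z) F = 0 := hF
    change opM A F = 0
    rw [opM_eq_zero] at hF' ⊢
    intro i
    exact hF' i.1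
  have h2 : vd (LinearMap.ker (opM A : EE G J →ₗ[ℂ] EE G {j : J // j ∉ T}))
      ≤ vd (LinearMap.ker (opM B : EE G J →ₗ[ℂ] EE G {j : J // j ∉ T})) := by
    have hA : ∀ (i : {j : J // j ∉ T}) (j : J) (t : G), (A i j).coeff t
        = (B i j).coeff t - (Z i.1 j).coeff t := by
      intro i j t
      change ((1 - Z) i.1 j).coeff t = _
      rw [Matrix.sub_apply, MonoidAlgebra.coeff_sub, Finsupp.sub_apply]
    have hB : ∀ (i : {j : J // j ∉ T}) (j : J) (t : G), (B i j).coeff t ≠ 0 → w i.1 = t • w j := by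
      intro i j t ht
      have e : B i j = (1 : Matrix J J (MonoidAlgebra ℂ G)) i.1 j := rfl
      rw [e, Matrix.one_apply] at ht
      by_cases h : i.1 = j
      · rw [if_pos h, MonoidAlgebra.one_def, MonoidAlgebra.coeff_single, Finsupp.single_apply] at ht
        by_cases h3 : (1 : G) = t
        · rw [← h3, one_smul, h]
        · rw [if_neg h3] at ht
          exact absurd rfl ht
      · rw [if_neg h] at ht
        exact absurd rfl ht
    have hZ : ∀ (i : {j : J // j ∉ T}) (j : J) (t : G), (Z i.1 j).coeff t ≠ 0 → w i.1 < t • w j := by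
      intro i j t ht
      exact hT i.1 i.2 j t (Finsupp.mem_support_iff.2 ht)
    apply level_le hX w (fun i : {j : J // j ∉ T} => w i.1) (opM A) (opM B) (opM_eqv A) (opM_eqv B)
    · intro j t i hne
      rw [opM_dl, inv_one, mul_one, hA] at hne
      by_cases h : (B i j).coeff t = 0
      · rw [h, zero_sub, neg_ne_zero] at hne
        exact (hZ i j t hne).le
      · exact (hB i j t h).le
    · intro j t i he
      rw [opM_dl, opM_dl, inv_one, mul_one, hA]
      have h3 : (Z i.1 j).coeff t = 0 := by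
        by_contra h
        exact absurd he (hZ i j t h).ne
      rw [h3, sub_zero]
    · intro j t i he
      rw [opM_dl, inv_one, mul_one]
      by_contra h
      exact he (hB i j t h)
  have h3 := vd_ker_le (opM B) (opM_eqv B) (Finset.univ \ T) (by
    intro F hF hF2
    rw [opM_eq_zero] at hF
    apply ext_cmp
    intro j
    rw [map_zero]
    by_cases hj : j ∈ T
    · apply ext_unit
      intro x
      rw [cmp_apply, hF2 (x, j) (by simp [hj])]
      rfl
    · have h4 := hF ⟨j, hj⟩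
      have e : B ⟨j, hj⟩ = Pi.single j 1 := by
        funext k
        change (1 : Matrix J J (MonoidAlgebra ℂ G)) j k = _
        rw [Matrix.one_apply, Pi.single_apply]
        by_cases h : j = k
        · rw [if_pos h, if_pos h.symm]
        · rw [if_neg h, if_neg (fun h' => h h'.symm)]
      rw [e, pr_single, map_one] at h4
      exact h4)
  have h5 : ((Fintype.card J : ℕ) : ℝ) - ((Finset.univ \ T).card : ℕ) = (T.card : ℝ) := by
    have h6 : (Finset.univ \ T).card + T.card = Fintype.card J := by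
      rw [Finset.card_sdiff_add_card_eq_card (Finset.subset_univ T), Finset.card_univ]
    rw [← h6]
    push_cast
    ring
  rw [h5] at h3
  exact (vd_mono h1).trans (h2.trans h3)

end

end Run7.h31.Raise
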