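import Pool.Agent.Run7.h31.Raise.IndexBetti

set_option autoImplicit false
set_option linter.unusedSectionVars false

open scoped Matrix

/-! Raising endomorphisms over subgroups of finite index. -/

namespace Run7.h31.Raise

open Pool.Agent.Results.MP_984acc_gt.OrderRaising

universe u v w

/-- The group `G` is raised in degree `m` with density at most `ε`: for every `δ > ε` there is a
subgroup `H` of finite index such that `H` is raised in degree `m` with at most `δ [G : H]`
exceptions. The ordered set, the resolution and the endomorphism of `H` are arbitrary. -/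
def RaisedWithDensity (G : Type u) [Group G] (m : ℕ) (ε : ℝ) : Prop :=
  ∀ δ : ℝ, ε < δ → ∃ (H : Subgroup G) (c : ℕ), H.FiniteIndex ∧ IsRaised.{u, v} H m c ∧
    (c : ℝ) ≤ δ * H.index

/-- A subgroup `H` of finite index has an order-preserving action on a nonempty totally ordered set
without greatest element and a complex of finitely generated free modules with heights in this set
whose upper subcomplexes are exact in the degrees less than `m`. -/
def VirtuallyUpperExact (G : Type u) [Group G] (m : ℕ) : Prop :=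
  ∃ H : Subgroup G, H.FiniteIndex ∧
    ∃ (X : Type v) (_ : LinearOrder X) (_ : MulAction H X) (_ : Nonempty X) (_ : NoMaxOrder X)
      (q : ℕ → ℕ) (E : Matrices H q) (a : Fin (q 0) → ℂ) (w : ∀ i, Fin (q i) → X),
      OrderInvariant H X ∧ IsUpperExact m E a w

/-- A nontrivial subgroup `H` of finite index has a left-invariant total order for which the monoid
`{g | 1 ≤ g}` is of type `FP_m` over `ℂ`. -/
def VirtuallyOrderedFP (G : Type u) [Group G] (m : ℕ) : Prop :=
  ∃ H : Subgroup G, H.FiniteIndex ∧ Nontrivial H ∧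
    ∃ (_ : LinearOrder H) (q : ℕ → ℕ) (E : Matrices H q) (a : Fin (q 0) → ℂ),
      (∀ g a b : H, a ≤ b → g * a ≤ g * b) ∧ IsMonoidResolution m E a

/-- The Euler characteristic of a complex of free modules of ranks `r 0, …, r n`. -/
def eulerChar (n : ℕ) (r : ℕ → ℕ) : ℤ := ∑ i ∈ Finset.range (n + 1), (-1) ^ i * (r i : ℤ)

section
variable {G : Type u} [Group G]

theorem trans_out (H : Subgroup G) : IsTrans H (fun q : G ⧸ H => q.out) := by
  intro g
  refine ⟨(g : G ⧸ H), ?_, ?_⟩
  · change ((g : G ⧸ H).out)⁻¹ * g ∈ H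
    rw [← QuotientGroup.eq]
    exact QuotientGroup.out_eq' _
  · intro q hq
    have hq' : (q.out)⁻¹ * g ∈ H := hq
    rw [← QuotientGroup.eq] at hq'
    rw [← hq']
    exact (QuotientGroup.out_eq' q).symm

theorem index_bound {n : ℕ} {r : ℕ → ℕ} (D : Matrices G r) (hD : IsDualityComplex n D)
    (H : Subgroup G) (hH : H.FiniteIndex) (m c : ℕ) (h : IsRaised.{u, v} H m c) :
    (H.index : ℝ) * betti D m ≤ c ∧ (m < n → (H.index : ℝ) * betti D (n - m) ≤ c) := by
  classical
  have : Fintype (G ⧸ H) := Fintype.ofFinite _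
  have : Nonempty (G ⧸ H) := ⟨((1 : G) : G ⧸ H)⟩
  have hcard : Fintype.card (G ⧸ H) = H.index := by
    rw [Subgroup.index_eq_card, Nat.card_eq_fintype_card]
  have hs := trans_out H
  let e : ∀ i, Fin (H.index * r i) ≃ (G ⧸ H) × Fin (r i) := fun i =>
    Fintype.equivOfCardEq (by
      rw [Fintype.card_fin, Fintype.card_prod, Fintype.card_fin, hcard])
  have hdual := res_duality (H := H) hs e n D hD
  have h1 := main (resD (H := H) e (fun q : G ⧸ H => q.out) D) hdual m c h
  rw [betti_res hs e, betti_res hs e, hcard] at h1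
  exact h1

theorem density_bound {n : ℕ} {r : ℕ → ℕ} (D : Matrices G r) (hD : IsDualityComplex n D) (m : ℕ)
    (ε : ℝ) (h : RaisedWithDensity.{u, v} G m ε) :
    betti D m ≤ ε ∧ (m < n → betti D (n - m) ≤ ε) := by
  constructor
  · apply le_of_forall_gt_imp_ge_of_dense
    intro δ hδ
    obtain ⟨H, c, hH, hR, hc⟩ := h δ hδ
    have h1 := (index_bound D hD H hH m c hR).1
    have h2 : (0 : ℝ) < H.index := by
      exact_mod_cast Nat.pos_of_ne_zero hH.index_ne_zero
    have h3 : (H.index : ℝ) * betti D m ≤ H.index * δ := by linarith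
    exact le_of_mul_le_mul_left h3 h2
  · intro hm
    apply le_of_forall_gt_imp_ge_of_dense
    intro δ hδ
    obtain ⟨H, c, hH, hR, hc⟩ := h δ hδ
    have h1 := (index_bound D hD H hH m c hR).2 hm
    have h2 : (0 : ℝ) < H.index := by
      exact_mod_cast Nat.pos_of_ne_zero hH.index_ne_zero
    have h3 : (H.index : ℝ) * betti D (n - m) ≤ H.index * δ := by linarith
    exact le_of_mul_le_mul_left h3 h2

theorem density_of_upper {m : ℕ} (h : VirtuallyUpperExact.{u, v} G m) :
    RaisedWithDensity.{u, v} G m 0 := by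
  obtain ⟨H, hH, X, _, _, _, _, q, E, a, w, hX, hE⟩ := h
  intro δ hδ
  refine ⟨H, 0, hH, raised_of_upper hX m E a w hE m le_rfl, ?_⟩
  rw [Nat.cast_zero]
  positivity

theorem density_of_ordered {m : ℕ} (h : VirtuallyOrderedFP.{u} G m) :
    RaisedWithDensity.{u, u} G m 0 := by
  obtain ⟨H, hH, _, _, q, E, a, hinv, hE⟩ := h
  have := no_max hinv
  intro δ hδ
  refine ⟨H, 0, hH, raised_of_upper (X := H) (fun g a b hab => hinv g a b hab) m E a _
    (upper_of_monoid hinv m E a hE) m le_rfl, ?_⟩
  rw [Nat.cast_zero]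
  positivity

theorem euler_cast {n : ℕ} {r : ℕ → ℕ} (D : Matrices G r) (hD : IsDualityComplex n D) :
    (eulerChar n r : ℝ) = ∑ i ∈ Finset.range (n + 1), (-1 : ℝ) ^ i * betti D i := by
  rw [euler D hD.comp n (hD.length _ (Nat.lt_succ_self n))]
  unfold eulerChar
  push_cast
  rfl

theorem ends_zero [Infinite G] {n : ℕ} {r : ℕ → ℕ} (D : Matrices G r)
    (hD : IsDualityComplex (2 * n) D) (hn : 0 < n) : betti D 0 = 0 ∧ betti D (2 * n) = 0 :=
  ⟨betti_zero_infinite D hD, betti_top_infinite D hD (by omega)⟩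

end

section real

/-- The degrees below the middle dimension `n` which are positive and of the parity other than
`n`. -/
def oddCo (n : ℕ) : Finset ℕ := (Finset.range n).filter fun m => 1 ≤ m ∧ Odd (n + m)

theorem odd_sum_le (b ε : ℕ → ℝ) (n : ℕ) (hb0 : 0 < n → b 0 = 0 ∧ b (2 * n) = 0)
    (h : ∀ m, 1 ≤ m → m < n → Odd (n + m) → b m ≤ ε m ∧ b (2 * n - m) ≤ ε m) :
    ∑ m ∈ (Finset.range n).filter (fun m => Odd (n + m)), (b m + b (2 * n - m))
      ≤ 2 * ∑ m ∈ oddCo n, ε m := by
  have h1 : ∑ m ∈ (Finset.range n).filter (fun m => Odd (n + m)), (b m + b (2 * n - m))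
      = ∑ m ∈ oddCo n, (b m + b (2 * n - m)) := by
    symm
    apply Finset.sum_subset
    · intro m hm
      simp only [oddCo, Finset.mem_filter, Finset.mem_range] at hm ⊢
      exact ⟨hm.1, hm.2.2⟩
    · intro m hm hm'
      simp only [oddCo, Finset.mem_filter, Finset.mem_range, not_and] at hm hm'
      have hm0 : m = 0 := by
        by_contra hne
        exact hm' hm.1 (by omega) hm.2
      subst hm0
      rw [Nat.sub_zero, (hb0 hm.1).1, (hb0 hm.1).2, add_zero]
  rw [h1, Finset.mul_sum]
  apply Finset.sum_le_sum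
  intro m hm
  simp only [oddCo, Finset.mem_filter, Finset.mem_range] at hm
  have := h m hm.2.1 hm.1 hm.2.2
  linarith [this.1, this.2]

theorem parity_split (f : ℕ → ℝ) (n : ℕ) :
    ∑ m ∈ Finset.range n, (-1) ^ (n + m) * f m
      = ∑ m ∈ (Finset.range n).filter (fun m => ¬ Odd (n + m)), f m
        - ∑ m ∈ (Finset.range n).filter (fun m => Odd (n + m)), f m := by
  rw [← Finset.sum_filter_add_sum_filter_not (Finset.range n) (fun m => Odd (n + m))
    (fun m => (-1 : ℝ) ^ (n + m) * f m)]
  have h1 : ∑ m ∈ (Finset.range n).filter (fun m => Odd (n + m)), (-1 : ℝ) ^ (n + m) * f m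
      = - ∑ m ∈ (Finset.range n).filter (fun m => Odd (n + m)), f m := by
    rw [← Finset.sum_neg_distrib]
    refine Finset.sum_congr rfl fun m hm => ?_
    rw [(Finset.mem_filter.1 hm).2.neg_one_pow]
    ring
  have h2 : ∑ m ∈ (Finset.range n).filter (fun m => ¬ Odd (n + m)), (-1 : ℝ) ^ (n + m) * f m
      = ∑ m ∈ (Finset.range n).filter (fun m => ¬ Odd (n + m)), f m := by
    refine Finset.sum_congr rfl fun m hm => ?_
    rw [(Nat.not_odd_iff_even.1 (Finset.mem_filter.1 hm).2).neg_one_pow, one_mul]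
  rw [h1, h2]
  ring

theorem sign_formula (b : ℕ → ℝ) (n : ℕ) :
    (-1) ^ n * ∑ i ∈ Finset.range (2 * n + 1), (-1 : ℝ) ^ i * b i
      = b n + ∑ m ∈ (Finset.range n).filter (fun m => ¬ Odd (n + m)), (b m + b (2 * n - m))
        - ∑ m ∈ (Finset.range n).filter (fun m => Odd (n + m)), (b m + b (2 * n - m)) := by
  rw [euler_pair, parity_split (fun m => b m + b (2 * n - m))]
  ring

theorem sum_formula (b : ℕ → ℝ) (n : ℕ) :
    ∑ i ∈ Finset.range (2 * n + 1), b i
      = b n + ∑ m ∈ (Finset.range n).filter (fun m => ¬ Odd (n + m)), (b m + b (2 * n - m))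
        + ∑ m ∈ (Finset.range n).filter (fun m => Odd (n + m)), (b m + b (2 * n - m)) := by
  rw [sum_pair, ← Finset.sum_filter_add_sum_filter_not (Finset.range n) (fun m => Odd (n + m))
    (fun m => b m + b (2 * n - m))]
  ring

end real

end Run7.h31.Raise
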