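import Pool.Agent.Results.MP_984acc_gt.OrderRaising

set_option autoImplicit false
set_option linter.unusedSectionVars false

open scoped InnerProductSpace InnerProduct ENNReal
open scoped Matrix

/-! The Euler-Poincaré formula for the Betti numbers, and the Betti number in degree zero. -/

namespace Run7.h31.Raise

open Pool.Agent.W649.ZL Pool.Agent.N309.LO Pool.Agent.N309.PD
open Pool.Agent.Results.MP_984acc_gt.OrderRaising

universe u v

section
variable {G : Type u} [Group G]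

/-- the dimension of the cocycles -/
noncomputable def kap {r : ℕ → ℕ} (D : Matrices G r) (i : ℕ) : ℝ :=
  vd (LinearMap.ker (opM (D i) : EE G (Fin (r i)) →ₗ[ℂ] EE G (Fin (r (i + 1)))))

theorem betti_zero_kap {r : ℕ → ℕ} (D : Matrices G r) : betti D 0 = kap D 0 :=
  betti_bet D 0

theorem betti_succ_kap {r : ℕ → ℕ} (D : Matrices G r) (i : ℕ) (h : D (i + 1) * D i = 0) :
    betti D (i + 1) = kap D (i + 1) + kap D i - r i := by
  rw [betti_bet]
  change vd (harm (opM (D (i + 1))) (opM (D i))) = _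
  rw [vd_harm_eq _ _ (opM_eqv (D i)) (fun F => by
    rw [← opM_mul_apply, h, opM_zero_apply]), Fintype.card_fin]
  rfl

theorem kap_top {r : ℕ → ℕ} (D : Matrices G r) (n : ℕ) (h : r (n + 1) = 0) :
    kap D n = r n := by
  have h1 : (LinearMap.ker (opM (D n) : EE G (Fin (r n)) →ₗ[ℂ] EE G (Fin (r (n + 1))))) = ⊤ := by
    rw [eq_top_iff]
    intro F _
    change opM (D n) F = 0
    ext ⟨g, j⟩
    have := j.2
    omega
  unfold kap
  rw [h1, vd_top, Fintype.card_fin]

theorem euler_partial {r : ℕ → ℕ} (D : Matrices G r) (hc : ∀ i, D (i + 1) * D i = 0) (k : ℕ) :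
    ∑ i ∈ Finset.range (k + 1), (-1 : ℝ) ^ i * betti D i
      = (-1) ^ k * kap D k + ∑ i ∈ Finset.range k, (-1 : ℝ) ^ i * r i := by
  induction k with
  | zero =>
    rw [Finset.sum_range_one, Finset.sum_range_zero, betti_zero_kap, add_zero]
  | succ k ih =>
    rw [Finset.sum_range_succ, ih, betti_succ_kap D k (hc k), Finset.sum_range_succ, pow_succ]
    ring

/-- the Euler-Poincaré formula -/
theorem euler {r : ℕ → ℕ} (D : Matrices G r) (hc : ∀ i, D (i + 1) * D i = 0) (n : ℕ)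
    (hn : r (n + 1) = 0) :
    ∑ i ∈ Finset.range (n + 1), (-1 : ℝ) ^ i * betti D i
      = ∑ i ∈ Finset.range (n + 1), (-1 : ℝ) ^ i * r i := by
  rw [euler_partial D hc n, kap_top D n hn, Finset.sum_range_succ]
  ring

theorem euler_pair (b : ℕ → ℝ) (n : ℕ) :
    (-1) ^ n * ∑ i ∈ Finset.range (2 * n + 1), (-1 : ℝ) ^ i * b i
      = b n + ∑ m ∈ Finset.range n, (-1) ^ (n + m) * (b m + b (2 * n - m)) := by
  have e1 : 2 * n + 1 = (n + 1) + n := by ring
  rw [e1, Finset.sum_range_add, Finset.sum_range_succ, mul_add, mul_add]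
  have h1 : ∑ x ∈ Finset.range n, (-1 : ℝ) ^ (n + 1 + x) * b (n + 1 + x)
      = ∑ m ∈ Finset.range n, (-1 : ℝ) ^ m * b (2 * n - m) := by
    rw [← Finset.sum_range_reflect]
    refine Finset.sum_congr rfl fun j hj => ?_
    have hj' := Finset.mem_range.1 hj
    have e2 : n + 1 + (n - 1 - j) = 2 * n - j := by omega
    rw [e2]
    congr 1
    have e3 : 2 * n - j + (j + j) = j + 2 * n := by omega
    have e4 : (-1 : ℝ) ^ (2 * n - j) * (-1) ^ (j + j) = (-1) ^ j * (-1) ^ (2 * n) := by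
      rw [← pow_add, ← pow_add, e3]
    rw [pow_mul, ← two_mul, pow_mul] at e4
    norm_num at e4
    exact e4
  rw [h1]
  have e5 : (-1 : ℝ) ^ n * ((-1) ^ n * b n) = b n := by
    rw [← mul_assoc, ← pow_add, ← two_mul, pow_mul]
    norm_num
  rw [e5, Finset.mul_sum, Finset.mul_sum, add_comm _ (b n), add_assoc, ← Finset.sum_add_distrib]
  congr 1
  refine Finset.sum_congr rfl fun m _ => ?_
  rw [pow_add]
  ring

theorem sum_pair (b : ℕ → ℝ) (n : ℕ) :
    ∑ i ∈ Finset.range (2 * n + 1), b i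
      = b n + ∑ m ∈ Finset.range n, (b m + b (2 * n - m)) := by
  have e1 : 2 * n + 1 = (n + 1) + n := by ring
  rw [e1, Finset.sum_range_add, Finset.sum_range_succ]
  have h1 : ∑ x ∈ Finset.range n, b (n + 1 + x) = ∑ m ∈ Finset.range n, b (2 * n - m) := by
    rw [← Finset.sum_range_reflect]
    refine Finset.sum_congr rfl fun j hj => ?_
    have hj' := Finset.mem_range.1 hj
    have e2 : n + 1 + (n - 1 - j) = 2 * n - j := by omega
    rw [e2]
  rw [h1, Finset.sum_add_distrib]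
  ring

theorem single_gsm {k : ℕ} (χ : G →* ℂ) (g : G) (j : Fin k) :
    (Pi.single j (MonoidAlgebra.single g 1 - MonoidAlgebra.single 1 (χ g)) :
      Fin k → MonoidAlgebra ℂ G)
      = gsm g (Pi.single j 1) + (-(χ g)) • (Pi.single j 1 : Fin k → MonoidAlgebra ℂ G) := by
  have e1 : (MonoidAlgebra.single (1 : G) (χ g)) = χ g • (1 : MonoidAlgebra ℂ G) := by
    rw [MonoidAlgebra.one_def, MonoidAlgebra.smul_single, smul_eq_mul, mul_one]
  funext i
  by_cases h : i = j
  · subst h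
    rw [Pi.single_eq_same, Pi.add_apply, Pi.smul_apply, Pi.single_eq_same, e1, neg_smul,
      ← sub_eq_add_neg]
    congr 1
    change _ = MonoidAlgebra.single g 1 * (Pi.single i 1 : Fin k → MonoidAlgebra ℂ G) i
    rw [Pi.single_eq_same, mul_one]
  · rw [Pi.single_eq_of_ne h, Pi.add_apply, Pi.smul_apply, Pi.single_eq_of_ne h, smul_zero,
      add_zero]
    change _ = MonoidAlgebra.single g 1 * (Pi.single j 1 : Fin k → MonoidAlgebra ℂ G) i
    rw [Pi.single_eq_of_ne h, mul_zero]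

theorem ker_bot_infinite [Infinite G] {k l : ℕ} (A : Matrix (Fin l) (Fin k) (MonoidAlgebra ℂ G))
    (φ : (Fin k → MonoidAlgebra ℂ G) →ₗ[ℂ] ℂ) (hφ0 : φ ≠ 0)
    (hφ : ∀ x, (∃ y, y ᵥ* A = x) ↔ φ x = 0) :
    LinearMap.ker (opM A : EE G (Fin k) →ₗ[ℂ] EE G (Fin l)) = ⊥ := by
  obtain ⟨χ, hχ⟩ := (aug_of hφ0 A hφ).exists_char
  rw [eq_bot_iff]
  intro F hF
  rw [Submodule.mem_bot]
  have hF' : opM A F = 0 := hF
  have key : ∀ (j : Fin k) (t g : G), F (t⁻¹ * g, j) = χ t * F (g, j) := by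
    intro j t g
    set x : Fin k → MonoidAlgebra ℂ G :=
      Pi.single j (MonoidAlgebra.single t 1 - MonoidAlgebra.single 1 (χ t)) with hx
    obtain ⟨y, hy⟩ := (hφ x).2 (by
      rw [hx, single_gsm, map_add, hχ, map_smul, smul_eq_mul]
      ring)
    have h1 : pr x F = 0 := by
      set Y : Matrix (Fin 1) (Fin l) (MonoidAlgebra ℂ G) := Matrix.of fun _ => y with hY
      have h2 : opM (Y * A) F = 0 := by
        rw [opM_mul_apply, hF', map_zero]
      rw [opM_eq_zero] at h2
      have h3 := h2 0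
      have e : (Y * A) 0 = x := hy
      rwa [e] at h3
    rw [hx, pr_single, map_sub] at h1
    have h4 : (Lam (MonoidAlgebra.single t (1 : ℂ)) (cmp j F) : EE G Unit) (g, ())
        - (Lam (MonoidAlgebra.single (1 : G) (χ t)) (cmp j F) : EE G Unit) (g, ()) = 0 := by
      have h5 : ((Lam (MonoidAlgebra.single t (1 : ℂ)) - Lam (MonoidAlgebra.single (1 : G) (χ t)))
        (cmp j F) : EE G Unit) (g, ()) = 0 := by
        rw [h1]
        rfl
      exact h5
    have h6 : ∀ (t : G) (c : ℂ), (Lam (MonoidAlgebra.single t c) (cmp j F) : EE G Unit) (g, ())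
        = c * F (t⁻¹ * g, j) := by
      intro t c
      rw [Lam_apply]
      change (MonoidAlgebra.single t c).coeff.sum (fun k c => c * (cmp j F) (k⁻¹ * g, ())) = _
      rw [MonoidAlgebra.coeff_single, Finsupp.sum_single_index (zero_mul _), cmp_apply]
    rw [h6, h6, inv_one, one_mul, one_mul, sub_eq_zero] at h4
    exact h4
  have hzero : ∀ j : Fin k, F (1, j) = 0 := by
    intro j
    by_contra hne
    have hs : Summable (fun x : G × Fin k => ‖F x‖ ^ 2) := (memlp_two_iff _).1 (lp.memℓp F)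
    have hs2 : Summable (fun g : G => ‖F (g, j)‖ ^ 2) :=
      hs.comp_injective (i := fun g : G => (g, j)) (fun a b hab => (Prod.ext_iff.1 hab).1)
    have hs3 : Summable (fun g : G => ‖F (g⁻¹, j)‖ ^ 2) :=
      hs2.comp_injective (i := fun g : G => g⁻¹) inv_injective
    have hval : ∀ g : G, F (g⁻¹, j) = χ g * F (1, j) := by
      intro g
      have := key j g 1
      rwa [mul_one] at this
    have hs4 : Summable (fun g : G => ‖F (g, j)‖ ^ 2 + ‖F (g⁻¹, j)‖ ^ 2) := hs2.add hs3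
    have hlow : ∀ g : G, ‖F (1, j)‖ ^ 2 ≤ ‖F (g, j)‖ ^ 2 + ‖F (g⁻¹, j)‖ ^ 2 := by
      intro g
      have h1 : F (g, j) = χ g⁻¹ * F (1, j) := by
        have := hval g⁻¹
        rwa [inv_inv] at this
      have h2 : ‖χ g⁻¹‖ * ‖χ g‖ = 1 := by
        rw [← norm_mul, ← map_mul, inv_mul_cancel, map_one, norm_one]
      rw [h1, hval g, norm_mul, norm_mul, mul_pow, mul_pow, ← add_mul]
      have h3 : (1 : ℝ) ≤ ‖χ g⁻¹‖ ^ 2 + ‖χ g‖ ^ 2 := by
        nlinarith [sq_nonneg (‖χ g⁻¹‖ - ‖χ g‖)]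
      nlinarith [sq_nonneg ‖F (1, j)‖]
    have hs5 : Summable (fun _ : G => ‖F (1, j)‖ ^ 2) :=
      Summable.of_nonneg_of_le (fun _ => by positivity) hlow hs4
    rw [summable_const_iff] at hs5
    exact hne (norm_eq_zero.1 ((pow_eq_zero_iff two_ne_zero).1 hs5))
  ext ⟨g, j⟩
  have h1 := key j g⁻¹ 1
  rw [inv_inv, mul_one, hzero, mul_zero] at h1
  rw [h1]
  rfl

/-- The Betti number of an infinite group vanishes in degree zero. -/
theorem betti_zero_infinite [Infinite G] {n : ℕ} {r : ℕ → ℕ} (D : Matrices G r)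
    (hD : IsDualityComplex n D) : betti D 0 = 0 := by
  obtain ⟨a, ha0, ha⟩ := hD.augmentation
  rw [betti_zero_kap]
  unfold kap
  rw [ker_bot_infinite (D 0) (augF a) (augF_ne a ha0) (fun x => by rw [ha, augF_sum]), vd_bot]

/-- The Betti number of an infinite duality group vanishes in the top degree. -/
theorem betti_top_infinite [Infinite G] {n : ℕ} {r : ℕ → ℕ} (D : Matrices G r)
    (hD : IsDualityComplex n D) (hn : 0 < n) : betti D n = 0 := by
  have h1 := dual_bet D n 0 (hD.length _ (Nat.lt_succ_self n)) hn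
  rw [Nat.sub_zero] at h1
  rw [← h1]
  obtain ⟨φ, hφ0, hφ⟩ := Dc_coaug D (n - 0) (n - (0 + 1)) (by omega)
    (hD.coaugmentation _ (by omega))
  have e : dualD D n 0 = adjM (Dc D (n - 0) (n - (0 + 1)) (by omega)) := by
    unfold dualD
    rw [dif_pos hn]
  change vd (LinearMap.ker (opM (dualD D n 0) : EE G (Fin (r (n - 0))) →ₗ[ℂ]
      EE G (Fin (r (n - (0 + 1)))))) = 0
  rw [e, ker_bot_infinite _ φ hφ0 hφ, vd_bot]

end

end Run7.h31.Raise
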