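import Pool.Agent.Run7.h31.Raise.Density

set_option autoImplicit false
set_option linter.unusedSectionVars false

open scoped Matrix Pointwise

/-! Connected half-spaces in Cayley graphs. -/

namespace Run7.h31.Raise

open Pool.Agent.Results.MP_984acc_gt.OrderRaising

universe u v w

/-- The elements `a` and `b` are adjacent in the Cayley graph of the generators `s` (with the edges
from `g` to `g * s j`), and both are in the half-space `{g | x ≤ g • x₀}`. -/
def AdjacentAbove {H : Type u} [Group H] {X : Type v} [MulAction H X] [LinearOrder X] {k : ℕ}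
    (s : Fin k → H) (x₀ x : X) (a b : H) : Prop :=
  x ≤ a • x₀ ∧ x ≤ b • x₀ ∧ ∃ j, b = a * s j ∨ a = b * s j

/-- The group `H` has finitely many elements `s` and an order-preserving action on a totally ordered
set `X` with an element `x₀` whose orbit is unbounded above, such that each half-space
`{g | x ≤ g • x₀}` is connected in the Cayley graph of `s`. -/
def HasConnectedHalfSpaces (H : Type u) [Group H] : Prop :=
  ∃ (X : Type v) (_ : LinearOrder X) (_ : MulAction H X) (x₀ : X) (k : ℕ) (s : Fin k → H),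
    OrderInvariant H X ∧ (∀ x : X, ∃ g : H, x < g • x₀) ∧
    ∀ (x : X) (g h : H), x ≤ g • x₀ → x ≤ h • x₀ →
      Relation.ReflTransGen (AdjacentAbove s x₀ x) g h

section
variable {H : Type u} [Group H] {X : Type v} [MulAction H X] [LinearOrder X]

/-- the ranks -/
def hq (k : ℕ) : ℕ → ℕ
  | 0 => 1
  | 1 => k
  | (_ + 2) => 0

/-- the augmented Cayley graph -/
noncomputable def hE0 {k : ℕ} (s : Fin k → H) : Matrices H (hq k)
  | 0 => fun j _ => MonoidAlgebra.single (s j) 1 - MonoidAlgebra.single 1 1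
  | (_ + 1) => 0

/-- the heights -/
def hw {k : ℕ} (s : Fin k → H) (x₀ : X) : ∀ i, Fin (hq k i) → X
  | 0 => fun _ => x₀
  | 1 => fun (j : Fin k) => min x₀ (s j • x₀)
  | (_ + 2) => fun _ => x₀

/-- boundaries of chains in the half-space -/
def Bd {k : ℕ} (s : Fin k → H) (x₀ x : X) (v : MonoidAlgebra ℂ H) : Prop :=
  ∃ y : Fin k → MonoidAlgebra ℂ H, HeightsAtLeast (fun j => min x₀ (s j • x₀)) x y ∧
    ∑ j, y j * (MonoidAlgebra.single (s j) 1 - MonoidAlgebra.single 1 1) = v

theorem hal_add {k : ℕ} {w : Fin k → X} {x : X} {y z : Fin k → MonoidAlgebra ℂ H}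
    (hy : HeightsAtLeast w x y) (hz : HeightsAtLeast w x z) : HeightsAtLeast w x (y + z) := by
  classical
  intro j g hg
  rw [Pi.add_apply, MonoidAlgebra.coeff_add] at hg
  rcases Finset.mem_union.1 (Finsupp.support_add hg) with h | h
  · exact hy j g h
  · exact hz j g h

theorem hal_smul {k : ℕ} {w : Fin k → X} {x : X} {y : Fin k → MonoidAlgebra ℂ H} (c : ℂ)
    (hy : HeightsAtLeast w x y) : HeightsAtLeast w x (c • y) := by
  intro j g hg
  apply hy j g
  rw [Finsupp.mem_support_iff] at hg ⊢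
  intro h0
  apply hg
  rw [Pi.smul_apply, MonoidAlgebra.coeff_smul_apply, h0, smul_zero]

theorem Bd.add {k : ℕ} {s : Fin k → H} {x₀ x : X} {v v' : MonoidAlgebra ℂ H}
    (h : Bd s x₀ x v) (h' : Bd s x₀ x v') : Bd s x₀ x (v + v') := by
  obtain ⟨y, hy, rfl⟩ := h
  obtain ⟨z, hz, rfl⟩ := h'
  refine ⟨y + z, hal_add hy hz, ?_⟩
  rw [← Finset.sum_add_distrib]
  exact Finset.sum_congr rfl fun j _ => add_mul _ _ _

theorem Bd.smul {k : ℕ} {s : Fin k → H} {x₀ x : X} {v : MonoidAlgebra ℂ H} (c : ℂ)
    (h : Bd s x₀ x v) : Bd s x₀ x (c • v) := by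
  obtain ⟨y, hy, rfl⟩ := h
  refine ⟨c • y, hal_smul c hy, ?_⟩
  rw [Finset.smul_sum]
  refine Finset.sum_congr rfl fun j _ => ?_
  change (c • y j) * (MonoidAlgebra.single (s j) 1 - MonoidAlgebra.single 1 1)
    = c • (y j * (MonoidAlgebra.single (s j) 1 - MonoidAlgebra.single 1 1))
  exact Algebra.smul_mul_assoc c _ _

theorem Bd.zero {k : ℕ} (s : Fin k → H) (x₀ x : X) : Bd s x₀ x 0 := by
  refine ⟨0, fun j g hg => ?_, ?_⟩
  · exact absurd hg (by simp)
  · exact Finset.sum_eq_zero fun j _ => zero_mul _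

theorem Bd.sum {k : ℕ} {s : Fin k → H} {x₀ x : X} {ι : Type*} (t : Finset ι)
    (f : ι → MonoidAlgebra ℂ H) (h : ∀ i ∈ t, Bd s x₀ x (f i)) : Bd s x₀ x (∑ i ∈ t, f i) := by
  classical
  induction t using Finset.induction_on with
  | empty => exact Bd.zero s x₀ x
  | insert a t ha ih =>
    rw [Finset.sum_insert ha]
    exact (h a (Finset.mem_insert_self a t)).add
      (ih fun i hi => h i (Finset.mem_insert_of_mem hi))

theorem bd_edge (_hX : OrderInvariant H X) {k : ℕ} (s : Fin k → H) (x₀ x : X) (a : H) (j : Fin k)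
    (h1 : x ≤ a • x₀) (h2 : x ≤ (a * s j) • x₀) :
    Bd s x₀ x (MonoidAlgebra.single (a * s j) 1 - MonoidAlgebra.single a 1) := by
  classical
  refine ⟨Pi.single j (MonoidAlgebra.single a 1), ?_, ?_⟩
  · intro l g hg
    by_cases hl : l = j
    · subst hl
      rw [Pi.single_eq_same, MonoidAlgebra.coeff_single] at hg
      have hga : g = a := Finset.mem_singleton.1 (Finsupp.support_single_subset hg)
      subst hga
      change x ≤ g • min x₀ (s l • x₀)
      rcases le_total x₀ (s l • x₀) with h3 | h3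
      · rw [min_eq_left h3]
        exact h1
      · rw [min_eq_right h3, ← mul_smul]
        exact h2
    · rw [Pi.single_eq_of_ne hl] at hg
      exact absurd hg (by simp)
  · rw [Finset.sum_eq_single j]
    · rw [Pi.single_eq_same, mul_sub, MonoidAlgebra.single_mul_single,
        MonoidAlgebra.single_mul_single, mul_one, mul_one]
    · intro l _ hl
      rw [Pi.single_eq_of_ne hl, zero_mul]
    · intro h
      exact absurd (Finset.mem_univ j) h

theorem bd_path (hX : OrderInvariant H X) {k : ℕ} (s : Fin k → H) (x₀ x : X) {a b : H}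
    (h : Relation.ReflTransGen (AdjacentAbove s x₀ x) a b) :
    Bd s x₀ x (MonoidAlgebra.single b 1 - MonoidAlgebra.single a 1) := by
  induction h with
  | refl =>
    rw [sub_self]
    exact Bd.zero s x₀ x
  | @tail b c _ hbc ih =>
    have h1 : Bd s x₀ x (MonoidAlgebra.single c 1 - MonoidAlgebra.single b 1) := by
      obtain ⟨hb, hc, j, h2 | h2⟩ := hbc
      · subst h2
        exact bd_edge hX s x₀ x b j hb hc
      · subst h2
        have h3 := (bd_edge hX s x₀ x c j hc hb).smul (-1)
        rwa [neg_one_smul, neg_sub] at h3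
    have h4 := h1.add ih
    rwa [sub_add_sub_cancel] at h4

theorem bd_all (hX : OrderInvariant H X) {k : ℕ} (s : Fin k → H) (x₀ x : X)
    (hc : ∀ g h : H, x ≤ g • x₀ → x ≤ h • x₀ →
      Relation.ReflTransGen (AdjacentAbove s x₀ x) g h)
    (v : MonoidAlgebra ℂ H) (hv : ∀ g ∈ v.coeff.support, x ≤ g • x₀) (h0 : aug v = 0) :
    Bd s x₀ x v := by
  classical
  by_cases hne : v.coeff.support.Nonempty
  · obtain ⟨b, hb⟩ := hne
    have e1 : v = ∑ g ∈ v.coeff.support, (v.coeff g) •
        (MonoidAlgebra.single g (1 : ℂ) - MonoidAlgebra.single b 1) := by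
      have e2 : ∑ g ∈ v.coeff.support, (v.coeff g) •
          (MonoidAlgebra.single g (1 : ℂ) - MonoidAlgebra.single b 1)
          = (∑ g ∈ v.coeff.support, MonoidAlgebra.single g (v.coeff g))
            - (∑ g ∈ v.coeff.support, v.coeff g) • MonoidAlgebra.single b (1 : ℂ) := by
        rw [Finset.sum_smul, ← Finset.sum_sub_distrib]
        refine Finset.sum_congr rfl fun g _ => ?_
        rw [smul_sub, MonoidAlgebra.smul_single, smul_eq_mul, mul_one]
      have e3 : ∑ g ∈ v.coeff.support, v.coeff g = 0 := h0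
      rw [e2, e3, zero_smul, sub_zero]
      exact (MonoidAlgebra.sum_coeff_single v).symm
    rw [e1]
    apply Bd.sum
    intro g hg
    exact (bd_path hX s x₀ x (hc b g (hv b hb) (hv g hg))).smul _
  · rw [Finset.not_nonempty_iff_eq_empty, Finsupp.support_eq_empty] at hne
    have e : v = 0 := by
      apply MonoidAlgebra.coeff_injective
      rw [hne]
      rfl
    rw [e]
    exact Bd.zero s x₀ x

theorem aug_add' (y z : MonoidAlgebra ℂ H) : aug (y + z) = aug y + aug z := by
  unfold aug
  rw [MonoidAlgebra.coeff_add]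
  exact Finsupp.sum_add_index' (fun _ => rfl) (fun _ _ _ => rfl)

theorem upper_of_half (hX : OrderInvariant H X) {k : ℕ} (s : Fin k → H) (x₀ : X)
    (hu : ∀ x : X, ∃ g : H, x < g • x₀)
    (hc : ∀ (x : X) (g h : H), x ≤ g • x₀ → x ≤ h • x₀ →
      Relation.ReflTransGen (AdjacentAbove s x₀ x) g h) :
    IsUpperExact 1 (hE0 s) (fun _ => (1 : ℂ)) (hw s x₀) := by
  classical
  have haugm : ∀ y : MonoidAlgebra ℂ H, aug y = Pool.Agent.N309.PD.augm y := by
    intro y
    rw [Pool.Agent.N309.PD.augm_eq]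
    rfl
  refine ⟨?_, ?_, ?_, ?_, ?_, ?_⟩
  · intro i hi j l g hg
    obtain rfl : i = 0 := by omega
    change g ∈ ((MonoidAlgebra.single (s j) (1 : ℂ) - MonoidAlgebra.single 1 1).coeff).support
      at hg
    change min x₀ (s j • x₀) ≤ g • x₀
    have h1 : g = s j ∨ g = 1 := by
      by_contra hcon
      push Not at hcon
      rw [Finsupp.mem_support_iff] at hg
      apply hg
      rw [MonoidAlgebra.coeff_sub, Finsupp.sub_apply, MonoidAlgebra.coeff_single,
        MonoidAlgebra.coeff_single, Finsupp.single_eq_of_ne hcon.1,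
        Finsupp.single_eq_of_ne hcon.2, sub_zero]
    rcases h1 with rfl | rfl
    · exact min_le_right _ _
    · rw [one_smul]
      exact min_le_left _ _
  · intro _ (y : Fin k → MonoidAlgebra ℂ H)
    change ∑ _i : Fin 1, aug (∑ j : Fin k, y j *
      (MonoidAlgebra.single (s j) 1 - MonoidAlgebra.single 1 1)) * 1 = 0
    rw [Fin.sum_univ_one, mul_one, haugm, map_sum]
    apply Finset.sum_eq_zero
    intro j _
    rw [map_mul, map_sub]
    have e : ∀ t : H, (Pool.Agent.N309.PD.augm : MonoidAlgebra ℂ H →ₐ[ℂ] ℂ)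
        (MonoidAlgebra.single t 1) = 1 := by
      intro t
      unfold Pool.Agent.N309.PD.augm
      rw [MonoidAlgebra.lift_single, MonoidHom.one_apply, one_smul]
    rw [e, e, sub_self, mul_zero]
  · intro i hi
    omega
  · intro x
    obtain ⟨g, hg⟩ := hu x
    refine ⟨fun _ => MonoidAlgebra.single g 1, ?_, ?_⟩
    · intro j g' hg'
      rw [MonoidAlgebra.coeff_single] at hg'
      have hgg : g' = g := Finset.mem_singleton.1 (Finsupp.support_single_subset hg')
      subst hgg
      exact hg.le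
    · change ∑ _i : Fin 1, aug (MonoidAlgebra.single g (1 : ℂ)) * 1 ≠ 0
      rw [Fin.sum_univ_one, mul_one]
      unfold aug
      rw [MonoidAlgebra.coeff_single, Finsupp.sum_single_index rfl]
      exact one_ne_zero
  · intro _ x (v : Fin 1 → MonoidAlgebra ℂ H) hv h0
    change ∑ i : Fin 1, aug (v i) * 1 = 0 at h0
    rw [Fin.sum_univ_one, mul_one] at h0
    obtain ⟨y, hy, hy2⟩ := bd_all hX s x₀ x (hc x) (v (0 : Fin 1))
      (fun g hg => hv (0 : Fin 1) g hg) h0
    refine ⟨y, hy, ?_⟩
    funext (l : Fin 1)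
    change ∑ j : Fin k, y j * (MonoidAlgebra.single (s j) 1 - MonoidAlgebra.single 1 1) = v l
    rw [hy2]
    congr 1
    exact Subsingleton.elim (α := Fin 1) _ _
  · intro i hi
    omega

theorem half_virtually {G : Type u} [Group G] (K : Subgroup G) (hK : K.FiniteIndex)
    (h : HasConnectedHalfSpaces.{u, v} K) : VirtuallyUpperExact.{u, v} G 1 := by
  obtain ⟨X, _, _, x₀, k, s, hX, hu, hc⟩ := h
  have h1 : Nonempty X := ⟨x₀⟩
  have h2 : NoMaxOrder X := ⟨fun x => by
    obtain ⟨g, hg⟩ := hu x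
    exact ⟨_, hg⟩⟩
  exact ⟨K, hK, X, _, _, h1, h2, hq k, hE0 s, fun _ => 1, hw s x₀, hX,
    upper_of_half hX s x₀ hu hc⟩

end

end Run7.h31.Raise
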