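import Pool.Agent.Run7.h31.Raise.Index

set_option autoImplicit false
set_option linter.unusedSectionVars false

open scoped Matrix

/-! The restriction of a complex to a subgroup of finite index: Betti numbers. -/

namespace Run7.h31.Raise

open Pool.Agent.Results.MP_984acc_gt.OrderRaising Pool.Agent.W649.ZL

universe u v w z

section l2

/-- transport of square-summable functions along a bijection -/
noncomputable def cE {X Y : Type*} (e : X ≃ Y) (F : lp (fun _ : Y => ℂ) 2) :
    lp (fun _ : X => ℂ) 2 := ⟨fun x => F (e x), memlp_comp_equiv e F⟩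

theorem cE_apply {X Y : Type*} (e : X ≃ Y) (F : lp (fun _ : Y => ℂ) 2) (x : X) :
    cE e F x = F (e x) := rfl

theorem cE_isometry {X Y : Type*} (e : X ≃ Y) : Isometry (cE e) := by
  apply Isometry.of_dist_eq
  intro F F'
  rw [dist_eq_norm, dist_eq_norm]
  have h1 : cE e F - cE e F' = cE e (F - F') := by
    ext x
    rfl
  rw [h1]
  have h3 : ‖cE e (F - F')‖ ^ 2 = ‖F - F'‖ ^ 2 := by
    rw [norm_sq_tsum, norm_sq_tsum]
    exact Equiv.tsum_eq e (fun x => ‖(F - F') x‖ ^ 2)
  exact (sq_eq_sq₀ (norm_nonneg _) (norm_nonneg _)).1 h3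

theorem cE_surjective {X Y : Type*} (e : X ≃ Y) : Function.Surjective (cE e) := by
  intro F
  refine ⟨cE e.symm F, ?_⟩
  ext x
  rw [cE_apply, cE_apply, e.symm_apply_apply]

open Classical in
/-- the basis vector -/
noncomputable def pt0 {X : Type*} (x : X) : lp (fun _ : X => ℂ) 2 := lp.single 2 x (1 : ℂ)

theorem cE_pt {X Y : Type*} (e : X ≃ Y) (x : X) : cE e (pt0 (e x)) = pt0 x := by
  classical
  unfold pt0
  ext y
  rw [cE_apply]
  by_cases h : y = x
  · subst h
    rw [lp.single_apply_self, lp.single_apply_self]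
  · rw [lp.single_apply_ne _ _ _ h, lp.single_apply_ne _ _ _ (fun h' => h (e.injective h'))]

end l2

section conv
variable {G : Type u} [Group G]

theorem conv_single (x : G) (p : ℂ) (f : G → ℂ) (g : G) :
    conv (MonoidAlgebra.single x p) f g = p * f (x⁻¹ * g) := by
  unfold conv
  change (MonoidAlgebra.single x p).coeff.sum (fun k c => c * f (k⁻¹ * g)) = _
  rw [MonoidAlgebra.coeff_single]
  exact Finsupp.sum_single_index (zero_mul _)

theorem conv_add (α β : MonoidAlgebra ℂ G) (f : G → ℂ) (g : G) :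
    conv (α + β) f g = conv α f g + conv β f g := by
  unfold conv
  change (α + β).coeff.sum (fun k c => c * f (k⁻¹ * g))
    = α.coeff.sum (fun k c => c * f (k⁻¹ * g)) + β.coeff.sum (fun k c => c * f (k⁻¹ * g))
  rw [MonoidAlgebra.coeff_add]
  exact Finsupp.sum_add_index' (fun _ => zero_mul _) (fun _ _ _ => add_mul _ _ _)

theorem conv_zero (f : G → ℂ) (g : G) : conv (0 : MonoidAlgebra ℂ G) f g = 0 := by
  unfold conv
  rw [MonoidAlgebra.coeff_zero, Finsupp.support_zero, Finset.sum_empty]

theorem coconv_single (x : G) (p : ℂ) (f : G → ℂ) (g : G) :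
    coconv (MonoidAlgebra.single x p) f g = (starRingEnd ℂ) p * f (x * g) := by
  unfold coconv
  change (MonoidAlgebra.single x p).coeff.sum (fun k c => (starRingEnd ℂ) c * f (k * g)) = _
  rw [MonoidAlgebra.coeff_single]
  exact Finsupp.sum_single_index (by rw [map_zero, zero_mul])

theorem coconv_add (α β : MonoidAlgebra ℂ G) (f : G → ℂ) (g : G) :
    coconv (α + β) f g = coconv α f g + coconv β f g := by
  unfold coconv
  change (α + β).coeff.sum (fun k c => (starRingEnd ℂ) c * f (k * g))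
    = α.coeff.sum (fun k c => (starRingEnd ℂ) c * f (k * g))
      + β.coeff.sum (fun k c => (starRingEnd ℂ) c * f (k * g))
  rw [MonoidAlgebra.coeff_add]
  exact Finsupp.sum_add_index' (fun _ => by rw [map_zero, zero_mul])
    (fun _ _ _ => by rw [map_add, add_mul])

theorem coconv_zero (f : G → ℂ) (g : G) : coconv (0 : MonoidAlgebra ℂ G) f g = 0 := by
  unfold coconv
  rw [MonoidAlgebra.coeff_zero, Finsupp.support_zero, Finset.sum_empty]

variable {H : Subgroup G} {A : Type w} [Fintype A] {s : A → G} (hs : IsTrans H s)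

include hs

theorem conv_res (a : A) (α : MonoidAlgebra ℂ G) (f : G → ℂ) (h : H) :
    ∑ b, conv (rr H (s a) (s b) α) (fun x : H => f (s b * x)) h = conv α f (s a * h) := by
  classical
  induction α using MonoidAlgebra.induction_linear with
  | zero => simp [rr_zero, conv_zero]
  | add x y hx hy =>
    rw [conv_add, ← hx, ← hy, ← Finset.sum_add_distrib]
    exact Finset.sum_congr rfl fun b _ => by rw [rr_add, conv_add]
  | single x p =>
    obtain ⟨b, hb, hu⟩ := hs (x⁻¹ * s a)
    have hiff : ∀ c : A, (s a)⁻¹ * x * s c ∈ H ↔ (s c)⁻¹ * (x⁻¹ * s a) ∈ H := by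
      intro c
      rw [← H.inv_mem_iff]
      have e : ((s a)⁻¹ * x * s c)⁻¹ = (s c)⁻¹ * (x⁻¹ * s a) := by group
      rw [e]
    rw [Finset.sum_eq_single b]
    · rw [rr_single_mem H ((hiff b).2 hb), conv_single, conv_single]
      congr 2
      change s b * (((s a)⁻¹ * x * s b)⁻¹ * (h : G)) = x⁻¹ * (s a * h)
      group
    · intro c _ hc
      rw [rr_single_not H (fun h => hc (hu c ((hiff c).1 h))), conv_zero]
    · intro h
      exact absurd (Finset.mem_univ b) h

theorem coconv_res (b : A) (α : MonoidAlgebra ℂ G) (f : G → ℂ) (h : H) :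
    ∑ a, coconv (rr H (s a) (s b) α) (fun x : H => f (s a * x)) h = coconv α f (s b * h) := by
  classical
  induction α using MonoidAlgebra.induction_linear with
  | zero => simp [rr_zero, coconv_zero]
  | add x y hx hy =>
    rw [coconv_add, ← hx, ← hy, ← Finset.sum_add_distrib]
    exact Finset.sum_congr rfl fun b _ => by rw [rr_add, coconv_add]
  | single x p =>
    obtain ⟨a, ha, hu⟩ := hs (x * s b)
    have hiff : ∀ c : A, (s c)⁻¹ * x * s b ∈ H ↔ (s c)⁻¹ * (x * s b) ∈ H := by
      intro c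
      rw [mul_assoc]
    rw [Finset.sum_eq_single a]
    · rw [rr_single_mem H ((hiff a).2 ha), coconv_single, coconv_single]
      congr 2
      change s a * (((s a)⁻¹ * x * s b) * (h : G)) = x * (s b * h)
      group
    · intro c _ hc
      rw [rr_single_not H (fun h => hc (hu c ((hiff c).1 h))), coconv_zero]
    · intro h
      exact absurd (Finset.mem_univ a) h

omit [Fintype A] in
theorem hE_bij {J b : Type*} (f : J ≃ A × b) :
    Function.Bijective (fun p : H × J => ((s (f p.2).1 * (p.1 : G), (f p.2).2) : G × b)) := by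
  constructor
  · rintro ⟨h, j⟩ ⟨h', j'⟩ heq
    have h1 : s (f j).1 * (h : G) = s (f j').1 * (h' : G) := (Prod.ext_iff.1 heq).1
    have h2 : (f j).2 = (f j').2 := (Prod.ext_iff.1 heq).2
    have h3 : (f j).1 = (f j').1 := by
      by_contra hne
      apply trans_ne hs hne
      have e : (s (f j).1)⁻¹ * s (f j').1 = (h : G) * (h' : G)⁻¹ := by
        have e2 : s (f j').1 = s (f j).1 * (h : G) * (h' : G)⁻¹ := by
          rw [h1, mul_inv_cancel_right]
        rw [e2]
        group
      rw [e]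
      exact H.mul_mem h.2 (H.inv_mem h'.2)
    have h4 : j = j' := f.injective (Prod.ext h3 h2)
    subst h4
    exact Prod.ext (Subtype.ext (mul_left_cancel h1)) rfl
  · rintro ⟨g, i⟩
    obtain ⟨a, ha, _⟩ := hs g
    refine ⟨(⟨(s a)⁻¹ * g, ha⟩, f.symm (a, i)), ?_⟩
    change (s (f (f.symm (a, i))).1 * ((s a)⁻¹ * g), (f (f.symm (a, i))).2) = (g, i)
    rw [f.apply_symm_apply]
    change (s a * ((s a)⁻¹ * g), i) = (g, i)
    rw [mul_inv_cancel_left]

omit [Fintype A] in
/-- the bijection of the index sets -/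
noncomputable def hE {J b : Type*} (f : J ≃ A × b) : H × J ≃ G × b :=
  Equiv.ofBijective _ (hE_bij hs f)

omit [Fintype A] in
theorem hE_apply {J b : Type*} (f : J ≃ A × b) (h : H) (j : J) :
    hE hs f (h, j) = (s (f j).1 * (h : G), (f j).2) := rfl

theorem cocycle_iff {k l k' l' : ℕ} (M : Matrix (Fin l) (Fin k) (MonoidAlgebra ℂ G))
    (e : Fin l' ≃ A × Fin l) (f : Fin k' ≃ A × Fin k) (F : L2 G k) :
    IsCocycle (resM s e f M : Matrix (Fin l') (Fin k') (MonoidAlgebra ℂ H)) (cE (hE hs f) F)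
      ↔ IsCocycle M F := by
  have key : ∀ (i : Fin l') (h : H), ∑ j, conv ((resM s e f M : Matrix (Fin l') (Fin k')
      (MonoidAlgebra ℂ H)) i j) (fun x => (cE (hE hs f) F : L2 H k') (x, j)) h
      = ∑ j, conv (M (e i).2 j) (fun x => F (x, j)) (s (e i).1 * h) := by
    intro i h
    change ∑ j, conv (rr H (s (e i).1) (s (f j).1) (M (e i).2 (f j).2))
      (fun x : H => F (s (f j).1 * (x : G), (f j).2)) h = _
    rw [Equiv.sum_comp f (fun p : A × Fin k => conv (rr H (s (e i).1) (s p.1) (M (e i).2 p.2))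
      (fun x : H => F (s p.1 * (x : G), p.2)) h), Fintype.sum_prod_type, Finset.sum_comm]
    exact Finset.sum_congr rfl fun j _ =>
      conv_res hs (e i).1 (M (e i).2 j) (fun x => F (x, j)) h
  constructor
  · intro hF i g
    obtain ⟨a, ha, _⟩ := hs g
    have h1 := hF (e.symm (a, i)) ⟨(s a)⁻¹ * g, ha⟩
    rw [key, e.apply_symm_apply] at h1
    have h2 : ∑ j, conv (M i j) (fun x => F (x, j)) (s a * ((s a)⁻¹ * g)) = 0 := h1
    rwa [mul_inv_cancel_left] at h2
  · intro hF i h
    rw [key]
    exact hF _ _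

theorem cycle_iff {k l k' l' : ℕ} (M : Matrix (Fin l) (Fin k) (MonoidAlgebra ℂ G))
    (e : Fin l' ≃ A × Fin l) (f : Fin k' ≃ A × Fin k) (F : L2 G l) :
    IsCycle (resM s e f M : Matrix (Fin l') (Fin k') (MonoidAlgebra ℂ H)) (cE (hE hs e) F)
      ↔ IsCycle M F := by
  have key : ∀ (j : Fin k') (h : H), ∑ i, coconv ((resM s e f M : Matrix (Fin l') (Fin k')
      (MonoidAlgebra ℂ H)) i j) (fun x => (cE (hE hs e) F : L2 H l') (x, i)) h
      = ∑ i, coconv (M i (f j).2) (fun x => F (x, i)) (s (f j).1 * h) := by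
    intro j h
    change ∑ i, coconv (rr H (s (e i).1) (s (f j).1) (M (e i).2 (f j).2))
      (fun x : H => F (s (e i).1 * (x : G), (e i).2)) h = _
    rw [Equiv.sum_comp e (fun p : A × Fin l => coconv (rr H (s p.1) (s (f j).1) (M p.2 (f j).2))
      (fun x : H => F (s p.1 * (x : G), p.2)) h), Fintype.sum_prod_type, Finset.sum_comm]
    exact Finset.sum_congr rfl fun i _ =>
      coconv_res hs (f j).1 (M i (f j).2) (fun x => F (x, i)) h
  constructor
  · intro hF j g
    obtain ⟨a, ha, _⟩ := hs g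
    have h1 := hF (f.symm (a, j)) ⟨(s a)⁻¹ * g, ha⟩
    rw [key, f.apply_symm_apply] at h1
    have h2 : ∑ i, coconv (M i j) (fun x => F (x, i)) (s a * ((s a)⁻¹ * g)) = 0 := h1
    rwa [mul_inv_cancel_left] at h2
  · intro hF j h
    rw [key]
    exact hF _ _

end conv

section trans
variable {G : Type u} [Group G]

theorem conv_tr (α : MonoidAlgebra ℂ G) (f : G → ℂ) (g k : G) :
    conv α (fun x => f (x * k)) g = conv α f (g * k) := by
  unfold conv
  refine Finset.sum_congr rfl fun x _ => ?_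
  change α.coeff x * f (x⁻¹ * g * k) = _
  rw [mul_assoc]

theorem coconv_tr (α : MonoidAlgebra ℂ G) (f : G → ℂ) (g k : G) :
    coconv α (fun x => f (x * k)) g = coconv α f (g * k) := by
  unfold coconv
  refine Finset.sum_congr rfl fun x _ => ?_
  change (starRingEnd ℂ) (α.coeff x) * f (x * g * k) = _
  rw [mul_assoc]

theorem cocycle_tr {k l : ℕ} (M : Matrix (Fin l) (Fin k) (MonoidAlgebra ℂ G)) (F : L2 G k) (t : G) :
    IsCocycle M (cE (trE (Fin k) t) F) ↔ IsCocycle M F := by
  have key : ∀ i g, ∑ j, conv (M i j) (fun x => (cE (trE (Fin k) t) F : L2 G k) (x, j)) g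
      = ∑ j, conv (M i j) (fun x => F (x, j)) (g * t) := by
    intro i g
    exact Finset.sum_congr rfl fun j _ => conv_tr (M i j) (fun x => F (x, j)) g t
  constructor
  · intro hF i g
    have h1 := hF i (g * t⁻¹)
    rwa [key, inv_mul_cancel_right] at h1
  · intro hF i g
    rw [key]
    exact hF _ _

theorem cycle_tr {k l : ℕ} (M : Matrix (Fin l) (Fin k) (MonoidAlgebra ℂ G)) (F : L2 G l) (t : G) :
    IsCycle M (cE (trE (Fin l) t) F) ↔ IsCycle M F := by
  have key : ∀ j g, ∑ i, coconv (M i j) (fun x => (cE (trE (Fin l) t) F : L2 G l) (x, i)) g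
      = ∑ i, coconv (M i j) (fun x => F (x, i)) (g * t) := by
    intro j g
    exact Finset.sum_congr rfl fun i _ => coconv_tr (M i j) (fun x => F (x, i)) g t
  constructor
  · intro hF i g
    have h1 := hF i (g * t⁻¹)
    rwa [key, inv_mul_cancel_right] at h1
  · intro hF i g
    rw [key]
    exact hF _ _

theorem harmonic_tr {r : ℕ → ℕ} (D : Matrices G r) (i : ℕ) (F : L2 G (r i)) (t : G) :
    cE (trE (Fin (r i)) t) F ∈ harmonic D i ↔ F ∈ harmonic D i := by
  rcases i with _ | i
  · exact cocycle_tr _ _ _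
  · exact and_congr (cocycle_tr _ _ _) (cycle_tr _ _ _)

theorem image_eq {X Y : Type*} (e : X ≃ Y) (S : Set (lp (fun _ : Y => ℂ) 2))
    (T : Set (lp (fun _ : X => ℂ) 2)) (h : ∀ F, cE e F ∈ T ↔ F ∈ S) : T = cE e '' S := by
  ext F
  constructor
  · intro hF
    obtain ⟨F', rfl⟩ := cE_surjective e F
    exact ⟨F', (h F').1 hF, rfl⟩
  · rintro ⟨F', hF', rfl⟩
    exact (h F').2 hF'

theorem dist_tr {r : ℕ → ℕ} (D : Matrices G r) (i : ℕ) (t : G) (j : Fin (r i)) :
    Metric.infDist (pt0 (t, j) : L2 G (r i)) (harmonic D i)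
      = Metric.infDist (pt0 ((1 : G), j) : L2 G (r i)) (harmonic D i) := by
  have h1 : (pt0 ((1 : G), j) : L2 G (r i)) = cE (trE (Fin (r i)) t) (pt0 (t, j)) := by
    rw [← cE_pt (trE (Fin (r i)) t) ((1 : G), j)]
    congr 2
    change (1 * t, j) = (t, j)
    rw [one_mul]
  have h2 := image_eq (trE (Fin (r i)) t) (harmonic D i) (harmonic D i)
    (fun F => harmonic_tr D i F t)
  rw [h1]
  conv_rhs => rw [h2]
  rw [Metric.infDist_image (cE_isometry _)]

theorem betti_pt {r : ℕ → ℕ} (D : Matrices G r) (i : ℕ) :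
    betti D i = ∑ j : Fin (r i),
      (1 - Metric.infDist (pt0 ((1 : G), j) : L2 G (r i)) (harmonic D i) ^ 2) := by
  classical
  unfold betti
  refine Finset.sum_congr rfl fun j _ => ?_
  have e : (lp.single 2 ((1 : G), j) (1 : ℂ) : lp (fun _ : G × Fin (r i) => ℂ) 2)
      = pt0 ((1 : G), j) := by
    unfold pt0
    congr 1
    exact Subsingleton.elim _ _
  rw [← e]

end trans

section betti
variable {G : Type u} [Group G] {H : Subgroup G} {A : Type w} [Fintype A] {s : A → G}
  (hs : IsTrans H s) {N : ℕ} {r : ℕ → ℕ} (e : ∀ i, Fin (N * r i) ≃ A × Fin (r i))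

include hs

theorem harmonic_res (D : Matrices G r) (i : ℕ) (F : L2 G (r i)) :
    (cE (hE hs (e i)) F : L2 H (N * r i)) ∈ harmonic (resD (H := H) e s D) i
      ↔ F ∈ harmonic D i := by
  rcases i with _ | i
  · exact cocycle_iff hs (D 0) (e (0 + 1)) (e 0) F
  · exact and_congr (cocycle_iff hs (D (i + 1)) (e (i + 1 + 1)) (e (i + 1)) F)
      (cycle_iff hs (D i) (e (i + 1)) (e i) F)

/-- The Betti numbers are multiplied by the index. -/
theorem betti_res (D : Matrices G r) (i : ℕ) :
    betti (resD (H := H) e s D) i = Fintype.card A * betti D i := by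
  have h1 : ∀ j : Fin (N * r i), Metric.infDist
      (pt0 ((1 : H), j) : L2 H (N * r i)) (harmonic (resD (H := H) e s D) i)
      = Metric.infDist (pt0 ((1 : G), (e i j).2) : L2 G (r i)) (harmonic D i) := by
    intro j
    rw [← dist_tr D i (s (e i j).1) (e i j).2,
      image_eq (hE hs (e i)) (harmonic D i) (harmonic (resD (H := H) e s D) i)
      (fun F => harmonic_res hs e D i F)]
    have h2 : (pt0 ((1 : H), j) : L2 H (N * r i))
        = cE (hE hs (e i)) (pt0 (s (e i j).1, (e i j).2)) := by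
      rw [← cE_pt (hE hs (e i)) ((1 : H), j)]
      congr 2
      rw [hE_apply]
      change (s (e i j).1 * 1, (e i j).2) = _
      rw [mul_one]
    rw [h2, Metric.infDist_image (cE_isometry _)]
  have h3 : betti (resD (H := H) e s D) i = ∑ j : Fin (N * r i),
      (1 - Metric.infDist (pt0 ((1 : G), (e i j).2) : L2 G (r i)) (harmonic D i) ^ 2) := by
    rw [betti_pt]
    exact Finset.sum_congr rfl fun j _ => by rw [h1 j]
  rw [h3, Equiv.sum_comp (e i) (fun p : A × Fin (r i) =>
    (1 - Metric.infDist (pt0 ((1 : G), p.2) : L2 G (r i)) (harmonic D i) ^ 2)),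
    Fintype.sum_prod_type]
  change ∑ _ : A, ∑ j : Fin (r i),
    (1 - Metric.infDist (pt0 ((1 : G), j) : L2 G (r i)) (harmonic D i) ^ 2) = _
  rw [← betti_pt, Finset.sum_const, Finset.card_univ, nsmul_eq_mul]

end betti

end Run7.h31.Raise
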