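import Pool.Agent.N309.PD.Dual

set_option autoImplicit false
set_option linter.unusedSectionVars false

open scoped Matrix

/-! Chain maps and homotopies between complexes of matrices over a group algebra. -/

namespace Run7.h31.Raise

open Pool.Agent.N309.PD

universe u v w z

/-- matrices of a complex -/
abbrev Mats (G : Type u) [Group G] (r : ℕ → ℕ) :=
  ∀ i, Matrix (Fin (r (i + 1))) (Fin (r i)) (MonoidAlgebra ℂ G)

/-- a functional which transforms by a character -/
def HasChar {G : Type u} [Group G] {n : ℕ} (χ : G →* ℂ)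
    (φ : (Fin n → MonoidAlgebra ℂ G) →ₗ[ℂ] ℂ) : Prop :=
  ∀ (g : G) x, φ (gsm g x) = χ g * φ x

section
variable {G : Type u} [Group G] {χ : G →* ℂ}

theorem HasChar.smul {n : ℕ} {φ : (Fin n → MonoidAlgebra ℂ G) →ₗ[ℂ] ℂ} (h : HasChar χ φ)
    (α : MonoidAlgebra ℂ G) (x : Fin n → MonoidAlgebra ℂ G) :
    φ (fun j => α * x j) = chi χ α * φ x := by
  rw [phi_eq χ h, phi_eq χ h x, Finset.mul_sum]
  refine Finset.sum_congr rfl fun j _ => ?_
  rw [map_mul, mul_assoc]

theorem HasChar.vecMul {n k : ℕ} {φ : (Fin n → MonoidAlgebra ℂ G) →ₗ[ℂ] ℂ}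
    {ψ : (Fin k → MonoidAlgebra ℂ G) →ₗ[ℂ] ℂ} (hφ : HasChar χ φ) (hψ : HasChar χ ψ)
    (M : Matrix (Fin n) (Fin k) (MonoidAlgebra ℂ G))
    (h : ∀ j, ψ (M j) = φ (Pi.single j 1)) (x : Fin n → MonoidAlgebra ℂ G) :
    ψ (x ᵥ* M) = φ x := by
  have e : x ᵥ* M = ∑ j, fun l => x j * M j l := by
    funext l
    rw [Finset.sum_apply]
    rfl
  rw [e, map_sum, phi_eq χ hφ x]
  refine Finset.sum_congr rfl fun j _ => ?_
  rw [hψ.smul, h]

theorem exists_row {a b c : ℕ} (A : Matrix (Fin b) (Fin c) (MonoidAlgebra ℂ G))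
    (B : Matrix (Fin a) (Fin c) (MonoidAlgebra ℂ G)) (h : ∀ j, ∃ y, y ᵥ* A = B j) :
    ∃ Y : Matrix (Fin a) (Fin b) (MonoidAlgebra ℂ G), Y * A = B := by
  choose Y hY using h
  refine ⟨Y, ?_⟩
  funext j
  exact hY j

theorem single_vecMul {n k : ℕ} (M : Matrix (Fin n) (Fin k) (MonoidAlgebra ℂ G)) (j : Fin n) :
    (Pi.single j 1 : Fin n → MonoidAlgebra ℂ G) ᵥ* M = M j := by
  funext l
  rw [Matrix.single_one_vecMul]
  rfl

/-- exactness in the degrees `0, …, m - 1`, where the homology in degree zero is described by `ψ` -/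
structure ExactUpTo {q : ℕ → ℕ} (m : ℕ) (E : Mats G q)
    (ψ : (Fin (q 0) → MonoidAlgebra ℂ G) →ₗ[ℂ] ℂ) : Prop where
  zero : 1 ≤ m → ∀ x, ψ x = 0 → ∃ y, y ᵥ* E 0 = x
  succ : ∀ i, i + 2 ≤ m → ∀ x, x ᵥ* E i = 0 → ∃ y, y ᵥ* E (i + 1) = x

/-- the matrices form a complex in the degrees up to `m` -/
structure CompUpTo {q : ℕ → ℕ} (m : ℕ) (E : Mats G q)
    (ψ : (Fin (q 0) → MonoidAlgebra ℂ G) →ₗ[ℂ] ℂ) : Prop where
  zero : 1 ≤ m → ∀ y, ψ (y ᵥ* E 0) = 0
  succ : ∀ i, i + 2 ≤ m → E (i + 1) * E i = 0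

theorem exists_lift {r q : ℕ → ℕ} (C : Mats G r) (E : Mats G q)
    (φ : (Fin (r 0) → MonoidAlgebra ℂ G) →ₗ[ℂ] ℂ) (ψ : (Fin (q 0) → MonoidAlgebra ℂ G) →ₗ[ℂ] ℂ)
    (hφ : HasChar χ φ) (hψ : HasChar χ ψ) (hψ0 : ψ ≠ 0) (m : ℕ) (hC : CompUpTo m C φ)
    (hE : ExactUpTo m E ψ) :
    ∃ f : ∀ i, Matrix (Fin (r i)) (Fin (q i)) (MonoidAlgebra ℂ G),
      (∀ x, ψ (x ᵥ* f 0) = φ x) ∧ ∀ i, i + 1 ≤ m → C i * f i = f (i + 1) * E i := by
  induction m with
  | zero =>
    obtain ⟨v, hv⟩ : ∃ v, ψ v ≠ 0 := by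
      by_contra hcon
      push Not at hcon
      exact hψ0 (LinearMap.ext hcon)
    refine ⟨fun i => if h : i = 0 then by
      subst h
      exact fun j => (φ (Pi.single j 1) * (ψ v)⁻¹) • v else 0, ?_, ?_⟩
    · apply hφ.vecMul hψ
      intro j
      change ψ ((φ (Pi.single j 1) * (ψ v)⁻¹) • v) = _
      rw [map_smul, smul_eq_mul, mul_assoc, inv_mul_cancel₀ hv, mul_one]
    · intro i hi
      omega
  | succ m ih =>
    obtain ⟨f, hf0, hf⟩ := ih ⟨fun h => hC.zero (by omega), fun i h => hC.succ i (by omega)⟩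
      ⟨fun h => hE.zero (by omega), fun i h => hE.succ i (by omega)⟩
    obtain ⟨Y, hY⟩ : ∃ Y : Matrix (Fin (r (m + 1))) (Fin (q (m + 1))) (MonoidAlgebra ℂ G),
        Y * E m = C m * f m := by
      apply exists_row
      intro j
      rcases m with _ | k
      · apply hE.zero (by omega)
        change ψ ((C 0 j) ᵥ* f 0) = 0
        rw [hf0, ← single_vecMul (C 0) j]
        exact hC.zero (by omega) _
      · apply hE.succ k (by omega)
        have h1 : (C (k + 1) * f (k + 1)) * E k = 0 := by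
          rw [Matrix.mul_assoc, ← hf k (by omega), ← Matrix.mul_assoc, hC.succ k (by omega),
            Matrix.zero_mul]
        exact congrFun h1 j
    refine ⟨Function.update f (m + 1) Y, ?_, ?_⟩
    · intro x
      rw [Function.update_of_ne (by omega)]
      exact hf0 x
    · intro i hi
      rcases Nat.lt_or_ge i m with h | h
      · rw [Function.update_of_ne (by omega), Function.update_of_ne (by omega)]
        exact hf i (by omega)
      · obtain rfl : i = m := by omega
        rw [Function.update_of_ne (by omega), Function.update_self]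
        exact hY.symm

theorem exists_homotopy {r q : ℕ → ℕ} (C : Mats G r) (E : Mats G q)
    (φ : (Fin (r 0) → MonoidAlgebra ℂ G) →ₗ[ℂ] ℂ) (ψ : (Fin (q 0) → MonoidAlgebra ℂ G) →ₗ[ℂ] ℂ)
    (m p : ℕ) (hpm : p ≤ m + 1) (hC : CompUpTo m C φ)
    (hE : ExactUpTo p E ψ) (f : ∀ i, Matrix (Fin (r i)) (Fin (q i)) (MonoidAlgebra ℂ G))
    (hf0 : ∀ x, ψ (x ᵥ* f 0) = 0) (hf : ∀ i, i + 1 ≤ m → C i * f i = f (i + 1) * E i) :
    ∃ h : ∀ i, Matrix (Fin (r i)) (Fin (q (i + 1))) (MonoidAlgebra ℂ G),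
      (1 ≤ p → f 0 = h 0 * E 0) ∧
      ∀ i, i + 2 ≤ p → f (i + 1) = C i * h i + h (i + 1) * E (i + 1) := by
  induction p with
  | zero =>
    refine ⟨fun _ => 0, ?_, ?_⟩
    · intro h; omega
    · intro i hi; omega
  | succ p ih =>
    obtain ⟨h, h0, h1⟩ := ih (by omega)
      ⟨fun h => hE.zero (by omega), fun i h => hE.succ i (by omega)⟩
    rcases p with _ | k
    · obtain ⟨Y, hY⟩ : ∃ Y : Matrix (Fin (r 0)) (Fin (q (0 + 1))) (MonoidAlgebra ℂ G),
          Y * E 0 = f 0 := by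
        apply exists_row
        intro j
        apply hE.zero (by omega)
        rw [← single_vecMul (f 0) j]
        exact hf0 _
      refine ⟨Function.update h 0 Y, ?_, ?_⟩
      · intro _
        rw [Function.update_self, hY]
      · intro i hi
        omega
    · obtain ⟨Y, hY⟩ : ∃ Y : Matrix (Fin (r (k + 1))) (Fin (q (k + 1 + 1))) (MonoidAlgebra ℂ G),
          Y * E (k + 1) = f (k + 1) - C k * h k := by
        apply exists_row
        intro j
        apply hE.succ k (by omega)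
        have h2 : (f (k + 1) - C k * h k) * E k = 0 := by
          rw [Matrix.sub_mul, ← hf k (by omega), Matrix.mul_assoc, ← Matrix.mul_sub]
          rcases k with _ | l
          · rw [← h0 (by omega), sub_self, Matrix.mul_zero]
          · rw [h1 l (by omega), add_sub_cancel_right, ← Matrix.mul_assoc,
              hC.succ l (by omega), Matrix.zero_mul]
        exact congrFun h2 j
      refine ⟨Function.update h (k + 1) Y, ?_, ?_⟩
      · intro _
        rw [Function.update_of_ne (by omega)]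
        exact h0 (by omega)
      · intro i hi
        rcases Nat.lt_or_ge i k with h2 | h2
        · rw [Function.update_of_ne (by omega), Function.update_of_ne (by omega)]
          exact h1 i (by omega)
        · obtain rfl : i = k := by omega
          rw [Function.update_of_ne (by omega), Function.update_self, hY]
          abel

end

end Run7.h31.Raise
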