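import Pool.Agent.Run7.h31.Raise.Cochain
import Pool.Agent.Run7.h31.Raise.IndexBetti

set_option autoImplicit false
set_option linter.unusedSectionVars false

open scoped InnerProductSpace InnerProduct ENNReal
open scoped Matrix Pointwise

/-! Complexes with finite stabilizers. -/

namespace Run7.h31.Raise

open Pool.Agent.W649.ZL Pool.Agent.N309.LO Pool.Agent.N309.PD
open Pool.Agent.Results.MP_984acc_gt.OrderRaising

universe u v w z

/-- The idempotent of the group algebra which belongs to a finite subgroup `S` and an orientation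
character of `S`. -/
noncomputable def orbIdem {G : Type u} [Group G] (S : Subgroup G) (ε : S →* ℤˣ) :
    MonoidAlgebra ℂ G :=
  ∑ᶠ s : S, MonoidAlgebra.single (s : G) ((((ε s : ℤˣ) : ℤ) : ℂ) / (Nat.card S : ℂ))

/-- The diagonal matrix of these idempotents. The rows which are fixed by it form the module of the
chains on `n` orbits of cells with the stabilizers `S j` and the orientation characters `ε j`. -/
noncomputable def orbMat {G : Type u} [Group G] {n : ℕ} (S : Fin n → Subgroup G)
    (ε : ∀ j, S j →* ℤˣ) : Matrix (Fin n) (Fin n) (MonoidAlgebra ℂ G) :=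
  Matrix.diagonal fun j => orbIdem (S j) (ε j)

section idem
variable {G : Type u} [Group G]

theorem sign_sq (e : ℤˣ) : (((e : ℤˣ) : ℤ) : ℂ) * (((e : ℤˣ) : ℤ) : ℂ) = 1 := by
  rcases Int.units_eq_one_or e with h | h <;> rw [h] <;> norm_num

theorem sign_inv (e : ℤˣ) : e⁻¹ = e := by
  rcases Int.units_eq_one_or e with h | h <;> rw [h] <;> decide

theorem orb_coeff_mem {S : Subgroup G} [Finite S] (ε : S →* ℤˣ) {g : G} (hg : g ∈ S) :
    (orbIdem S ε).coeff g = (((ε ⟨g, hg⟩ : ℤˣ) : ℤ) : ℂ) / (Nat.card S : ℂ) := by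
  classical
  have : Fintype S := Fintype.ofFinite S
  unfold orbIdem
  rw [finsum_eq_sum_of_fintype, MonoidAlgebra.coeff_sum, Finsupp.finsetSum_apply,
    Finset.sum_eq_single ⟨g, hg⟩]
  · rw [MonoidAlgebra.coeff_single, Finsupp.single_eq_same]
  · intro s _ hs
    rw [MonoidAlgebra.coeff_single, Finsupp.single_eq_of_ne]
    intro h
    exact hs (Subtype.ext h.symm)
  · intro h
    exact absurd (Finset.mem_univ _) h

theorem orb_coeff_not {S : Subgroup G} [Finite S] (ε : S →* ℤˣ) {g : G} (hg : g ∉ S) :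
    (orbIdem S ε).coeff g = 0 := by
  classical
  have : Fintype S := Fintype.ofFinite S
  unfold orbIdem
  rw [finsum_eq_sum_of_fintype, MonoidAlgebra.coeff_sum, Finsupp.finsetSum_apply]
  apply Finset.sum_eq_zero
  intro s _
  rw [MonoidAlgebra.coeff_single, Finsupp.single_eq_of_ne]
  rintro rfl
  exact hg s.2

theorem single_mul_orb {S : Subgroup G} [Finite S] (ε : S →* ℤˣ) (s : S) :
    MonoidAlgebra.single (s : G) (1 : ℂ) * orbIdem S ε = (((ε s : ℤˣ) : ℤ) : ℂ) • orbIdem S ε := by
  apply MonoidAlgebra.coeff_injective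
  ext g
  rw [MonoidAlgebra.coeff_single_mul_apply, one_mul, MonoidAlgebra.coeff_smul_apply]
  by_cases hg : g ∈ S
  · have h1 : (s : G)⁻¹ * g ∈ S := S.mul_mem (S.inv_mem s.2) hg
    rw [orb_coeff_mem ε hg, orb_coeff_mem ε h1]
    have e : (⟨(s : G)⁻¹ * g, h1⟩ : S) = s⁻¹ * ⟨g, hg⟩ := rfl
    rw [e, map_mul, map_inv, sign_inv, Units.val_mul, Int.cast_mul, smul_eq_mul, mul_div_assoc]
  · have h1 : (s : G)⁻¹ * g ∉ S := by
      intro h
      apply hg
      have := S.mul_mem s.2 h
      rwa [mul_inv_cancel_left] at this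
    rw [orb_coeff_not ε hg, orb_coeff_not ε h1, smul_zero]

theorem card_ne {S : Subgroup G} [Finite S] : (Nat.card S : ℂ) ≠ 0 := by
  exact_mod_cast Nat.card_pos.ne'

theorem orb_idem {S : Subgroup G} [Finite S] (ε : S →* ℤˣ) :
    orbIdem S ε * orbIdem S ε = orbIdem S ε := by
  classical
  have : Fintype S := Fintype.ofFinite S
  have h1 : orbIdem S ε * orbIdem S ε = ∑ s : S, MonoidAlgebra.single (s : G)
      ((((ε s : ℤˣ) : ℤ) : ℂ) / (Nat.card S : ℂ)) * orbIdem S ε := by
    conv_lhs =>
      enter [1]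
      unfold orbIdem
    rw [finsum_eq_sum_of_fintype, Finset.sum_mul]
  rw [h1]
  have h2 : ∀ s : S, MonoidAlgebra.single (s : G)
      ((((ε s : ℤˣ) : ℤ) : ℂ) / (Nat.card S : ℂ)) * orbIdem S ε
      = (1 / (Nat.card S : ℂ)) • orbIdem S ε := by
    intro s
    have e : MonoidAlgebra.single (s : G) ((((ε s : ℤˣ) : ℤ) : ℂ) / (Nat.card S : ℂ))
        = ((((ε s : ℤˣ) : ℤ) : ℂ) / (Nat.card S : ℂ)) • MonoidAlgebra.single (s : G) (1 : ℂ) := by
      rw [MonoidAlgebra.smul_single, smul_eq_mul, mul_one]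
    rw [e, Algebra.smul_mul_assoc, single_mul_orb, smul_smul]
    congr 1
    rw [div_mul_eq_mul_div, sign_sq]
  rw [Finset.sum_congr rfl fun s _ => h2 s, Finset.sum_const, Finset.card_univ,
    ← Nat.card_eq_fintype_card, ← Nat.cast_smul_eq_nsmul ℂ, smul_smul, mul_one_div,
    div_self card_ne, one_smul]

theorem orb_sig {S : Subgroup G} [Finite S] (ε : S →* ℤˣ) : sig (orbIdem S ε) = orbIdem S ε := by
  apply MonoidAlgebra.coeff_injective
  ext g
  rw [sig_coeff]
  by_cases hg : g ∈ S
  · have h1 : g⁻¹ ∈ S := S.inv_mem hg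
    rw [orb_coeff_mem ε hg, orb_coeff_mem ε h1]
    have e : (⟨g⁻¹, h1⟩ : S) = (⟨g, hg⟩ : S)⁻¹ := rfl
    rw [e, map_inv, sign_inv, map_div₀, Complex.conj_natCast, map_intCast]
  · have h1 : g⁻¹ ∉ S := fun h => hg (by
      have := S.inv_mem h
      rwa [inv_inv] at this)
    rw [orb_coeff_not ε hg, orb_coeff_not ε h1, map_zero]

theorem orb_conv {S : Subgroup G} [Finite S] [Fintype S] (ε : S →* ℤˣ) (f : G → ℂ) (g : G) :
    conv (orbIdem S ε) f g
      = ∑ s : S, ((((ε s : ℤˣ) : ℤ) : ℂ) / (Nat.card S : ℂ)) * f ((s : G)⁻¹ * g) := by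
  classical
  unfold orbIdem
  rw [finsum_eq_sum_of_fintype]
  have h1 : ∀ (t : Finset S) (a : S → MonoidAlgebra ℂ G),
      conv (∑ s ∈ t, a s) f g = ∑ s ∈ t, conv (a s) f g := by
    intro t a
    induction t using Finset.induction_on with
    | empty => rw [Finset.sum_empty, Finset.sum_empty, conv_zero]
    | insert b t hb ih => rw [Finset.sum_insert hb, Finset.sum_insert hb, conv_add, ih]
  rw [h1]
  exact Finset.sum_congr rfl fun s _ => conv_single _ _ _ _

theorem conv_equivariant {S : Subgroup G} [Finite S] (ε : S →* ℤˣ) (f : G → ℂ) :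
    (∀ g, conv (orbIdem S ε) f g = f g) ↔ ∀ (s : S) (g : G), f (s * g) = ((ε s : ℤˣ) : ℤ) * f g := by
  classical
  have : Fintype S := Fintype.ofFinite S
  constructor
  · intro h s g
    rw [← h (s * g), orb_conv, ← h g, orb_conv, Finset.mul_sum,
      ← Equiv.sum_comp (Equiv.mulLeft s)]
    refine Finset.sum_congr rfl fun t _ => ?_
    have e : ((Equiv.mulLeft s t : S) : G)⁻¹ * (s * g) = (t : G)⁻¹ * g := by
      change ((s : G) * (t : G))⁻¹ * (s * g) = _
      group
    rw [e]
    change (((ε (s * t) : ℤˣ) : ℤ) : ℂ) / _ * _ = _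
    rw [map_mul, Units.val_mul, Int.cast_mul]
    ring
  · intro h g
    rw [orb_conv]
    have h1 : ∀ s : S, ((((ε s : ℤˣ) : ℤ) : ℂ) / (Nat.card S : ℂ)) * f ((s : G)⁻¹ * g)
        = (1 / (Nat.card S : ℂ)) * f g := by
      intro s
      have h2 := h s⁻¹ g
      have e : ((s⁻¹ : S) : G) = (s : G)⁻¹ := rfl
      rw [e] at h2
      rw [h2, map_inv, sign_inv, ← mul_assoc, div_mul_eq_mul_div, sign_sq]
    rw [Finset.sum_congr rfl fun s _ => h1 s, Finset.sum_const, Finset.card_univ,
      ← Nat.card_eq_fintype_card, nsmul_eq_mul, ← mul_assoc, mul_one_div, div_self card_ne,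
      one_mul]

end idem

section proj
variable {G : Type u} [Group G] {J : Type*} [Fintype J] [DecidableEq J]

/-- The dimension of the range of a projection. -/
theorem proj_dim (Q : EE G J →L[ℂ] EE G J) (hadj : ContinuousLinearMap.adjoint Q = Q)
    (hsq : ∀ F, Q (Q F) = Q F) :
    IsClosed (LinearMap.range (Q : EE G J →ₗ[ℂ] EE G J) : Set (EE G J)) ∧
    vd (LinearMap.range (Q : EE G J →ₗ[ℂ] EE G J)) = ∑ j : J, (Q (dl ((1 : G), j)) (1, j)).re := by
  have hr : (LinearMap.range (Q : EE G J →ₗ[ℂ] EE G J))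
      = LinearMap.ker ((ContinuousLinearMap.id ℂ (EE G J) - Q : EE G J →L[ℂ] EE G J) :
        EE G J →ₗ[ℂ] EE G J) := by
    ext F
    constructor
    · rintro ⟨F', rfl⟩
      change Q F' - Q (Q F') = 0
      rw [hsq, sub_self]
    · intro hF
      have h : F - Q F = 0 := hF
      exact ⟨F, (sub_eq_zero.1 h).symm⟩
  have hcl : IsClosed (LinearMap.range (Q : EE G J →ₗ[ℂ] EE G J) : Set (EE G J)) := by
    rw [hr]
    exact ContinuousLinearMap.isClosed_ker _
  refine ⟨hcl, ?_⟩
  have hcs : CompleteSpace (LinearMap.range (Q : EE G J →ₗ[ℂ] EE G J)) := hcl.completeSpace_coe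
  rw [vd_eq _ _ (topcl_eq hcl)]
  refine Finset.sum_congr rfl fun j _ => ?_
  have h1 : (LinearMap.range (Q : EE G J →ₗ[ℂ] EE G J)).starProjection (dl ((1 : G), j))
      = Q (dl ((1 : G), j)) := by
    apply Submodule.eq_starProjection_of_mem_of_inner_eq_zero
    · exact ⟨_, rfl⟩
    · rintro _ ⟨F', rfl⟩
      change ⟪dl ((1 : G), j) - Q (dl ((1 : G), j)), Q F'⟫_ℂ = 0
      rw [← hadj, ContinuousLinearMap.adjoint_inner_right, hadj, map_sub, hsq, sub_self,
        inner_zero_left]
  rw [h1]
  have h2 : ⟪Q (dl ((1 : G), j)), Q (dl ((1 : G), j))⟫_ℂ = Q (dl ((1 : G), j)) (1, j) := by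
    have h3 := ContinuousLinearMap.adjoint_inner_right Q (dl ((1 : G), j) : EE G J)
      (Q (dl ((1 : G), j)))
    rw [hadj, hsq, inner_dl_left] at h3
    exact h3.symm
  rw [← h2, inner_self_eq_norm_sq_to_K]
  norm_cast

end proj

section main
variable {G : Type u} [Group G]

/-- self-adjoint idempotent diagonal matrices -/
structure DiagProj {n : ℕ} (d : Fin n → MonoidAlgebra ℂ G) : Prop where
  sq : ∀ j, d j * d j = d j
  adj : ∀ j, sig (d j) = d j

theorem DiagProj.matAdj {n : ℕ} {d : Fin n → MonoidAlgebra ℂ G} (h : DiagProj d) :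
    adjM (Matrix.diagonal d) = Matrix.diagonal d := by
  funext i j
  change sig (Matrix.diagonal d j i) = Matrix.diagonal d i j
  by_cases hij : i = j
  · subst hij
    rw [Matrix.diagonal_apply_eq, h.adj]
  · rw [Matrix.diagonal_apply_ne _ hij, Matrix.diagonal_apply_ne _ (Ne.symm hij), sig_zero]

theorem DiagProj.dims {n : ℕ} {d : Fin n → MonoidAlgebra ℂ G} (h : DiagProj d) :
    IsClosed (LinearMap.range (opM (Matrix.diagonal d) : EE G (Fin n) →ₗ[ℂ] EE G (Fin n)) :
      Set (EE G (Fin n))) ∧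
    vd (LinearMap.range (opM (Matrix.diagonal d) : EE G (Fin n) →ₗ[ℂ] EE G (Fin n)))
      = ∑ j, ((d j).coeff 1).re ∧
    vd (LinearMap.ker (opM (Matrix.diagonal d) : EE G (Fin n) →ₗ[ℂ] EE G (Fin n)))
      = n - ∑ j, ((d j).coeff 1).re := by
  have hsq : Matrix.diagonal d * Matrix.diagonal d = Matrix.diagonal d := by
    rw [Matrix.diagonal_mul_diagonal]
    congr 1
    funext j
    exact h.sq j
  obtain ⟨h1, h2⟩ := proj_dim (opM (Matrix.diagonal d)) (by rw [opM_adj, h.matAdj])
    (fun F => by rw [← opM_mul_apply, hsq])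
  have h3 : ∑ j : Fin n, (opM (Matrix.diagonal d) (dl ((1 : G), j)) (1, j)).re
      = ∑ j, ((d j).coeff 1).re := by
    refine Finset.sum_congr rfl fun j _ => ?_
    rw [opM_dl, Matrix.diagonal_apply_eq, inv_one, mul_one]
  have h4 := ker_add_range (opM (Matrix.diagonal d)) (opM_eqv _)
  rw [h3] at h2
  rw [h2, Fintype.card_fin] at h4
  exact ⟨h1, h2, by linarith⟩

/-- cochains in the fixed part of a diagonal projection -/
theorem range_perp {n : ℕ} {d : Fin n → MonoidAlgebra ℂ G} (h : DiagProj d) :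
    (LinearMap.ker (opM (Matrix.diagonal d) : EE G (Fin n) →ₗ[ℂ] EE G (Fin n)))ᗮ
      = LinearMap.range (opM (Matrix.diagonal d) : EE G (Fin n) →ₗ[ℂ] EE G (Fin n)) := by
  have h1 := ContinuousLinearMap.orthogonal_range (opM (Matrix.diagonal d) :
    EE G (Fin n) →L[ℂ] EE G (Fin n))
  rw [opM_adj, h.matAdj] at h1
  rw [← h1, Submodule.orthogonal_orthogonal_eq_closure]
  exact topcl_eq h.dims.1

theorem fixed_iff {n : ℕ} {d : Fin n → MonoidAlgebra ℂ G} (h : DiagProj d) (F : EE G (Fin n)) :
    F ∈ LinearMap.range (opM (Matrix.diagonal d) : EE G (Fin n) →ₗ[ℂ] EE G (Fin n))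
      ↔ opM (Matrix.diagonal d) F = F := by
  have hsq : Matrix.diagonal d * Matrix.diagonal d = Matrix.diagonal d := by
    rw [Matrix.diagonal_mul_diagonal]
    congr 1
    funext j
    exact h.sq j
  constructor
  · rintro ⟨F', rfl⟩
    change opM (Matrix.diagonal d) (opM (Matrix.diagonal d) F') = opM (Matrix.diagonal d) F'
    rw [← opM_mul_apply, hsq]
  · intro hF
    exact ⟨F, hF⟩

/-- The level inequality with finite stabilizers. -/
theorem orb_raise {X : Type v} [MulAction G X] [LinearOrder X] (hX : OrdInv G X) {n : ℕ}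
    (w : Fin n → X) (d : Fin n → MonoidAlgebra ℂ G) (hd : DiagProj d)
    (hfix : ∀ j, ∀ t ∈ (d j).coeff.support, t • w j = w j)
    (Z : Matrix (Fin n) (Fin n) (MonoidAlgebra ℂ G)) (T : Finset (Fin n))
    (hT : ∀ j, j ∉ T → ∀ j', ∀ g ∈ (Z j j').coeff.support, w j < g • w j') :
    vd (LinearMap.ker (opM (Matrix.diagonal d * (1 - Z)) : EE G (Fin n) →ₗ[ℂ] EE G (Fin n)))
      ≤ n - ∑ j ∈ Tᶜ, ((d j).coeff 1).re := by
  classical
  set d' : Fin n → MonoidAlgebra ℂ G := fun j => if j ∈ T then 0 else d j with hd'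
  have hP' : DiagProj d' := by
    constructor
    · intro j
      by_cases hj : j ∈ T
      · simp only [hd', if_pos hj, mul_zero]
      · simp only [hd', if_neg hj, hd.sq j]
    · intro j
      by_cases hj : j ∈ T
      · simp only [hd', if_pos hj, sig_zero]
      · simp only [hd', if_neg hj, hd.adj j]
  have h1 : LinearMap.ker (opM (Matrix.diagonal d * (1 - Z)) : EE G (Fin n) →ₗ[ℂ] EE G (Fin n))
      ≤ LinearMap.ker (opM (Matrix.diagonal d' * (1 - Z)) : EE G (Fin n) →ₗ[ℂ] EE G (Fin n)) := by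
    intro F hF
    have hF' : opM (Matrix.diagonal d * (1 - Z)) F = 0 := hF
    change opM (Matrix.diagonal d' * (1 - Z)) F = 0
    rw [opM_eq_zero] at hF' ⊢
    intro i
    by_cases hi : i ∈ T
    · have e : (Matrix.diagonal d' * (1 - Z)) i = 0 := by
        funext l
        rw [Matrix.diagonal_mul]
        simp only [hd', if_pos hi, zero_mul]
        rfl
      rw [e, pr_zero_left]
    · have e : (Matrix.diagonal d' * (1 - Z)) i = (Matrix.diagonal d * (1 - Z)) i := by
        funext l
        rw [Matrix.diagonal_mul, Matrix.diagonal_mul]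
        simp only [hd', if_neg hi]
      rw [e]
      exact hF' i
  have hentry : ∀ i j, (Matrix.diagonal d' * (1 - Z)) i j = Matrix.diagonal d' i j - d' i * Z i j := by
    intro i j
    rw [Matrix.mul_sub, Matrix.mul_one, Matrix.sub_apply, Matrix.diagonal_mul]
  have hB : ∀ (i j : Fin n) (t : G), (Matrix.diagonal d' i j).coeff t ≠ 0 → w i = t • w j := by
    intro i j t ht
    by_cases hij : i = j
    · subst hij
      rw [Matrix.diagonal_apply_eq] at ht
      by_cases hi : i ∈ T
      · simp only [hd', if_pos hi] at ht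
        exact absurd rfl ht
      · simp only [hd', if_neg hi] at ht
        exact (hfix i t (Finsupp.mem_support_iff.2 ht)).symm
    · rw [Matrix.diagonal_apply_ne _ hij] at ht
      exact absurd rfl ht
  have hC : ∀ (i j : Fin n) (t : G), (d' i * Z i j).coeff t ≠ 0 → w i < t • w j := by
    intro i j t ht
    by_cases hi : i ∈ T
    · simp only [hd', if_pos hi, zero_mul] at ht
      exact absurd rfl ht
    · simp only [hd', if_neg hi] at ht
      have h2 := MonoidAlgebra.support_coeff_mul_subset (d i) (Z i j)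
        (Finsupp.mem_support_iff.2 ht)
      obtain ⟨a, ha, b, hb, hab⟩ := Finset.mem_mul.1 h2
      have h3 := hX.lt a (hT i hi j b hb)
      rw [hfix i a ha, smul_smul, hab] at h3
      exact h3
  have h2 : vd (LinearMap.ker (opM (Matrix.diagonal d' * (1 - Z)) :
      EE G (Fin n) →ₗ[ℂ] EE G (Fin n)))
      ≤ vd (LinearMap.ker (opM (Matrix.diagonal d') : EE G (Fin n) →ₗ[ℂ] EE G (Fin n))) := by
    apply level_le hX w w (opM (Matrix.diagonal d' * (1 - Z))) (opM (Matrix.diagonal d'))
      (opM_eqv _) (opM_eqv _)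
    · intro j t i hne
      rw [opM_dl, inv_one, mul_one, hentry, MonoidAlgebra.coeff_sub, Finsupp.sub_apply] at hne
      by_cases h : (Matrix.diagonal d' i j).coeff t = 0
      · rw [h, zero_sub, neg_ne_zero] at hne
        exact (hC i j t hne).le
      · exact (hB i j t h).le
    · intro j t i he
      rw [opM_dl, opM_dl, inv_one, mul_one, hentry, MonoidAlgebra.coeff_sub, Finsupp.sub_apply]
      have h3 : (d' i * Z i j).coeff t = 0 := by
        by_contra h
        exact absurd he (hC i j t h).ne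
      rw [h3, sub_zero]
    · intro j t i he
      rw [opM_dl, inv_one, mul_one]
      by_contra h
      exact he (hB i j t h)
  refine (vd_mono h1).trans (h2.trans (le_of_eq ?_))
  rw [hP'.dims.2.2]
  congr 1
  rw [← Finset.sum_compl_add_sum T (fun j => ((d' j).coeff 1).re)]
  have e1 : ∑ j ∈ T, ((d' j).coeff 1).re = 0 := by
    apply Finset.sum_eq_zero
    intro j hj
    simp only [hd', if_pos hj]
    rfl
  rw [e1, add_zero]
  refine Finset.sum_congr rfl fun j hj => ?_
  have hj' : j ∉ T := Finset.mem_compl.1 hj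
  simp only [hd', if_neg hj']

/-- A finite subgroup fixes all elements of an ordered set. -/
theorem finite_fix {X : Type v} [MulAction G X] [LinearOrder X] (hX : OrdInv G X) (S : Subgroup G)
    [Finite S] (s : G) (hs : s ∈ S) (x : X) : s • x = x := by
  obtain ⟨k, hk, hk1⟩ : ∃ k : ℕ, 0 < k ∧ s ^ k = 1 := by
    have h1 : IsOfFinOrder (⟨s, hs⟩ : S) := isOfFinOrder_of_finite _
    obtain ⟨k, hk, hk1⟩ := h1.exists_pow_eq_one
    exact ⟨k, hk, congrArg Subtype.val hk1⟩
  rcases lt_trichotomy (s • x) x with h | h | h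
  · exfalso
    have h2 : ∀ m : ℕ, 0 < m → s ^ m • x < x := by
      intro m hm
      induction m with
      | zero => omega
      | succ m ih =>
        rcases Nat.eq_zero_or_pos m with rfl | hm'
        · rwa [zero_add, pow_one]
        · rw [pow_succ', mul_smul]
          exact (hX.lt s (ih hm')).trans h
    have h3 := h2 k hk
    rw [hk1, one_smul] at h3
    exact lt_irrefl _ h3
  · exact h
  · exfalso
    have h2 : ∀ m : ℕ, 0 < m → x < s ^ m • x := by
      intro m hm
      induction m with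
      | zero => omega
      | succ m ih =>
        rcases Nat.eq_zero_or_pos m with rfl | hm'
        · rwa [zero_add, pow_one]
        · rw [pow_succ', mul_smul]
          exact h.trans (hX.lt s (ih hm'))
    have h3 := h2 k hk
    rw [hk1, one_smul] at h3
    exact lt_irrefl _ h3

end main

end Run7.h31.Raise
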