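import Pool.Agent.Run7.h31.Raise.Orbifold

set_option autoImplicit false
set_option linter.unusedSectionVars false

open scoped InnerProductSpace InnerProduct ENNReal
open scoped Matrix Pointwise

/-! Raising endomorphisms of complexes with finite stabilizers. -/

namespace Run7.h31.Raise

open Pool.Agent.W649.ZL Pool.Agent.N309.LO Pool.Agent.N309.PD
open Pool.Agent.Results.MP_984acc_gt.OrderRaising

universe u v w z

section
variable {G : Type u} [Group G] {X : Type v} [MulAction G X] [LinearOrder X]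

/-- multiplication by a scalar from the left -/
noncomputable def lsm {k : ℕ} (α : MonoidAlgebra ℂ G) (v : Fin k → MonoidAlgebra ℂ G) :
    Fin k → MonoidAlgebra ℂ G := fun j => α * v j

theorem lsm_vecMul {k l : ℕ} (α : MonoidAlgebra ℂ G) (v : Fin k → MonoidAlgebra ℂ G)
    (M : Matrix (Fin k) (Fin l) (MonoidAlgebra ℂ G)) : lsm α v ᵥ* M = lsm α (v ᵥ* M) := by
  funext j
  change ∑ i, (α * v i) * M i j = α * ∑ i, v i * M i j
  rw [Finset.mul_sum]
  exact Finset.sum_congr rfl fun i _ => mul_assoc _ _ _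

theorem lsm_sub {k : ℕ} (α : MonoidAlgebra ℂ G) (v v' : Fin k → MonoidAlgebra ℂ G) :
    lsm α (v - v') = lsm α v - lsm α v' := by
  funext j
  exact mul_sub _ _ _

theorem sabv_lsm {k : ℕ} {w : Fin k → X} {x : X} {v : Fin k → MonoidAlgebra ℂ G}
    {α : MonoidAlgebra ℂ G} (hα : ∀ t ∈ α.coeff.support, ∀ x : X, t • x = x) (hv : SAbv w x v) :
    SAbv w x (lsm α v) := by
  classical
  intro j g hg
  obtain ⟨a, ha, b, hb, hab⟩ := Finset.mem_mul.1 (MonoidAlgebra.support_coeff_mul_subset α (v j) hg)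
  have h1 := hv j b hb
  rw [← hab, mul_smul, hα a ha]
  exact h1

/-- relative exactness on the chains with finite stabilizers -/
structure OrbRel {q : ℕ → ℕ} (m : ℕ) (E : Mats G q) (d : ∀ i, Fin (q i) → MonoidAlgebra ℂ G)
    (w : ∀ i, Fin (q i) → X) : Prop where
  proj : ∀ i, DiagProj (d i)
  fix : ∀ i j, ∀ t ∈ (d i j).coeff.support, ∀ x : X, t • x = x
  left : ∀ i, Matrix.diagonal (d (i + 1)) * E i = E i
  right : ∀ i, E i * Matrix.diagonal (d i) = E i
  mono : ∀ i, i + 1 ≤ m → ∀ k, Abv (w i) (w (i + 1) k) (E i k)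
  zero : ∀ (x : X) (v : Fin (q 0) → MonoidAlgebra ℂ G), v ᵥ* Matrix.diagonal (d 0) = v →
    ∃ y : Fin (q (0 + 1)) → MonoidAlgebra ℂ G, Abv (w 0) x (v - y ᵥ* E 0)
  succ : ∀ i, i + 1 ≤ m → ∀ (x : X) (v : Fin (q (i + 1)) → MonoidAlgebra ℂ G),
    v ᵥ* Matrix.diagonal (d (i + 1)) = v → Abv (w i) x (v ᵥ* E i) →
    ∃ y : Fin (q (i + 1 + 1)) → MonoidAlgebra ℂ G, Abv (w (i + 1)) x (v - y ᵥ* E (i + 1))

/-- the endomorphism `P - K ∂ - ∂ K` -/
noncomputable def Zp {q : ℕ → ℕ} (E : Mats G q) (d : ∀ i, Fin (q i) → MonoidAlgebra ℂ G)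
    (K : ∀ i, Matrix (Fin (q i)) (Fin (q (i + 1))) (MonoidAlgebra ℂ G)) :
    ∀ i, Matrix (Fin (q i)) (Fin (q i)) (MonoidAlgebra ℂ G)
  | 0 => Matrix.diagonal (d 0) - K 0 * E 0
  | (i + 1) => Matrix.diagonal (d (i + 1)) - K (i + 1) * E (i + 1) - E i * K i

theorem diag_row {k : ℕ} (d : Fin k → MonoidAlgebra ℂ G) (j : Fin k) :
    (Matrix.diagonal d) j = Pi.single j (d j) := by
  funext l
  by_cases h : l = j
  · subst h
    rw [Matrix.diagonal_apply_eq, Pi.single_eq_same]
  · rw [Matrix.diagonal_apply_ne _ (Ne.symm h), Pi.single_eq_of_ne h]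

theorem diag_sq {k : ℕ} {d : Fin k → MonoidAlgebra ℂ G} (h : DiagProj d) :
    Matrix.diagonal d * Matrix.diagonal d = Matrix.diagonal d := by
  rw [Matrix.diagonal_mul_diagonal]
  congr 1
  funext j
  exact h.sq j

theorem lsm_diag {k : ℕ} {d : Fin k → MonoidAlgebra ℂ G} (h : DiagProj d) (j : Fin k) :
    lsm (d j) ((Matrix.diagonal d) j) = (Matrix.diagonal d) j := by
  rw [diag_row]
  funext l
  change d j * (Pi.single j (d j) : Fin k → MonoidAlgebra ℂ G) l = _
  by_cases hl : l = j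
  · subst hl
    rw [Pi.single_eq_same, h.sq]
  · rw [Pi.single_eq_of_ne hl, mul_zero]

theorem lsm_row {k l : ℕ} {d : Fin k → MonoidAlgebra ℂ G}
    {M : Matrix (Fin k) (Fin l) (MonoidAlgebra ℂ G)} (h : Matrix.diagonal d * M = M) (j : Fin k) :
    lsm (d j) (M j) = M j := by
  funext i
  change d j * M j i = M j i
  have h1 := congrFun (congrFun h j) i
  rwa [Matrix.diagonal_mul] at h1

theorem row_mul {a b c : ℕ} (M : Matrix (Fin a) (Fin b) (MonoidAlgebra ℂ G))
    (N : Matrix (Fin b) (Fin c) (MonoidAlgebra ℂ G)) (j : Fin a) : (M * N) j = M j ᵥ* N := rfl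

theorem step {q : ℕ → ℕ} {E : Mats G q} {d : ∀ i, Fin (q i) → MonoidAlgebra ℂ G}
    {w : ∀ i, Fin (q i) → X} {m : ℕ} (h : OrbRel m E d w) (i : ℕ) (j : Fin (q i))
    (v : Fin (q i) → MonoidAlgebra ℂ G) (hv : lsm (d i j) v = v) (x : X)
    (y0 : Fin (q (i + 1)) → MonoidAlgebra ℂ G) (hy0 : SAbv (w i) x (v - y0 ᵥ* E i)) :
    ∃ y : Fin (q (i + 1)) → MonoidAlgebra ℂ G, SAbv (w i) x (v - y ᵥ* E i) ∧
      lsm (d i j) y = y ∧ y ᵥ* Matrix.diagonal (d (i + 1)) = y := by
  refine ⟨lsm (d i j) y0 ᵥ* Matrix.diagonal (d (i + 1)), ?_, ?_, ?_⟩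
  · have e : v - (lsm (d i j) y0 ᵥ* Matrix.diagonal (d (i + 1))) ᵥ* E i
        = lsm (d i j) (v - y0 ᵥ* E i) := by
      rw [Matrix.vecMul_vecMul, h.left, lsm_vecMul, lsm_sub, hv]
    rw [e]
    exact sabv_lsm (h.fix i j) hy0
  · rw [← lsm_vecMul]
    congr 1
    funext l
    change d i j * (d i j * y0 l) = d i j * y0 l
    rw [← mul_assoc, (h.proj i).sq]
  · rw [Matrix.vecMul_vecMul, diag_sq (h.proj (i + 1))]

theorem exists_orb_raising [NoMaxOrder X] (hX : OrdInv G X) {q : ℕ → ℕ} (E : Mats G q)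
    (d : ∀ i, Fin (q i) → MonoidAlgebra ℂ G) (w : ∀ i, Fin (q i) → X) (m : ℕ)
    (hc : ∀ i, i + 1 ≤ m → E (i + 1) * E i = 0) (h : OrbRel m E d w) :
    ∃ K : ∀ i, Matrix (Fin (q i)) (Fin (q (i + 1))) (MonoidAlgebra ℂ G),
      (∀ i, i ≤ m → ∀ j, lsm (d i j) (K i j) = K i j ∧
        K i j ᵥ* Matrix.diagonal (d (i + 1)) = K i j) ∧
      ∀ i, i ≤ m → ∀ j, SAbv (w i) (w i j) (Zp E d K i j) := by
  induction m with
  | zero =>
    have h1 : ∀ j : Fin (q 0), ∃ y : Fin (q (0 + 1)) → MonoidAlgebra ℂ G,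
        SAbv (w 0) (w 0 j) ((Matrix.diagonal (d 0)) j - y ᵥ* E 0) ∧
        lsm (d 0 j) y = y ∧ y ᵥ* Matrix.diagonal (d (0 + 1)) = y := by
      intro j
      obtain ⟨x, hx⟩ := exists_gt (w 0 j)
      obtain ⟨y, hy⟩ := h.zero x ((Matrix.diagonal (d 0)) j) (by
        rw [← row_mul, diag_sq (h.proj 0)])
      exact step h 0 j _ (lsm_diag (h.proj 0) j) _ y (hy.sabv hx)
    choose Y hY using h1
    refine ⟨fun i => if h : i = 0 then by
      subst h
      exact Matrix.of Y else 0, ?_, ?_⟩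
    · intro i hi
      obtain rfl : i = 0 := by omega
      intro j
      exact (hY j).2
    · intro i hi
      obtain rfl : i = 0 := by omega
      intro j
      exact (hY j).1
  | succ m ih =>
    have hm : OrbRel m E d w := ⟨h.proj, h.fix, h.left, h.right, fun i hi => h.mono i (by omega),
      h.zero, fun i hi => h.succ i (by omega)⟩
    obtain ⟨K, hKp, hK⟩ := ih (fun i hi => hc i (by omega)) hm
    have key : ∀ j : Fin (q (m + 1)), ∃ y : Fin (q (m + 1 + 1)) → MonoidAlgebra ℂ G,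
        SAbv (w (m + 1)) (w (m + 1) j)
          (((Matrix.diagonal (d (m + 1))) j - E m j ᵥ* K m) - y ᵥ* E (m + 1)) ∧
        lsm (d (m + 1) j) y = y ∧ y ᵥ* Matrix.diagonal (d (m + 1 + 1)) = y := by
      intro j
      set v : Fin (q (m + 1)) → MonoidAlgebra ℂ G :=
        (Matrix.diagonal (d (m + 1))) j - E m j ᵥ* K m with hv
      have hKP : K m * Matrix.diagonal (d (m + 1)) = K m := by
        funext l
        exact (hKp m le_rfl l).2
      have hv1 : v ᵥ* Matrix.diagonal (d (m + 1)) = v := by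
        rw [hv, Matrix.sub_vecMul, ← row_mul, diag_sq (h.proj (m + 1)), Matrix.vecMul_vecMul, hKP]
      have hv2 : lsm (d (m + 1) j) v = v := by
        rw [hv, lsm_sub, lsm_diag (h.proj (m + 1)), ← lsm_vecMul, lsm_row (h.left m)]
      have h1 : SAbv (w m) (w (m + 1) j) (v ᵥ* E m) := by
        have e0 : E m j = E m j ᵥ* Matrix.diagonal (d m) := by
          rw [← row_mul, h.right]
        have e1 : v ᵥ* E m = E m j ᵥ* Matrix.diagonal (d m) - E m j ᵥ* (K m * E m) := by
          rw [hv, Matrix.sub_vecMul, Matrix.vecMul_vecMul, ← row_mul, h.left, ← e0]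
        have e2 : v ᵥ* E m = E m j ᵥ* Zp E d K m := by
          rcases m with _ | l
          · change _ = E 0 j ᵥ* (Matrix.diagonal (d 0) - K 0 * E 0)
            rw [e1, Matrix.vecMul_sub]
          · change _ = E (l + 1) j ᵥ* (Matrix.diagonal (d (l + 1)) - K (l + 1) * E (l + 1)
              - E l * K l)
            have e3 : E (l + 1) j ᵥ* (E l * K l) = 0 := by
              rw [← Matrix.vecMul_vecMul]
              have e4 : E (l + 1) j ᵥ* E l = 0 := congrFun (hc l (by omega)) j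
              rw [e4, Matrix.zero_vecMul]
            rw [e1, Matrix.vecMul_sub, Matrix.vecMul_sub, e3, sub_zero]
        rw [e2]
        exact sabv_vecMul hX (h.mono m (by omega) j) (hK m le_rfl)
      obtain ⟨x, hx1, hx2⟩ := h1.exists_abv
      obtain ⟨y, hy⟩ := h.succ m (by omega) x v hv1 hx2
      exact step h (m + 1) j v hv2 _ y (hy.sabv hx1)
    choose Y hY using key
    refine ⟨Function.update K (m + 1) (Matrix.of Y), ?_, ?_⟩
    · intro i hi
      rcases Nat.lt_or_ge i (m + 1) with h2 | h2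
      · rw [Function.update_of_ne (by omega)]
        exact hKp i (by omega)
      · obtain rfl : i = m + 1 := by omega
        rw [Function.update_self]
        intro j
        exact (hY j).2
    · intro i hi
      rcases Nat.lt_or_ge i (m + 1) with h2 | h2
      · have e : Zp E d (Function.update K (m + 1) (Matrix.of Y)) i = Zp E d K i := by
          rcases i with _ | i
          · change Matrix.diagonal (d 0) - _ * E 0 = Matrix.diagonal (d 0) - K 0 * E 0
            rw [Function.update_of_ne (by omega)]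
          · change Matrix.diagonal (d (i + 1)) - _ * E (i + 1) - E i * _
              = Matrix.diagonal (d (i + 1)) - K (i + 1) * E (i + 1) - E i * K i
            rw [Function.update_of_ne (by omega), Function.update_of_ne (by omega)]
        rw [e]
        exact hK i (by omega)
      · obtain rfl : i = m + 1 := by omega
        intro j
        have e0 : Zp E d (Function.update K (m + 1) (Matrix.of Y)) (m + 1)
            = Matrix.diagonal (d (m + 1)) - Matrix.of Y * E (m + 1) - E m * K m := by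
          change Matrix.diagonal (d (m + 1)) - _ * E (m + 1) - E m * _ = _
          rw [Function.update_self, Function.update_of_ne (by omega)]
        have e : (Matrix.diagonal (d (m + 1)) - Matrix.of Y * E (m + 1) - E m * K m :
            Matrix (Fin (q (m + 1))) (Fin (q (m + 1))) (MonoidAlgebra ℂ G)) j
            = ((Matrix.diagonal (d (m + 1))) j - E m j ᵥ* K m) - Y j ᵥ* E (m + 1) := by
          change (Matrix.diagonal (d (m + 1))) j - Y j ᵥ* E (m + 1) - E m j ᵥ* K m = _
          abel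
        rw [e0, e]
        exact (hY j).1

theorem orb_rel_bound [NoMaxOrder X] (hX : OrdInv G X) {q : ℕ → ℕ} (E : Mats G q)
    (d : ∀ i, Fin (q i) → MonoidAlgebra ℂ G) (w : ∀ i, Fin (q i) → X) (m : ℕ)
    (hc : ∀ i, i + 1 ≤ m → E (i + 1) * E i = 0) (h : OrbRel m E d w) (i : ℕ) (hi : i ≤ m) :
    bet E i ≤ q i - ∑ j, ((d i j).coeff 1).re := by
  classical
  obtain ⟨K, hKp, hK⟩ := exists_orb_raising hX E d w m hc h
  have hPK : ∀ i, i ≤ m → Matrix.diagonal (d i) * K i = K i := by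
    intro i hi
    funext j
    funext l
    rw [Matrix.diagonal_mul]
    exact congrFun (hKp i hi j).1 l
  have hsub : ∀ {n : ℕ} (N Z : Matrix (Fin n) (Fin n) (MonoidAlgebra ℂ G))
      (e : Fin n → MonoidAlgebra ℂ G) (u : Fin n → X), DiagProj e →
      (∀ j, ∀ t ∈ (e j).coeff.support, ∀ x : X, t • x = x) → N = Matrix.diagonal e * (1 - Z) →
      (∀ j, SAbv u (u j) (Z j)) →
      vd (LinearMap.ker (opM N : EE G (Fin n) →ₗ[ℂ] EE G (Fin n)))
        ≤ n - ∑ j, ((e j).coeff 1).re := by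
    intro n N Z e u he hfix hN hZ
    have h1 := orb_raise hX u e he (fun j t ht => hfix j t ht _) Z ∅ (fun j _ => hZ j)
    rw [Finset.compl_empty] at h1
    rw [hN]
    exact h1
  have h1 := hK i hi
  rcases i with _ | i
  · refine (bet_le_zero E (K 0 * E 0) (K 0) rfl).trans
      (hsub _ (Zp E d K 0) (d 0) (w 0) (h.proj 0) (h.fix 0) ?_ h1)
    change _ = Matrix.diagonal (d 0) * (1 - (Matrix.diagonal (d 0) - K 0 * E 0))
    rw [Matrix.mul_sub, Matrix.mul_sub, Matrix.mul_one, diag_sq (h.proj 0), ← Matrix.mul_assoc,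
      hPK 0 hi]
    abel
  · refine (bet_le_succ E i (hc i hi) (K (i + 1) * E (i + 1) + E i * K i) (K (i + 1)) (K i)
      rfl).trans (hsub _ (Zp E d K (i + 1)) (d (i + 1)) (w (i + 1)) (h.proj _) (h.fix _) ?_ h1)
    change _ = Matrix.diagonal (d (i + 1)) * (1 - (Matrix.diagonal (d (i + 1))
      - K (i + 1) * E (i + 1) - E i * K i))
    rw [Matrix.mul_sub, Matrix.mul_sub, Matrix.mul_sub, Matrix.mul_one, diag_sq (h.proj _),
      ← Matrix.mul_assoc, ← Matrix.mul_assoc, hPK _ hi, h.left]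
    abel

end

end Run7.h31.Raise
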