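import Pool.Agent.Run7.h31.Raise.Orbifold2

set_option autoImplicit false
set_option linter.unusedSectionVars false

open scoped InnerProductSpace InnerProduct ENNReal
open scoped Matrix Pointwise

/-! The `L²`-Betti numbers of complexes with finite stabilizers. -/

namespace Run7.h31.Raise

open Pool.Agent.W649.ZL Pool.Agent.N309.LO Pool.Agent.N309.PD
open Pool.Agent.Results.MP_984acc_gt.OrderRaising

universe u v w z

/-- A complex of the chains of a complex on which `G` acts with finite stabilizers. In degree `i`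
there are `r i` orbits of cells, the representatives have the stabilizers `S i j`, which act on the
orientations by the characters `ε i j`. The chains are the row vectors `v` with
`v * orbMat (S i) (ε i) = v`, and the boundary operator is the right multiplication by `D i`. -/
structure IsOrbifoldComplex {G : Type u} [Group G] {r : ℕ → ℕ} (D : Matrices G r)
    (S : ∀ i, Fin (r i) → Subgroup G) (ε : ∀ i j, S i j →* ℤˣ) : Prop where
  finite : ∀ i j, Finite (S i j)
  comp : ∀ i, D (i + 1) * D i = 0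
  left : ∀ i, orbMat (S (i + 1)) (ε (i + 1)) * D i = D i
  right : ∀ i, D i * orbMat (S i) (ε i) = D i

/-- The square-summable harmonic cochains in degree `i`: the functions `F` in `harmonic D i` which
are equivariant under the stabilizers. The value `F (g, j)` is the value of the cochain on the
translate of the `j`-th representative by `g⁻¹`. -/
noncomputable def orbHarmonic {G : Type u} [Group G] {r : ℕ → ℕ} (D : Matrices G r)
    (S : ∀ i, Fin (r i) → Subgroup G) (ε : ∀ i j, S i j →* ℤˣ) (i : ℕ) : Set (L2 G (r i)) :=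
  {F | F ∈ harmonic D i ∧ ∀ (j : Fin (r i)) (s : S i j) (g : G),
    F ((s : G) * g, j) = ((ε i j s : ℤˣ) : ℤ) * F (g, j)}

open Classical in
/-- The `i`-th `L²`-Betti number of a complex with finite stabilizers: the von Neumann dimension of
the space of the harmonic cochains. -/
noncomputable def orbBetti {G : Type u} [Group G] {r : ℕ → ℕ} (D : Matrices G r)
    (S : ∀ i, Fin (r i) → Subgroup G) (ε : ∀ i j, S i j →* ℤˣ) (i : ℕ) : ℝ :=
  ∑ j : Fin (r i), (1 - Metric.infDist
    (lp.single 2 ((1 : G), j) (1 : ℂ) : L2 G (r i)) (orbHarmonic D S ε i) ^ 2)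

/-- The endomorphism of the chains of degree `i` with the matrix `Z` is homotopic to the identity:
the difference of the identity `orbMat (S i) (ε i)` and of `Z` is the sum of two products with the
boundary operators (of one product if `i = 0`). -/
def IsOrbHomotopicToOne {G : Type u} [Group G] {r : ℕ → ℕ} (D : Matrices G r)
    (S : ∀ i, Fin (r i) → Subgroup G) (ε : ∀ i j, S i j →* ℤˣ) :
    (i : ℕ) → Matrix (Fin (r i)) (Fin (r i)) (MonoidAlgebra ℂ G) → Prop
  | 0, Z => ∃ K : Matrix (Fin (r 0)) (Fin (r 1)) (MonoidAlgebra ℂ G),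
      orbMat (S 0) (ε 0) - Z = K * D 0
  | (i + 1), Z => ∃ (K : Matrix (Fin (r (i + 1))) (Fin (r (i + 2))) (MonoidAlgebra ℂ G))
      (L : Matrix (Fin (r i)) (Fin (r (i + 1))) (MonoidAlgebra ℂ G)),
      orbMat (S (i + 1)) (ε (i + 1)) - Z = K * D (i + 1) + D i * L

/-- The basis cochains have heights in the ordered `G`-set `X`. In the degrees at least `k` the
coboundary operators do not lower the heights, and for every `x` each cochain with finite support
whose coboundary has heights at least `x` is the sum of a coboundary and of a cochain of heights at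
least `x`. -/
structure IsOrbUpwardExact {G : Type u} [Group G] {X : Type v} [MulAction G X] [LinearOrder X]
    (k : ℕ) {r : ℕ → ℕ} (D : Matrices G r) (S : ∀ i, Fin (r i) → Subgroup G)
    (ε : ∀ i j, S i j →* ℤˣ) (w : ∀ i, Fin (r i) → X) : Prop where
  heights : ∀ i, k ≤ i → ∀ j, CoHeightsAtLeast (w (i + 1)) (w i j) (fun l => D i l j)
  exact : ∀ i, k ≤ i + 1 → ∀ (x : X) (v : Fin (r (i + 1)) → MonoidAlgebra ℂ G),
    orbMat (S (i + 1)) (ε (i + 1)) *ᵥ v = v → CoHeightsAtLeast (w (i + 2)) x (D (i + 1) *ᵥ v) →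
    ∃ y : Fin (r i) → MonoidAlgebra ℂ G, CoHeightsAtLeast (w (i + 1)) x (v - D i *ᵥ y)

section
variable {G : Type u} [Group G]

theorem orb_diag {n : ℕ} (S : Fin n → Subgroup G) (ε : ∀ j, S j →* ℤˣ) [∀ j, Finite (S j)] :
    DiagProj (fun j => orbIdem (S j) (ε j)) :=
  ⟨fun j => orb_idem (ε j), fun j => orb_sig (ε j)⟩

theorem orb_one {S : Subgroup G} [Finite S] (ε : S →* ℤˣ) :
    ((orbIdem S ε).coeff 1).re = 1 / (Nat.card S : ℝ) := by
  rw [orb_coeff_mem ε S.one_mem]
  have e : (⟨1, S.one_mem⟩ : S) = 1 := rfl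
  rw [e, map_one, Units.val_one, Int.cast_one]
  have h : (1 / (Nat.card S : ℂ)) = ((1 / (Nat.card S : ℝ) : ℝ) : ℂ) := by push_cast; rfl
  rw [h, Complex.ofReal_re]

theorem orb_ker_le {a b : ℕ} (P : Matrix (Fin b) (Fin b) (MonoidAlgebra ℂ G))
    (A : Matrix (Fin a) (Fin b) (MonoidAlgebra ℂ G)) (h : A * P = A) :
    LinearMap.ker (opM P : EE G (Fin b) →ₗ[ℂ] EE G (Fin b))
      ≤ LinearMap.ker (opM A : EE G (Fin b) →ₗ[ℂ] EE G (Fin a)) := by
  intro F hF
  have hF' : opM P F = 0 := hF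
  change opM A F = 0
  rw [← h, opM_mul_apply, hF', map_zero]

theorem orb_range_le {a b : ℕ} (P : Matrix (Fin b) (Fin b) (MonoidAlgebra ℂ G))
    (A : Matrix (Fin b) (Fin a) (MonoidAlgebra ℂ G)) (h : P * A = A) :
    LinearMap.range (opM A : EE G (Fin a) →ₗ[ℂ] EE G (Fin b))
      ≤ LinearMap.range (opM P : EE G (Fin b) →ₗ[ℂ] EE G (Fin b)) := by
  rintro _ ⟨F, rfl⟩
  refine ⟨opM A F, ?_⟩
  change opM P (opM A F) = opM A F
  rw [← opM_mul_apply, h]

theorem orb_fixed {n : ℕ} (S : Fin n → Subgroup G) (ε : ∀ j, S j →* ℤˣ) [∀ j, Finite (S j)]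
    (F : EE G (Fin n)) :
    F ∈ LinearMap.range (opM (orbMat S ε) : EE G (Fin n) →ₗ[ℂ] EE G (Fin n))
      ↔ ∀ (j : Fin n) (s : S j) (g : G), F ((s : G) * g, j) = ((ε j s : ℤˣ) : ℤ) * F (g, j) := by
  have h1 : F ∈ LinearMap.range (opM (orbMat S ε) : EE G (Fin n) →ₗ[ℂ] EE G (Fin n))
      ↔ opM (orbMat S ε) F = F := fixed_iff (orb_diag S ε) F
  rw [h1]
  have h2 : ∀ (j : Fin n) (g : G), opM (orbMat S ε) F (g, j)
      = conv (orbIdem (S j) (ε j)) (fun x => F (x, j)) g := by
    intro j g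
    rw [opM_apply, Finset.sum_eq_single j]
    · unfold orbMat
      rw [Matrix.diagonal_apply_eq]
    · intro l _ hl
      unfold orbMat
      rw [Matrix.diagonal_apply_ne _ (Ne.symm hl), conv_zero]
    · intro h
      exact absurd (Finset.mem_univ _) h
  constructor
  · intro h j
    apply (conv_equivariant (ε j) (fun x => F (x, j))).1
    intro g
    rw [← h2, h]
  · intro h
    ext ⟨g, j⟩
    rw [h2]
    exact (conv_equivariant (ε j) (fun x => F (x, j))).2 (h j) g

/-- the two versions of the Betti numbers -/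
theorem orb_betti_aux {r : ℕ → ℕ} (D : Matrices G r) (S : ∀ i, Fin (r i) → Subgroup G)
    (ε : ∀ i j, S i j →* ℤˣ) (i : ℕ) [∀ j, Finite (S i j)]
    (M : Submodule ℂ (EE G (Fin (r i)))) (hM : IsClosed (M : Set (EE G (Fin (r i)))))
    (h : harmonic D i = (M : Set (EE G (Fin (r i)))))
    (hU : LinearMap.ker (opM (orbMat (S i) (ε i)) :
      EE G (Fin (r i)) →ₗ[ℂ] EE G (Fin (r i))) ≤ M) :
    orbBetti D S ε i = betti D i - (r i - ∑ j, 1 / (Nat.card (S i j) : ℝ)) ∧
      0 ≤ orbBetti D S ε i := by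
  classical
  set U := LinearMap.ker (opM (orbMat (S i) (ε i)) :
      EE G (Fin (r i)) →ₗ[ℂ] EE G (Fin (r i))) with hUdef
  have hUc : IsClosed (U : Set (EE G (Fin (r i)))) := ContinuousLinearMap.isClosed_ker _
  have h1 : orbHarmonic D S ε i = ((M ⊓ Uᗮ : Submodule ℂ (EE G (Fin (r i)))) :
      Set (EE G (Fin (r i)))) := by
    ext F
    have hp : Uᗮ = LinearMap.range (opM (orbMat (S i) (ε i)) :
        EE G (Fin (r i)) →ₗ[ℂ] EE G (Fin (r i))) := range_perp (orb_diag (S i) (ε i))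
    constructor
    · rintro ⟨ha, hb⟩
      refine ⟨?_, ?_⟩
      · rw [h] at ha
        exact ha
      · change F ∈ Uᗮ
        rw [hp]
        exact (orb_fixed (S i) (ε i) F).2 hb
    · rintro ⟨ha, hb⟩
      refine ⟨?_, ?_⟩
      · rw [h]
        exact ha
      · have hb' : F ∈ Uᗮ := hb
        rw [hp] at hb'
        exact (orb_fixed (S i) (ε i) F).1 hb'
  have hcl : IsClosed ((M ⊓ Uᗮ : Submodule ℂ (EE G (Fin (r i)))) : Set (EE G (Fin (r i)))) := by
    rw [Submodule.coe_inf]
    exact hM.inter (Submodule.isClosed_orthogonal _)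
  have h2 : orbBetti D S ε i = vd (M ⊓ Uᗮ) := by
    rw [vd_eq_infDist _ hcl]
    unfold orbBetti
    rw [h1]
    refine Finset.sum_congr rfl fun j _ => ?_
    have e : (lp.single 2 ((1 : G), j) (1 : ℂ) : lp (fun _ : G × Fin (r i) => ℂ) 2)
        = (dl ((1 : G), j) : EE G (Fin (r i))) := by
      unfold dl
      congr 1
      exact Subsingleton.elim _ _
    rw [← e]
  refine ⟨?_, by rw [h2]; exact vd_nonneg _⟩
  rw [h2, vd_sub hUc hM hU, betti_eq D i M hM h]
  have h3 : vd U = r i - ∑ j, ((orbIdem (S i j) (ε i j)).coeff 1).re :=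
    (orb_diag (S i) (ε i)).dims.2.2
  rw [h3]
  congr 2
  exact Finset.sum_congr rfl fun j _ => orb_one (ε i j)

theorem orb_betti {r : ℕ → ℕ} {D : Matrices G r} {S : ∀ i, Fin (r i) → Subgroup G}
    {ε : ∀ i j, S i j →* ℤˣ} (h : IsOrbifoldComplex D S ε) (i : ℕ) :
    orbBetti D S ε i = betti D i - (r i - ∑ j, 1 / (Nat.card (S i j) : ℝ)) ∧
      0 ≤ orbBetti D S ε i := by
  have hf := h.finite i
  rcases i with _ | i
  · apply orb_betti_aux D S ε 0 _ (ContinuousLinearMap.isClosed_ker _) (harmonic_zero D)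
    exact orb_ker_le _ _ (h.right 0)
  · apply orb_betti_aux D S ε (i + 1) _ (harm_closed _ _) (harmonic_succ D i)
    unfold harm
    refine le_inf (orb_ker_le _ _ (h.right (i + 1))) ?_
    have h1 : (LinearMap.range (opM (orbMat (S (i + 1)) (ε (i + 1))) :
        EE G (Fin (r (i + 1))) →ₗ[ℂ] EE G (Fin (r (i + 1)))))ᗮ
        ≤ (LinearMap.range (opM (D i) : EE G (Fin (r i)) →ₗ[ℂ] EE G (Fin (r (i + 1)))))ᗮ :=
      Submodule.orthogonal_le (orb_range_le _ _ (h.left i))
    refine le_trans ?_ h1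
    have h2 := range_perp (orb_diag (S (i + 1)) (ε (i + 1)))
    have h3 : (LinearMap.range (opM (orbMat (S (i + 1)) (ε (i + 1))) :
        EE G (Fin (r (i + 1))) →ₗ[ℂ] EE G (Fin (r (i + 1)))))
        = (LinearMap.ker (opM (orbMat (S (i + 1)) (ε (i + 1))) :
        EE G (Fin (r (i + 1))) →ₗ[ℂ] EE G (Fin (r (i + 1)))))ᗮ := h2.symm
    rw [h3]
    exact Submodule.le_orthogonal_orthogonal _

theorem orb_bet_le {r : ℕ → ℕ} {D : Matrices G r} {S : ∀ i, Fin (r i) → Subgroup G}
    {ε : ∀ i j, S i j →* ℤˣ} (h : IsOrbifoldComplex D S ε) (i : ℕ)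
    (Z : Matrix (Fin (r i)) (Fin (r i)) (MonoidAlgebra ℂ G)) (hZ : IsOrbHomotopicToOne D S ε i Z) :
    betti D i ≤ vd (LinearMap.ker (opM (orbMat (S i) (ε i) * (1 - Z)) :
      EE G (Fin (r i)) →ₗ[ℂ] EE G (Fin (r i)))) ∧
    betti D i ≤ vd (LinearMap.ker (opM ((1 - Z) * orbMat (S i) (ε i)) :
      EE G (Fin (r i)) →ₗ[ℂ] EE G (Fin (r i)))) := by
  have hf := h.finite i
  have hsq : orbMat (S i) (ε i) * orbMat (S i) (ε i) = orbMat (S i) (ε i) :=
    diag_sq (orb_diag (S i) (ε i))
  rw [betti_bet]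
  rcases i with _ | i
  · obtain ⟨K, hK⟩ := hZ
    constructor
    · refine bet_le_zero D _ (orbMat (S 0) (ε 0) * K) ?_
      rw [Matrix.mul_assoc, ← hK, Matrix.mul_sub, Matrix.mul_sub, Matrix.mul_one, hsq]
    · refine bet_le_zero D _ K ?_
      rw [← h.right 0, ← Matrix.mul_assoc, ← hK, Matrix.sub_mul, Matrix.sub_mul, Matrix.one_mul, hsq]
  · obtain ⟨K, L, hKL⟩ := hZ
    constructor
    · refine bet_le_succ D i (h.comp i) _ (orbMat (S (i + 1)) (ε (i + 1)) * K) L ?_
      have h1 : D i * L = orbMat (S (i + 1)) (ε (i + 1)) * (D i * L) := by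
        rw [← Matrix.mul_assoc, h.left]
      rw [h1, Matrix.mul_assoc, ← Matrix.mul_add, ← hKL, Matrix.mul_sub, Matrix.mul_sub,
        Matrix.mul_one, hsq]
    · refine bet_le_succ D i (h.comp i) _ K (L * orbMat (S (i + 1)) (ε (i + 1))) ?_
      have h1 : K * D (i + 1) = K * D (i + 1) * orbMat (S (i + 1)) (ε (i + 1)) := by
        rw [Matrix.mul_assoc, h.right]
      rw [h1, ← Matrix.mul_assoc (D i), ← Matrix.add_mul, ← hKL, Matrix.sub_mul, Matrix.sub_mul,
        Matrix.one_mul, hsq]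

theorem adjM_mul' {a b c : ℕ} (A : Matrix (Fin a) (Fin b) (MonoidAlgebra ℂ G))
    (B : Matrix (Fin b) (Fin c) (MonoidAlgebra ℂ G)) : adjM (A * B) = adjM B * adjM A := by
  funext i j
  change sig (∑ l, A j l * B l i) = ∑ l, sig (B l i) * sig (A j l)
  rw [sig_sum]
  exact Finset.sum_congr rfl fun l _ => sig_mul _ _

theorem adjM_orb {n : ℕ} (S : Fin n → Subgroup G) (ε : ∀ j, S j →* ℤˣ) [∀ j, Finite (S j)] :
    adjM (orbMat S ε) = orbMat S ε := (orb_diag S ε).matAdj

end

section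
variable {G : Type u} [Group G] {X : Type v} [MulAction G X] [LinearOrder X]

theorem orb_fix (hX : OrdInv G X) {S : Subgroup G} [Finite S] (ε : S →* ℤˣ) (t : G)
    (ht : t ∈ (orbIdem S ε).coeff.support) (x : X) : t • x = x := by
  apply finite_fix hX S
  by_contra h
  rw [Finsupp.mem_support_iff, orb_coeff_not ε h] at ht
  exact ht rfl

theorem orb_raised (hX : OrdInv G X) {r : ℕ → ℕ} {D : Matrices G r}
    {S : ∀ i, Fin (r i) → Subgroup G} {ε : ∀ i j, S i j →* ℤˣ} (h : IsOrbifoldComplex D S ε)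
    (i : ℕ) (Z : Matrix (Fin (r i)) (Fin (r i)) (MonoidAlgebra ℂ G))
    (hZ : IsOrbHomotopicToOne D S ε i Z) (w : Fin (r i) → X) (T : Finset (Fin (r i)))
    (hT : (∀ j, j ∉ T → HeightsMoreThan w (w j) (Z j)) ∨
      (∀ j, j ∉ T → CoHeightsMoreThan w (w j) (fun l => Z l j))) :
    orbBetti D S ε i ≤ ∑ j ∈ T, 1 / (Nat.card (S i j) : ℝ) := by
  classical
  have hf := h.finite i
  rw [(orb_betti h i).1]
  have key : betti D i ≤ r i - ∑ j ∈ Tᶜ, ((orbIdem (S i j) (ε i j)).coeff 1).re := by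
    rcases hT with hT | hT
    · exact (orb_bet_le h i Z hZ).1.trans (orb_raise hX w _ (orb_diag (S i) (ε i))
        (fun j t ht => orb_fix hX (ε i j) t ht _) Z T hT)
    · refine (orb_bet_le h i Z hZ).2.trans ?_
      rw [← adj_ker, adjM_mul', adjM_orb, adjM_one_sub]
      refine orb_raise hX w _ (orb_diag (S i) (ε i))
        (fun j t ht => orb_fix hX (ε i j) t ht _) (adjM Z) T ?_
      intro j hj l g hg
      have h1 : g⁻¹ ∈ (Z l j).coeff.support := by
        rw [Finsupp.mem_support_iff] at hg ⊢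
        intro h0
        apply hg
        change (sig (Z l j)).coeff g = 0
        rw [sig_coeff, h0, map_zero]
      have h2 := hT j hj l g⁻¹ h1
      rwa [inv_inv] at h2
  have e1 : ∑ j ∈ Tᶜ, ((orbIdem (S i j) (ε i j)).coeff 1).re
      = ∑ j ∈ Tᶜ, 1 / (Nat.card (S i j) : ℝ) := Finset.sum_congr rfl fun j _ => orb_one (ε i j)
  have e2 := Finset.sum_compl_add_sum T (fun j => 1 / (Nat.card (S i j) : ℝ))
  rw [e1] at key
  linarith

theorem orbD_right {r : ℕ → ℕ} {D : Matrices G r} {S : ∀ i, Fin (r i) → Subgroup G}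
    {ε : ∀ i j, S i j →* ℤˣ} (h : IsOrbifoldComplex D S ε) (a b : ℕ) (e : a = b + 1) :
    adjM (Dc D a b e) * orbMat (S a) (ε a) = adjM (Dc D a b e) ∧
    orbMat (S b) (ε b) * adjM (Dc D a b e) = adjM (Dc D a b e) := by
  subst e
  have hf := h.finite b
  have hf' := h.finite (b + 1)
  rw [Dc_rfl]
  constructor
  · rw [← adjM_orb (S (b + 1)) (ε (b + 1)), ← adjM_mul', h.left]
  · rw [← adjM_orb (S b) (ε b), ← adjM_mul', h.right]

theorem orb_vec {n : ℕ} (S : Fin n → Subgroup G) (ε : ∀ j, S j →* ℤˣ) [∀ j, Finite (S j)]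
    (v : Fin n → MonoidAlgebra ℂ G)
    (h : (fun j => sig (v j)) ᵥ* orbMat S ε = fun j => sig (v j)) : orbMat S ε *ᵥ v = v := by
  have h1 := vecMul_adjM (orbMat S ε) (fun j => sig (v j))
  rw [adjM_orb, h] at h1
  funext j
  have h2 := congrFun h1 j
  simp only [sig_sig] at h2
  have h3 := congrArg sig h2
  rw [sig_sig, sig_sig] at h3
  exact h3.symm

theorem orb_rel_zero {r : ℕ → ℕ} (D : Matrices G r) (S : ∀ i, Fin (r i) → Subgroup G)
    (ε : ∀ i j, S i j →* ℤˣ) (hf : ∀ i j, Finite (S i j)) (w : ∀ i, Fin (r i) → X) (a b : ℕ)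
    (e : a = b + 1) (h0 : r (b + 2) = 0)
    (h : ∀ (x : X) (v : Fin (r (b + 1)) → MonoidAlgebra ℂ G),
      orbMat (S (b + 1)) (ε (b + 1)) *ᵥ v = v → CoHeightsAtLeast (w (b + 2)) x (D (b + 1) *ᵥ v) →
      ∃ y : Fin (r b) → MonoidAlgebra ℂ G, CoHeightsAtLeast (w (b + 1)) x (v - D b *ᵥ y))
    (x : X) (v : Fin (r a) → MonoidAlgebra ℂ G) (hv : v ᵥ* orbMat (S a) (ε a) = v) :
    ∃ y : Fin (r b) → MonoidAlgebra ℂ G, Abv (w a) x (v - y ᵥ* adjM (Dc D a b e)) := by
  subst e
  have hf' := hf (b + 1)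
  obtain ⟨v', rfl⟩ := sig_surj v
  obtain ⟨y, hy⟩ := h x v' (orb_vec _ _ _ hv) (by
    intro j
    have := j.2
    omega)
  refine ⟨fun j => sig (y j), ?_⟩
  rw [Dc_rfl, vecMul_sub_sig, abv_sig]
  exact hy

theorem orb_rel_succ {r : ℕ → ℕ} (D : Matrices G r) (S : ∀ i, Fin (r i) → Subgroup G)
    (ε : ∀ i j, S i j →* ℤˣ) (hf : ∀ i j, Finite (S i j)) (w : ∀ i, Fin (r i) → X) (a b c : ℕ)
    (e : a = b + 1) (e' : b = c + 1)
    (h : ∀ (x : X) (v : Fin (r (c + 1)) → MonoidAlgebra ℂ G),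
      orbMat (S (c + 1)) (ε (c + 1)) *ᵥ v = v → CoHeightsAtLeast (w (c + 2)) x (D (c + 1) *ᵥ v) →
      ∃ y : Fin (r c) → MonoidAlgebra ℂ G, CoHeightsAtLeast (w (c + 1)) x (v - D c *ᵥ y))
    (x : X) (v : Fin (r b) → MonoidAlgebra ℂ G) (hp : v ᵥ* orbMat (S b) (ε b) = v)
    (hv : Abv (w a) x (v ᵥ* adjM (Dc D a b e))) :
    ∃ y : Fin (r c) → MonoidAlgebra ℂ G, Abv (w b) x (v - y ᵥ* adjM (Dc D b c e')) := by
  subst e'
  subst e
  have hf' := hf (c + 1)
  obtain ⟨v', rfl⟩ := sig_surj v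
  obtain ⟨y, hy⟩ := h x v' (orb_vec _ _ _ hp) (by
    rw [Dc_rfl, vecMul_adjM, abv_sig] at hv
    simp only [sig_sig] at hv
    exact hv)
  refine ⟨fun j => sig (y j), ?_⟩
  rw [Dc_rfl, vecMul_sub_sig, abv_sig]
  exact hy

theorem orb_co_vanish [NoMaxOrder X] (hX : OrdInv G X) {r : ℕ → ℕ} {D : Matrices G r}
    {S : ∀ i, Fin (r i) → Subgroup G} {ε : ∀ i j, S i j →* ℤˣ} (hD : IsOrbifoldComplex D S ε)
    (N : ℕ) (hN : ∀ i, N < i → r i = 0) (w : ∀ i, Fin (r i) → X)
    (k : ℕ) (hk : 1 ≤ k) (h : IsOrbUpwardExact k D S ε w) (i : ℕ) (hi : k ≤ i) :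
    orbBetti D S ε i = 0 := by
  apply le_antisymm _ (orb_betti hD i).2
  rcases Nat.lt_or_ge N i with h1 | h1
  · unfold orbBetti
    apply le_of_eq
    apply Finset.sum_eq_zero
    intro j _
    have h3 := j.2
    have h4 := hN i h1
    omega
  · have e : ∀ j (hj : j < N), dualD D N j = adjM (Dc D (N - j) (N - (j + 1)) (by omega)) := by
      intro j hj
      unfold dualD
      rw [dif_pos hj]
    have e' : ∀ j, ¬ (j < N) → dualD D N j = 0 := by
      intro j hj
      unfold dualD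
      rw [dif_neg hj]
    have hrel : OrbRel (N - k) (q := fun i => r (N - i)) (dualD D N)
        (fun i j => orbIdem (S (N - i) j) (ε (N - i) j)) (fun i => w (N - i)) := by
      constructor
      · intro j
        have := hD.finite (N - j)
        exact orb_diag _ _
      · intro j l t ht x
        have := hD.finite (N - j) l
        exact orb_fix hX _ t ht x
      · intro j
        by_cases hj : j < N
        · rw [e j hj]
          exact (orbD_right hD _ _ _).2
        · rw [e' j hj, Matrix.mul_zero]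
      · intro j
        by_cases hj : j < N
        · rw [e j hj]
          exact (orbD_right hD _ _ _).1
        · rw [e' j hj, Matrix.zero_mul]
      · intro j hj l
        rw [e j (by omega)]
        apply Dc_mono
        apply h.heights
        omega
      · intro x v hv
        rw [e 0 (by omega)]
        refine orb_rel_zero D S ε hD.finite w _ _ _ ?_ ?_ x v hv
        · apply hN
          omega
        · apply h.exact
          omega
      · intro j hj x v hp hv
        rw [e j (by omega)] at hv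
        rw [e (j + 1) (by omega)]
        refine orb_rel_succ D S ε hD.finite w _ _ _ _ _ ?_ x v hp hv
        apply h.exact
        omega
    have h2 := orb_rel_bound hX (q := fun i => r (N - i)) (dualD D N)
      (fun i j => orbIdem (S (N - i) j) (ε (N - i) j)) (fun i => w (N - i)) (N - k)
      (by
        intro j hj
        rw [e j (by omega), e (j + 1) (by omega)]
        exact Dc_comp D (N - j) (N - (j + 1)) (N - (j + 1 + 1)) _ _ (hD.comp _)) hrel (N - i)
        (by omega)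
    rw [dual_bet D N (N - i) (hN _ (Nat.lt_succ_self N)) (by omega)] at h2
    have h3 : ∀ (a : ℕ), a = i → betti D a ≤ r a - ∑ j, ((orbIdem (S a j) (ε a j)).coeff 1).re →
        orbBetti D S ε i ≤ 0 := by
      intro a ha hle
      subst ha
      have hf := hD.finite a
      rw [(orb_betti hD a).1]
      have e1 : ∑ j, ((orbIdem (S a j) (ε a j)).coeff 1).re
          = ∑ j, 1 / (Nat.card (S a j) : ℝ) := Finset.sum_congr rfl fun j _ => orb_one (ε a j)
      rw [e1] at hle
      linarith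
    exact h3 (N - (N - i)) (Nat.sub_sub_self h1) h2

end

end Run7.h31.Raise
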