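import Pool.Agent.Run7.h31.Raise.Euler

set_option autoImplicit false
set_option linter.unusedSectionVars false

open scoped InnerProductSpace InnerProduct ENNReal
open scoped Matrix Pointwise

/-! Endomorphisms which raise heights and are homotopic to the identity, for arbitrary complexes. -/

namespace Run7.h31.Raise

open Pool.Agent.W649.ZL Pool.Agent.N309.LO Pool.Agent.N309.PD
open Pool.Agent.Results.MP_984acc_gt.OrderRaising

universe u v w z

section
variable {G : Type u} [Group G] {X : Type v} [MulAction G X] [LinearOrder X]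

/-- relative exactness in the degrees at most `m` -/
structure RelUpper {q : ℕ → ℕ} (m : ℕ) (E : Mats G q) (w : ∀ i, Fin (q i) → X) : Prop where
  mono : ∀ i, i + 1 ≤ m → ∀ k, Abv (w i) (w (i + 1) k) (E i k)
  zero : ∀ (x : X) (v : Fin (q 0) → MonoidAlgebra ℂ G), ∃ y : Fin (q (0 + 1)) → MonoidAlgebra ℂ G,
    Abv (w 0) x (v - y ᵥ* E 0)
  succ : ∀ i, i + 1 ≤ m → ∀ (x : X) (v : Fin (q (i + 1)) → MonoidAlgebra ℂ G),
    Abv (w i) x (v ᵥ* E i) → ∃ y : Fin (q (i + 1 + 1)) → MonoidAlgebra ℂ G,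
      Abv (w (i + 1)) x (v - y ᵥ* E (i + 1))

/-- the endomorphism `1 - K ∂ - ∂ K` -/
noncomputable def Zz {q : ℕ → ℕ} (E : Mats G q)
    (K : ∀ i, Matrix (Fin (q i)) (Fin (q (i + 1))) (MonoidAlgebra ℂ G)) :
    ∀ i, Matrix (Fin (q i)) (Fin (q i)) (MonoidAlgebra ℂ G)
  | 0 => 1 - K 0 * E 0
  | (i + 1) => 1 - K (i + 1) * E (i + 1) - E i * K i

theorem exists_rel_raising [NoMaxOrder X] (hX : OrdInv G X) {q : ℕ → ℕ} (E : Mats G q)
    (w : ∀ i, Fin (q i) → X) (m : ℕ) (hc : ∀ i, i + 1 ≤ m → E (i + 1) * E i = 0)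
    (h : RelUpper m E w) :
    ∃ K : ∀ i, Matrix (Fin (q i)) (Fin (q (i + 1))) (MonoidAlgebra ℂ G),
      ∀ i, i ≤ m → ∀ j, SAbv (w i) (w i j) (Zz E K i j) := by
  induction m with
  | zero =>
    have h1 : ∀ j : Fin (q 0), ∃ y : Fin (q (0 + 1)) → MonoidAlgebra ℂ G,
        SAbv (w 0) (w 0 j) (Pi.single j 1 - y ᵥ* E 0) := by
      intro j
      obtain ⟨x, hx⟩ := exists_gt (w 0 j)
      obtain ⟨y, hy⟩ := h.zero x (Pi.single j 1)
      exact ⟨y, hy.sabv hx⟩
    choose Y hY using h1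
    refine ⟨fun i => if h : i = 0 then by
      subst h
      exact Matrix.of Y else 0, ?_⟩
    intro i hi
    obtain rfl : i = 0 := by omega
    intro j
    have e : (1 - Matrix.of Y * E 0 : Matrix (Fin (q 0)) (Fin (q 0)) (MonoidAlgebra ℂ G)) j
        = Pi.single j 1 - Y j ᵥ* E 0 := by
      rw [← single_vecMul (1 - Matrix.of Y * E 0 : Matrix (Fin (q 0)) (Fin (q 0))
        (MonoidAlgebra ℂ G)) j, Matrix.vecMul_sub, Matrix.vecMul_one,
        ← Matrix.vecMul_vecMul, single_vecMul]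
      rfl
    have h2 := hY j
    rw [← e] at h2
    exact h2
  | succ m ih =>
    obtain ⟨K, hK⟩ := ih (fun i hi => hc i (by omega))
      ⟨fun i hi => h.mono i (by omega), h.zero, fun i hi => h.succ i (by omega)⟩
    have key : ∀ j : Fin (q (m + 1)), ∃ y : Fin (q (m + 1 + 1)) → MonoidAlgebra ℂ G,
        SAbv (w (m + 1)) (w (m + 1) j) ((Pi.single j 1 - E m j ᵥ* K m) - y ᵥ* E (m + 1)) := by
      intro j
      set v : Fin (q (m + 1)) → MonoidAlgebra ℂ G := Pi.single j 1 - E m j ᵥ* K m with hv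
      have h1 : SAbv (w m) (w (m + 1) j) (v ᵥ* E m) := by
        have e1 : v ᵥ* E m = E m j - E m j ᵥ* (K m * E m) := by
          rw [hv, Matrix.sub_vecMul, single_vecMul, Matrix.vecMul_vecMul]
        have e2 : v ᵥ* E m = E m j ᵥ* Zz E K m := by
          rcases m with _ | l
          · change _ = E 0 j ᵥ* (1 - K 0 * E 0)
            rw [e1, Matrix.vecMul_sub, Matrix.vecMul_one]
          · change _ = E (l + 1) j ᵥ* (1 - K (l + 1) * E (l + 1) - E l * K l)
            have e3 : E (l + 1) j ᵥ* (E l * K l) = 0 := by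
              rw [← Matrix.vecMul_vecMul]
              have e4 : E (l + 1) j ᵥ* E l = 0 := congrFun (hc l (by omega)) j
              rw [e4, Matrix.zero_vecMul]
            rw [e1, Matrix.vecMul_sub, Matrix.vecMul_sub, Matrix.vecMul_one, e3, sub_zero]
        rw [e2]
        exact sabv_vecMul hX (h.mono m (by omega) j) (hK m le_rfl)
      obtain ⟨x, hx1, hx2⟩ := h1.exists_abv
      obtain ⟨y, hy⟩ := h.succ m (by omega) x v hx2
      exact ⟨y, hy.sabv hx1⟩
    choose Y hY using key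
    refine ⟨Function.update K (m + 1) (Matrix.of Y), ?_⟩
    intro i hi
    rcases Nat.lt_or_ge i (m + 1) with h2 | h2
    · have e : Zz E (Function.update K (m + 1) (Matrix.of Y)) i = Zz E K i := by
        rcases i with _ | i
        · change 1 - _ * E 0 = 1 - K 0 * E 0
          rw [Function.update_of_ne (by omega)]
        · change 1 - _ * E (i + 1) - E i * _ = 1 - K (i + 1) * E (i + 1) - E i * K i
          rw [Function.update_of_ne (by omega), Function.update_of_ne (by omega)]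
      rw [e]
      exact hK i (by omega)
    · obtain rfl : i = m + 1 := by omega
      intro j
      have e0 : Zz E (Function.update K (m + 1) (Matrix.of Y)) (m + 1)
          = 1 - Matrix.of Y * E (m + 1) - E m * K m := by
        change 1 - _ * E (m + 1) - E m * _ = _
        rw [Function.update_self, Function.update_of_ne (by omega)]
      have e : (1 - Matrix.of Y * E (m + 1) - E m * K m : Matrix (Fin (q (m + 1)))
          (Fin (q (m + 1))) (MonoidAlgebra ℂ G)) j
          = (Pi.single j 1 - E m j ᵥ* K m) - Y j ᵥ* E (m + 1) := by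
        rw [← single_vecMul (1 - Matrix.of Y * E (m + 1) - E m * K m : Matrix (Fin (q (m + 1)))
          (Fin (q (m + 1))) (MonoidAlgebra ℂ G)) j, Matrix.vecMul_sub,
          Matrix.vecMul_sub, Matrix.vecMul_one, ← Matrix.vecMul_vecMul, ← Matrix.vecMul_vecMul,
          single_vecMul, single_vecMul]
        change Pi.single j 1 - Y j ᵥ* E (m + 1) - E m j ᵥ* K m = _
        abel
      rw [e0, e]
      exact hY j

end

section
variable {G : Type u} [Group G]

theorem adj_ker {n : ℕ} (N : Matrix (Fin n) (Fin n) (MonoidAlgebra ℂ G)) :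
    vd (LinearMap.ker (opM (adjM N) : EE G (Fin n) →ₗ[ℂ] EE G (Fin n)))
      = vd (LinearMap.ker (opM N : EE G (Fin n) →ₗ[ℂ] EE G (Fin n))) := by
  have h1 := ker_add_range (opM N) (opM_eqv N)
  have h2 := ker_add_range (opM (adjM N)) (opM_eqv (adjM N))
  have h3 := vd_range_adjoint (opM N) (opM_eqv N)
  rw [opM_adj] at h3
  linarith

theorem bet_le_zero {r : ℕ → ℕ} (D : Mats G r)
    (N : Matrix (Fin (r 0)) (Fin (r 0)) (MonoidAlgebra ℂ G))
    (K : Matrix (Fin (r 0)) (Fin (r (0 + 1))) (MonoidAlgebra ℂ G)) (h : N = K * D 0) :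
    bet D 0 ≤ vd (LinearMap.ker (opM N : EE G (Fin (r 0)) →ₗ[ℂ] EE G (Fin (r 0)))) := by
  apply vd_mono
  intro F hF
  have hF' : opM (D 0) F = 0 := hF
  change opM N F = 0
  rw [h, opM_mul_apply, hF', map_zero]

theorem bet_le_succ {r : ℕ → ℕ} (D : Mats G r) (i : ℕ) (hc : D (i + 1) * D i = 0)
    (N : Matrix (Fin (r (i + 1))) (Fin (r (i + 1))) (MonoidAlgebra ℂ G))
    (K : Matrix (Fin (r (i + 1))) (Fin (r (i + 1 + 1))) (MonoidAlgebra ℂ G))
    (L : Matrix (Fin (r i)) (Fin (r (i + 1))) (MonoidAlgebra ℂ G))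
    (h : N = K * D (i + 1) + D i * L) :
    bet D (i + 1) ≤ vd (LinearMap.ker
      (opM N : EE G (Fin (r (i + 1))) →ₗ[ℂ] EE G (Fin (r (i + 1))))) := by
  change vd (harm (opM (D (i + 1))) (opM (D i))) ≤ _
  apply harm_le_ker (D i) (D (i + 1)) N L K hc
  rw [h]
  exact add_comm _ _

/-- the vanishing theorem for arbitrary complexes -/
theorem rel_vanish {X : Type v} [MulAction G X] [LinearOrder X] [NoMaxOrder X] (hX : OrdInv G X)
    {q : ℕ → ℕ} (E : Mats G q) (w : ∀ i, Fin (q i) → X) (m : ℕ)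
    (hc : ∀ i, i + 1 ≤ m → E (i + 1) * E i = 0) (h : RelUpper m E w) (i : ℕ) (hi : i ≤ m) :
    bet E i ≤ 0 := by
  obtain ⟨K, hK⟩ := exists_rel_raising hX E w m hc h
  have hsub : ∀ {n : ℕ} (Z N : Matrix (Fin n) (Fin n) (MonoidAlgebra ℂ G)) (u : Fin n → X),
      N = 1 - Z → (∀ j, SAbv u (u j) (Z j)) →
      vd (LinearMap.ker (opM N : EE G (Fin n) →ₗ[ℂ] EE G (Fin n))) ≤ 0 := by
    intro n Z N u hN hZ
    have h1 := raise_bound hX u Z ∅ (fun j _ => hZ j)
    rw [Finset.card_empty, Nat.cast_zero] at h1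
    rw [hN]
    exact h1
  have h1 := hK i hi
  rcases i with _ | i
  · refine (bet_le_zero E (K 0 * E 0) (K 0) rfl).trans (hsub (Zz E K 0) _ (w 0) ?_ h1)
    change _ = 1 - (1 - K 0 * E 0)
    rw [sub_sub_cancel]
  · refine (bet_le_succ E i (hc i hi) (K (i + 1) * E (i + 1) + E i * K i) (K (i + 1)) (K i)
      rfl).trans (hsub (Zz E K (i + 1)) _ (w (i + 1)) ?_ h1)
    change _ = 1 - (1 - K (i + 1) * E (i + 1) - E i * K i)
    rw [sub_sub, sub_sub_cancel]

end

end Run7.h31.Raise
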