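import Pool.Agent.Run7.h31.Raise.IndexBetti
import Pool.Agent.Run7.h31.Raise.Cochain

set_option autoImplicit false
set_option linter.unusedSectionVars false

open scoped Matrix

/-! Restrictions of complexes to subgroups of finite index. -/

namespace Run7.h31.Raise

open Pool.Agent.Results.MP_984acc_gt.OrderRaising Pool.Agent.W649.ZL

universe u v w z

/-- `D'` is the restriction of the complex `D` to the subgroup `H`: with representatives `s` of the
left cosets of `H`, the basis elements of `D'` are the translates by the inverses of the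
representatives of the basis elements of `D`, and the entries of `D'` are the corresponding blocks of
the entries of `D`. -/
def IsRestriction {G : Type u} [Group G] {H : Subgroup G} {r r' : ℕ → ℕ} (D : Matrices G r)
    (D' : Matrices H r') : Prop :=
  ∃ (s : G ⧸ H → G) (e : ∀ i, Fin (r' i) ≃ (G ⧸ H) × Fin (r i)), (∀ q, (s q : G ⧸ H) = q) ∧
    ∀ i j k (h : H), (D' i j k).coeff h
      = (D i (e (i + 1) j).2 (e i k).2).coeff (s (e (i + 1) j).1 * h * (s (e i k).1)⁻¹)

section
variable {G : Type u} [Group G] {H : Subgroup G}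

theorem trans_of {s : G ⧸ H → G} (h : ∀ q, (s q : G ⧸ H) = q) : IsTrans H s := by
  intro g
  refine ⟨(g : G ⧸ H), ?_, ?_⟩
  · change (s (g : G ⧸ H))⁻¹ * g ∈ H
    rw [← QuotientGroup.eq]
    exact h _
  · intro q hq
    have hq' : (s q)⁻¹ * g ∈ H := hq
    rw [← QuotientGroup.eq, h q] at hq'
    exact hq'

theorem restriction_res {r r' : ℕ → ℕ} {D : Matrices G r} {D' : Matrices H r'}
    (h : IsRestriction D D') : ∃ (s : G ⧸ H → G) (e : ∀ i, Fin (r' i) ≃ (G ⧸ H) × Fin (r i)),
      IsTrans H s ∧ ∀ i, D' i = resM s (e (i + 1)) (e i) (D i) := by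
  obtain ⟨s, e, hs, he⟩ := h
  refine ⟨s, e, trans_of hs, fun i => ?_⟩
  funext j k
  apply rr_ext
  intro l
  rw [he]
  rfl

theorem comp_res [H.FiniteIndex] {r r' : ℕ → ℕ} {D : Matrices G r} {D' : Matrices H r'}
    (h : IsRestriction D D') (hc : ∀ i, D (i + 1) * D i = 0) (i : ℕ) : D' (i + 1) * D' i = 0 := by
  classical
  have : Fintype (G ⧸ H) := Fintype.ofFinite _
  obtain ⟨s, e, hs, he⟩ := restriction_res h
  rw [he, he]
  refine (resM_mul hs (e (i + 1 + 1)) (e (i + 1)) (e i) (D (i + 1)) (D i)).trans ?_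
  rw [hc]
  funext j k
  exact rr_zero H _ _

theorem harmonic_restr [Fintype (G ⧸ H)] {r r' : ℕ → ℕ} {D : Matrices G r} {D' : Matrices H r'}
    {s : G ⧸ H → G} (e : ∀ i, Fin (r' i) ≃ (G ⧸ H) × Fin (r i)) (hs : IsTrans H s)
    (he : ∀ i, D' i = resM s (e (i + 1)) (e i) (D i)) (i : ℕ) (F : L2 G (r i)) :
    (cE (hE hs (e i)) F : L2 H (r' i)) ∈ harmonic D' i ↔ F ∈ harmonic D i := by
  rcases i with _ | i
  · change IsCocycle (D' 0) _ ↔ _
    rw [he]
    exact cocycle_iff hs (D 0) (e (0 + 1)) (e 0) F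
  · change (IsCocycle (D' (i + 1)) _ ∧ IsCycle (D' i) _) ↔ _
    rw [he, he]
    exact and_congr (cocycle_iff hs (D (i + 1)) (e (i + 1 + 1)) (e (i + 1)) F)
      (cycle_iff hs (D i) (e (i + 1)) (e i) F)

/-- The Betti numbers are multiplied by the index. -/
theorem betti_restr [H.FiniteIndex] {r r' : ℕ → ℕ} {D : Matrices G r} {D' : Matrices H r'}
    (h : IsRestriction D D') (i : ℕ) : betti D' i = H.index * betti D i := by
  classical
  have : Fintype (G ⧸ H) := Fintype.ofFinite _
  have hcard : Fintype.card (G ⧸ H) = H.index := by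
    rw [Subgroup.index_eq_card, Nat.card_eq_fintype_card]
  obtain ⟨s, e, hs, he⟩ := restriction_res h
  have h1 : ∀ j : Fin (r' i), Metric.infDist (pt0 ((1 : H), j) : L2 H (r' i)) (harmonic D' i)
      = Metric.infDist (pt0 ((1 : G), (e i j).2) : L2 G (r i)) (harmonic D i) := by
    intro j
    rw [← dist_tr D i (s (e i j).1) (e i j).2,
      image_eq (hE hs (e i)) (harmonic D i) (harmonic D' i)
      (fun F => harmonic_restr e hs he i F)]
    have h2 : (pt0 ((1 : H), j) : L2 H (r' i))
        = cE (hE hs (e i)) (pt0 (s (e i j).1, (e i j).2)) := by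
      rw [← cE_pt (hE hs (e i)) ((1 : H), j)]
      congr 2
      rw [hE_apply]
      change (s (e i j).1 * 1, (e i j).2) = _
      rw [mul_one]
    rw [h2, Metric.infDist_image (cE_isometry _)]
  have h3 : betti D' i = ∑ j : Fin (r' i),
      (1 - Metric.infDist (pt0 ((1 : G), (e i j).2) : L2 G (r i)) (harmonic D i) ^ 2) := by
    rw [betti_pt]
    exact Finset.sum_congr rfl fun j _ => by rw [h1 j]
  rw [h3, Equiv.sum_comp (e i) (fun p : (G ⧸ H) × Fin (r i) =>
    (1 - Metric.infDist (pt0 ((1 : G), p.2) : L2 G (r i)) (harmonic D i) ^ 2)),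
    Fintype.sum_prod_type]
  change ∑ _ : G ⧸ H, ∑ j : Fin (r i),
    (1 - Metric.infDist (pt0 ((1 : G), j) : L2 G (r i)) (harmonic D i) ^ 2) = _
  rw [← betti_pt, Finset.sum_const, Finset.card_univ, nsmul_eq_mul, hcard]

theorem rank_restr [H.FiniteIndex] {r r' : ℕ → ℕ} {D : Matrices G r} {D' : Matrices H r'}
    (h : IsRestriction D D') (i : ℕ) (hi : r i = 0) : r' i = 0 := by
  classical
  have : Fintype (G ⧸ H) := Fintype.ofFinite _
  obtain ⟨s, e, _, _⟩ := h
  have h1 := Fintype.card_congr (e i)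
  rw [Fintype.card_fin, Fintype.card_prod, Fintype.card_fin, hi, mul_zero] at h1
  exact h1

theorem zero_of_restr [H.FiniteIndex] {r r' : ℕ → ℕ} {D : Matrices G r} {D' : Matrices H r'}
    (h : IsRestriction D D') (i : ℕ) (hi : betti D' i = 0) : betti D i = 0 := by
  rw [betti_restr h] at hi
  rcases mul_eq_zero.1 hi with h1 | h1
  · have h2 : H.index = 0 := by exact_mod_cast h1
    exact absurd h2 Subgroup.FiniteIndex.index_ne_zero
  · exact h1

end

end Run7.h31.Raise
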