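import Pool.Agent.Run7.h31.Raise.Core

set_option autoImplicit false
set_option linter.unusedSectionVars false

open scoped InnerProductSpace InnerProduct ENNReal
open scoped Matrix

/-! Twisting by a character. -/

namespace Run7.h31.Raise

open Pool.Agent.W649.ZL Pool.Agent.N309.LO Pool.Agent.N309.PD

universe u v w z

section
variable {G : Type u} [Group G]

/-- the twist of the group algebra by a character -/
noncomputable def tau (χ : G →* ℂ) : MonoidAlgebra ℂ G →ₐ[ℂ] MonoidAlgebra ℂ G :=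
  MonoidAlgebra.lift ℂ _ G
    { toFun := fun g => MonoidAlgebra.single g (χ g)
      map_one' := by rw [map_one]; rfl
      map_mul' := fun g h => by rw [map_mul, MonoidAlgebra.single_mul_single] }

theorem tau_single (χ : G →* ℂ) (g : G) (c : ℂ) :
    tau χ (MonoidAlgebra.single g c) = MonoidAlgebra.single g (c * χ g) := by
  unfold tau
  rw [MonoidAlgebra.lift_single]
  change c • MonoidAlgebra.single g (χ g) = _
  rw [MonoidAlgebra.smul_single, smul_eq_mul]

theorem tau_coeff (χ : G →* ℂ) (α : MonoidAlgebra ℂ G) (g : G) :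
    (tau χ α).coeff g = α.coeff g * χ g := by
  classical
  induction α using MonoidAlgebra.induction_linear with
  | zero => rw [map_zero]; exact (zero_mul _).symm
  | add a b ha hb =>
    rw [map_add, MonoidAlgebra.coeff_add, Finsupp.add_apply, ha, hb, MonoidAlgebra.coeff_add,
      Finsupp.add_apply, add_mul]
  | single h c =>
    rw [tau_single, MonoidAlgebra.coeff_single, MonoidAlgebra.coeff_single, Finsupp.single_apply,
      Finsupp.single_apply]
    by_cases e : h = g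
    · rw [if_pos e, if_pos e, e]
    · rw [if_neg e, if_neg e, zero_mul]

theorem tau_tau (χ χ' : G →* ℂ) (h : ∀ g, χ g * χ' g = 1) (α : MonoidAlgebra ℂ G) :
    tau χ (tau χ' α) = α := by
  apply MonoidAlgebra.coeff_injective
  ext g
  rw [tau_coeff, tau_coeff, mul_assoc, mul_comm (χ' g), h, mul_one]

/-- the inverse character -/
noncomputable def invChar (χ : G →* ℂ) : G →* ℂ where
  toFun g := χ g⁻¹
  map_one' := by rw [inv_one, map_one]
  map_mul' g h := by rw [mul_inv_rev, map_mul, mul_comm]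

theorem mul_invChar (χ : G →* ℂ) (g : G) : χ g * invChar χ g = 1 := by
  change χ g * χ g⁻¹ = 1
  rw [← map_mul, mul_inv_cancel, map_one]

theorem invChar_mul (χ : G →* ℂ) (g : G) : invChar χ g * χ g = 1 := by
  rw [mul_comm, mul_invChar]

/-- the twist of a matrix -/
noncomputable def twM {I J : Type*} (χ : G →* ℂ) (A : Matrix I J (MonoidAlgebra ℂ G)) :
    Matrix I J (MonoidAlgebra ℂ G) := fun i j => tau χ (A i j)

theorem twM_mul {I J K : Type*} [Fintype J] (χ : G →* ℂ) (A : Matrix I J (MonoidAlgebra ℂ G))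
    (B : Matrix J K (MonoidAlgebra ℂ G)) : twM χ (A * B) = twM χ A * twM χ B := by
  funext i k
  change tau χ (∑ j, A i j * B j k) = ∑ j, tau χ (A i j) * tau χ (B j k)
  rw [map_sum]
  exact Finset.sum_congr rfl fun j _ => map_mul _ _ _

theorem twM_vec {I J : Type*} [Fintype I] (χ : G →* ℂ) (x : I → MonoidAlgebra ℂ G)
    (A : Matrix I J (MonoidAlgebra ℂ G)) :
    (fun i => tau χ (x i)) ᵥ* twM χ A = fun j => tau χ ((x ᵥ* A) j) := by
  funext j
  change ∑ i, tau χ (x i) * tau χ (A i j) = tau χ (∑ i, x i * A i j)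
  rw [map_sum]
  exact Finset.sum_congr rfl fun i _ => (map_mul _ _ _).symm

/-- the twist of a functional -/
noncomputable def twF {n : ℕ} (χ : G →* ℂ) (ψ : (Fin n → MonoidAlgebra ℂ G) →ₗ[ℂ] ℂ) :
    (Fin n → MonoidAlgebra ℂ G) →ₗ[ℂ] ℂ where
  toFun x := ψ fun j => tau χ (x j)
  map_add' x y := by
    rw [← map_add]
    congr 1
    funext j
    exact map_add _ _ _
  map_smul' c x := by
    rw [RingHom.id_apply, ← map_smul]
    congr 1
    funext j
    exact map_smul (tau χ) c (x j)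

theorem twF_apply {n : ℕ} (χ : G →* ℂ) (ψ : (Fin n → MonoidAlgebra ℂ G) →ₗ[ℂ] ℂ)
    (x : Fin n → MonoidAlgebra ℂ G) : twF χ ψ x = ψ fun j => tau χ (x j) := rfl

theorem twF_char {n : ℕ} (χ : G →* ℂ) (ψ : (Fin n → MonoidAlgebra ℂ G) →ₗ[ℂ] ℂ)
    (hψ : HasChar 1 ψ) : HasChar χ (twF χ ψ) := by
  intro g x
  rw [twF_apply, twF_apply]
  have e : (fun j => tau χ (gsm g x j)) = χ g • gsm g (fun j => tau χ (x j)) := by
    funext j
    change tau χ (MonoidAlgebra.single g 1 * x j) = χ g • (MonoidAlgebra.single g 1 * tau χ (x j))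
    rw [map_mul, tau_single, one_mul, ← smul_mul_assoc, MonoidAlgebra.smul_single, smul_eq_mul,
      mul_one]
  rw [e, map_smul, hψ, smul_eq_mul, MonoidHom.one_apply, one_mul]

theorem twF_ne {n : ℕ} (χ : G →* ℂ) (ψ : (Fin n → MonoidAlgebra ℂ G) →ₗ[ℂ] ℂ)
    (hψ : ψ ≠ 0) : twF χ ψ ≠ 0 := by
  intro h
  apply hψ
  apply LinearMap.ext
  intro x
  have h1 : twF χ ψ (fun j => tau (invChar χ) (x j)) = 0 := by rw [h]; rfl
  rw [twF_apply] at h1
  simp only [tau_tau χ (invChar χ) (mul_invChar χ)] at h1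
  exact h1

/-- the twisted complex -/
noncomputable def twD {q : ℕ → ℕ} (χ : G →* ℂ) (E : Mats G q) : Mats G q :=
  fun i => twM (invChar χ) (E i)

theorem tau_vec_twD {q : ℕ → ℕ} (χ : G →* ℂ) (E : Mats G q) (i : ℕ)
    (x : Fin (q (i + 1)) → MonoidAlgebra ℂ G) :
    (fun j => tau χ ((x ᵥ* twD χ E i) j)) = (fun j => tau χ (x j)) ᵥ* E i := by
  have h := twM_vec χ x (twD χ E i)
  rw [← h]
  congr 1
  funext k j
  exact tau_tau χ (invChar χ) (mul_invChar χ) (E i k j)

theorem tw_exact {q : ℕ → ℕ} (χ : G →* ℂ) (E : Mats G q)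
    (ψ : (Fin (q 0) → MonoidAlgebra ℂ G) →ₗ[ℂ] ℂ) (m : ℕ) (h : ExactUpTo m E ψ) :
    ExactUpTo m (twD χ E) (twF χ ψ) := by
  have key : ∀ (i : ℕ) (x : Fin (q i) → MonoidAlgebra ℂ G),
      (∃ y, y ᵥ* E i = fun j => tau χ (x j)) → ∃ y, y ᵥ* twD χ E i = x := by
    rintro i x ⟨y, hy⟩
    refine ⟨fun k => tau (invChar χ) (y k), ?_⟩
    have h1 := twM_vec (invChar χ) y (E i)
    change (fun k => tau (invChar χ) (y k)) ᵥ* twM (invChar χ) (E i) = x
    rw [h1, hy]
    funext j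
    exact tau_tau (invChar χ) χ (invChar_mul χ) (x j)
  constructor
  · intro hm x hx
    exact key 0 x (h.zero hm _ hx)
  · intro i hi x hx
    apply key
    apply h.succ i hi
    rw [← tau_vec_twD, hx]
    funext j
    exact map_zero _

theorem tw_comp {q : ℕ → ℕ} (χ : G →* ℂ) (E : Mats G q)
    (ψ : (Fin (q 0) → MonoidAlgebra ℂ G) →ₗ[ℂ] ℂ) (m : ℕ) (h : CompUpTo m E ψ) :
    CompUpTo m (twD χ E) (twF χ ψ) := by
  constructor
  · intro hm y
    rw [twF_apply, tau_vec_twD]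
    exact h.zero hm _
  · intro i hi
    change twM _ _ * twM _ _ = 0
    rw [← twM_mul, h.succ i hi]
    funext j k
    exact map_zero _

theorem tw_lift {q : ℕ → ℕ} (χ : G →* ℂ) (E : Mats G q)
    (ψ : (Fin (q 0) → MonoidAlgebra ℂ G) →ₗ[ℂ] ℂ) (m : ℕ)
    (Z : ∀ i, Matrix (Fin (q i)) (Fin (q i)) (MonoidAlgebra ℂ G)) (h : LiftId m E ψ Z) :
    LiftId m (twD χ E) (twF χ ψ) (fun i => twM (invChar χ) (Z i)) := by
  constructor
  · intro x
    rw [twF_apply, twF_apply]
    have h1 := twM_vec χ x (twM (invChar χ) (Z 0))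
    rw [← h1]
    have e : twM χ (twM (invChar χ) (Z 0)) = Z 0 := by
      funext k j
      exact tau_tau χ (invChar χ) (mul_invChar χ) (Z 0 k j)
    rw [e]
    exact h.zero _
  · intro i hi
    change twM _ _ * twM _ _ = twM _ _ * twM _ _
    rw [← twM_mul, ← twM_mul, h.comm i hi]

/-- The bound for a resolution of an arbitrary one-dimensional module. -/
theorem core_twist {X : Type v} [MulAction G X] [LinearOrder X] (hX : OrdInv G X)
    {r q : ℕ → ℕ} (D : Mats G r) (E : Mats G q) (χ : G →* ℂ)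
    (φ : (Fin (r 0) → MonoidAlgebra ℂ G) →ₗ[ℂ] ℂ) (ψ : (Fin (q 0) → MonoidAlgebra ℂ G) →ₗ[ℂ] ℂ)
    (hφ : HasChar χ φ) (hψ : HasChar 1 ψ) (hφ0 : φ ≠ 0) (hψ0 : ψ ≠ 0) (m : ℕ)
    (hDc : CompUpTo (m + 1) D φ) (hDe : ExactUpTo (m + 1) D φ)
    (hEc : CompUpTo m E ψ) (hEe : ExactUpTo m E ψ)
    (Z : ∀ i, Matrix (Fin (q i)) (Fin (q i)) (MonoidAlgebra ℂ G)) (hZ : LiftId m E ψ Z)
    (w : Fin (q m) → X) (T : Finset (Fin (q m)))
    (hT : ∀ j, j ∉ T → ∀ j', ∀ g ∈ (Z m j j').coeff.support, w j < g • w j') :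
    bet D m ≤ T.card := by
  refine (core D (twD χ E) φ (twF χ ψ) hφ (twF_char χ ψ hψ) hφ0 (twF_ne χ ψ hψ0) m hDc hDe
    (tw_comp χ E ψ m hEc) (tw_exact χ E ψ m hEe) _ (tw_lift χ E ψ m Z hZ)).trans ?_
  apply raise_bound hX w (twM (invChar χ) (Z m)) T
  intro j hj j' g hg
  apply hT j hj j' g
  rw [Finsupp.mem_support_iff] at hg ⊢
  intro h
  apply hg
  change (tau _ (Z m j j')).coeff g = 0
  rw [tau_coeff, h, zero_mul]

end

end Run7.h31.Raise
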